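import Pool.Agent.Lib.P4a177o.CrvA

/-!
# MODULE P4a177o.CrvB: the curve for small `ε` (est. 1.5 h)

PROOF. Write `a = aa ε t`. `gg ε t ^ 2 = 4 sinh^2 (a + i t) = 2 (cosh (2 a + 2 i t) - 1) =
2 (cosh 2a cos 2t - 1) + 2 i sinh 2a sin 2t` (`gg_eq`). As `2 a = -2 ε^2 - ε sin 2t`, this is
`-4 sin^2 t - 2 i ε sin^2 2t + R`, `R = 2 (cosh 2a - 1) cos 2t + 2 i (sinh 2a - 2a) sin 2t -
4 i ε^2 sin 2t`, and `sin^2 2t = 4 sin^2 t cos^2 t`, so that
`-gg^2/4 - sin^2 t (1 + 2 i ε cos^2 t) = -R/4`. For `ε ≤ 1/10`: `|2a| ≤ 6/5 ε`; for `|y| ≤ 1`: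
`0 ≤ cosh y - 1 ≤ y^2` and `|sinh y - y| ≤ |y|^3 ≤ y^2` (e.g. from `Real.abs_exp_sub_one_sub_id_le`
`|exp y - 1 - y| ≤ y^2` for `|y| ≤ 1`: `cosh y - 1 = ((exp y - 1 - y) + (exp (-y) - 1 + y)) / 2`,
`sinh y - y = ((exp y - 1 - y) - (exp (-y) - 1 + y)) / 2`, so both are at most `y^2`). So
`|R| ≤ 2 * 1.44 ε^2 + 2 * 1.44 ε^2 + 4 ε^2 ≤ 10 ε^2` and `|R| / 4 ≤ 3 ε^2`.
(A direct proof without the decomposition is fine too.)
* `tendsto_gg`: `gg ε t` is a continuous function of `ε` (as `aa ε t` is), at `ε = 0` it is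
  `exp (i t) - exp (-i t) = 2 i sin t`. `tendsto_tf`: `da ε t → 0`.
* `tendsto_aa_mul_lg`: `lg ε t = tf (z + 1/z) / gg` is continuous in `ε` at `0` because
  `gg 0 t ≠ 0`, and `aa ε t → 0`.
* `abs_aa_mul_lg_le`: `|aa| ‖tf‖ ‖z + 1/z‖ / ‖gg‖ ≤ |aa| * 2 * 3 / (2 |aa|) ≤ 3`
  (`abs_aa_le_norm_gg`).
-/

set_option autoImplicit false

namespace P4a177o

open P4a177h P4a177t Function MeasureTheory Filter Topology
open scoped Real

namespace CrvBAux

theorem aa_zero (t : ℝ) : aa 0 t = 0 := by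
  unfold aa
  simp

theorem cont_aa (t : ℝ) : Continuous (fun ε => aa ε t) := by
  unfold aa
  fun_prop

theorem cont_da (t : ℝ) : Continuous (fun ε => da ε t) := by
  unfold da
  fun_prop

theorem cont_crv (t : ℝ) : Continuous (fun ε => crv ε t) := by
  unfold crv
  exact ((Complex.continuous_ofReal.comp (cont_aa t)).add continuous_const).cexp

theorem cont_gg (t : ℝ) : Continuous (fun ε => gg ε t) := by
  unfold gg
  exact (cont_crv t).sub ((cont_crv t).inv₀ (fun ε => crv_ne_zero ε t))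

theorem cont_tf (t : ℝ) : Continuous (fun ε => tf ε t) := by
  unfold tf
  exact continuous_const.sub ((Complex.continuous_ofReal.comp (cont_da t)).mul continuous_const)

theorem gg_zero (t : ℝ) : gg 0 t = ((2 * Real.sin t : ℝ) : ℂ) * Complex.I := by
  rw [gg_eq, aa_zero]
  push_cast
  rw [zero_add, Complex.sinh_mul_I]
  ring

theorem cosh_le {y : ℝ} (h : |y| ≤ 1) : |Real.cosh y - 1| ≤ y ^ 2 := by
  have h1 := abs_le.1 (Real.abs_exp_sub_one_sub_id_le h)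
  have h2 := abs_le.1 (Real.abs_exp_sub_one_sub_id_le (x := -y) (by rwa [abs_neg]))
  rw [neg_sq] at h2
  rw [Real.cosh_eq, abs_le]
  constructor <;> linarith [h1.1, h1.2, h2.1, h2.2]

theorem sinh_le {y : ℝ} (h : |y| ≤ 1) : |Real.sinh y - y| ≤ y ^ 2 := by
  have h1 := abs_le.1 (Real.abs_exp_sub_one_sub_id_le h)
  have h2 := abs_le.1 (Real.abs_exp_sub_one_sub_id_le (x := -y) (by rwa [abs_neg]))
  rw [neg_sq] at h2
  rw [Real.sinh_eq, abs_le]
  constructor <;> linarith [h1.1, h1.2, h2.1, h2.2]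

end CrvBAux

open CrvBAux

theorem gg_sq_approx {ε : ℝ} (h0 : 0 < ε) (h1 : ε ≤ 1 / 10) (t : ℝ) :
    ‖-(gg ε t) ^ 2 / 4 - ((Real.sin t ^ 2 : ℝ) : ℂ) *
      (1 + ((ε * (2 * Real.cos t ^ 2) : ℝ) : ℂ) * Complex.I)‖ ≤ 3 * ε ^ 2 := by
  set a : ℝ := aa ε t with ha
  set y : ℝ := 2 * a with hy
  have hya : y = -2 * ε ^ 2 - ε * Real.sin (2 * t) := by rw [hy, ha]; unfold aa; ring
  have hs := Real.sin_sq_add_cos_sq t
  have e : -(gg ε t) ^ 2 / 4 - ((Real.sin t ^ 2 : ℝ) : ℂ) *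
      (1 + ((ε * (2 * Real.cos t ^ 2) : ℝ) : ℂ) * Complex.I) =
      (((1 - Real.cosh y) * Real.cos (2 * t) / 2 : ℝ) : ℂ) +
        ((-Real.sin (2 * t) * (Real.sinh y - y - 2 * ε ^ 2) / 2 : ℝ) : ℂ) * Complex.I := by
    have e1 : -(gg ε t) ^ 2 / 4 = (1 - Complex.cosh (((y : ℝ) : ℂ) + ((2 * t : ℝ) : ℂ) * Complex.I)) / 2 := by
      rw [gg_eq]
      have h2 : (((y : ℝ) : ℂ) + ((2 * t : ℝ) : ℂ) * Complex.I) = 2 * ((a : ℂ) + t * Complex.I) := by
        rw [hy]; push_cast; ring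
      rw [h2, Complex.cosh_two_mul]
      have h3 := Complex.cosh_sq ((a : ℂ) + t * Complex.I)
      rw [h3]
      ring
    have e2 : Complex.cosh (((y : ℝ) : ℂ) + ((2 * t : ℝ) : ℂ) * Complex.I) =
        ((Real.cosh y * Real.cos (2 * t) : ℝ) : ℂ) + ((Real.sinh y * Real.sin (2 * t) : ℝ) : ℂ) * Complex.I := by
      rw [Complex.cosh_add, Complex.cosh_mul_I, Complex.sinh_mul_I]
      push_cast
      ring
    rw [e1, e2]
    have h4 : Real.sin t ^ 2 = (1 - Real.cos (2 * t)) / 2 := by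
      rw [Real.cos_two_mul]
      linarith
    have h5 : Real.sin t ^ 2 * (ε * (2 * Real.cos t ^ 2)) = -Real.sin (2 * t) * (y + 2 * ε ^ 2) / 2 := by
      rw [hya, Real.sin_two_mul]
      ring
    have h6 : ((Real.sin t ^ 2 : ℝ) : ℂ) * (1 + ((ε * (2 * Real.cos t ^ 2) : ℝ) : ℂ) * Complex.I) =
        (((1 - Real.cos (2 * t)) / 2 : ℝ) : ℂ) + ((-Real.sin (2 * t) * (y + 2 * ε ^ 2) / 2 : ℝ) : ℂ) * Complex.I := by
      rw [← h4, ← h5]
      push_cast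
      ring
    rw [h6]
    push_cast
    ring
  rw [e]
  have hab : |y| ≤ 6 / 5 * ε := by
    rw [hya, abs_le]
    have h2 := Real.neg_one_le_sin (2 * t)
    have h3 := Real.sin_le_one (2 * t)
    constructor
    · nlinarith
    · nlinarith
  have hy1 : |y| ≤ 1 := by linarith
  have hy2 : y ^ 2 ≤ 36 / 25 * ε ^ 2 := by
    rw [← sq_abs]
    have := pow_le_pow_left₀ (abs_nonneg y) hab 2
    nlinarith
  have h2 := cosh_le hy1
  have h3 := sinh_le hy1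
  have h4 : |Real.cos (2 * t)| ≤ 1 := Real.abs_cos_le_one _
  have h5 : |Real.sin (2 * t)| ≤ 1 := Real.abs_sin_le_one _
  refine (norm_add_le _ _).trans ?_
  rw [norm_mul, Complex.norm_I, mul_one, Complex.norm_real, Complex.norm_real, Real.norm_eq_abs,
    Real.norm_eq_abs, abs_div, abs_div, abs_mul, abs_mul, abs_neg, abs_two]
  have h6 : |1 - Real.cosh y| * |Real.cos (2 * t)| ≤ 36 / 25 * ε ^ 2 := by
    rw [abs_sub_comm]
    calc |Real.cosh y - 1| * |Real.cos (2 * t)| ≤ y ^ 2 * 1 :=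
          mul_le_mul h2 h4 (abs_nonneg _) (sq_nonneg _)
      _ ≤ _ := by linarith
  have h7 : |Real.sin (2 * t)| * |Real.sinh y - y - 2 * ε ^ 2| ≤ 36 / 25 * ε ^ 2 + 2 * ε ^ 2 := by
    have h8 : |Real.sinh y - y - 2 * ε ^ 2| ≤ 36 / 25 * ε ^ 2 + 2 * ε ^ 2 := by
      rw [abs_le] at h3 ⊢
      constructor <;> nlinarith [h3.1, h3.2, sq_nonneg ε]
    calc |Real.sin (2 * t)| * |Real.sinh y - y - 2 * ε ^ 2| ≤ 1 * (36 / 25 * ε ^ 2 + 2 * ε ^ 2) :=
          mul_le_mul h5 h8 (abs_nonneg _) zero_le_one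
      _ = _ := one_mul _
  nlinarith [sq_nonneg ε]

theorem tendsto_gg (t : ℝ) : Tendsto (fun ε => gg ε t) (𝓝[>] 0)
    (𝓝 (((2 * Real.sin t : ℝ) : ℂ) * Complex.I)) := by
  rw [← gg_zero]
  exact ((cont_gg t).tendsto 0).mono_left nhdsWithin_le_nhds

theorem tendsto_tf (t : ℝ) : Tendsto (fun ε => tf ε t) (𝓝[>] 0) (𝓝 1) := by
  have h : tf 0 t = 1 := by
    unfold tf da
    simp
  rw [← h]
  exact ((cont_tf t).tendsto 0).mono_left nhdsWithin_le_nhds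

theorem tendsto_da (t : ℝ) : Tendsto (fun ε => da ε t) (𝓝[>] 0) (𝓝 0) := by
  have h : da 0 t = 0 := by
    unfold da
    simp
  have h2 := ((cont_da t).tendsto 0).mono_left (nhdsWithin_le_nhds (s := Set.Ioi 0))
  rwa [h] at h2

theorem tendsto_aa_mul_lg (t : ℝ) (ht : Real.sin t ≠ 0) :
    Tendsto (fun ε => aa ε t * (lg ε t).re) (𝓝[>] 0) (𝓝 0) := by
  have h1 : gg 0 t ≠ 0 := by
    rw [gg_zero]
    exact mul_ne_zero (Complex.ofReal_ne_zero.2 (mul_ne_zero two_ne_zero ht)) Complex.I_ne_zero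
  have h2 : ContinuousAt (fun ε => lg ε t) 0 := by
    unfold lg
    apply ContinuousAt.div _ (cont_gg t).continuousAt h1
    exact ((cont_tf t).mul ((cont_crv t).add ((cont_crv t).inv₀ (fun ε => crv_ne_zero ε t)))).continuousAt
  have h3 : ContinuousAt (fun ε => aa ε t * (lg ε t).re) 0 :=
    (cont_aa t).continuousAt.mul (Complex.continuous_re.continuousAt.comp h2)
  have h4 := h3.tendsto.mono_left (nhdsWithin_le_nhds (s := Set.Ioi 0))
  simp only [aa_zero, zero_mul] at h4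
  exact h4

theorem abs_aa_mul_lg_le {ε : ℝ} (h0 : 0 < ε) (h1 : ε ≤ 1 / 10) (t : ℝ) :
    |aa ε t * (lg ε t).re| ≤ 3 := by
  have h2 := abs_aa_le_norm_gg ε t
  have h3 : 0 < ‖gg ε t‖ := norm_pos_iff.2 (gg_ne_zero h0 t)
  have h4 := norm_tf_le h0 h1 t
  have h5 := norm_crv_add_le h0 h1 t
  have h6 : |(lg ε t).re| ≤ ‖lg ε t‖ := Complex.abs_re_le_norm _
  have h7 : ‖lg ε t‖ ≤ 6 / ‖gg ε t‖ := by
    unfold lg
    rw [norm_div, norm_mul]
    apply div_le_div_of_nonneg_right _ h3.le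
    calc ‖tf ε t‖ * ‖crv ε t + (crv ε t)⁻¹‖ ≤ 2 * 3 :=
          mul_le_mul h4 h5 (norm_nonneg _) (by norm_num)
      _ = 6 := by norm_num
  rw [abs_mul]
  calc |aa ε t| * |(lg ε t).re| ≤ (‖gg ε t‖ / 2) * (6 / ‖gg ε t‖) :=
        mul_le_mul (by linarith) (h6.trans h7) (abs_nonneg _) (by positivity)
    _ = 3 := by field_simp; norm_num

end P4a177o
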