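import Mathlib

/-!
# MODULE P4a177o.ProdO: a product of perturbed real numbers (est. 1 h)

PROOF of `prod_approx`. Induction on `m` (`Fin.prod_univ_succ`, `Fin.sum_univ_succ`). `m = 0`: `K = 1`.
Step: let `A = s_0 (1 + i ε b_0)`, `P' = ∏_{j ≥ 1} p_j`, `S' = ∏_{j ≥ 1} s_j`, `B' = ∑_{j ≥ 1} b_j`,
`Q' = S' (1 + i ε B')`. By induction `‖P' - Q'‖ ≤ K' ε^2`. `‖A‖ ≤ 3`,
`‖Q'‖ ≤ 1 + 2 m`, so `‖P'‖ ≤ 1 + 2 m + K'`. And `p_0 P' - s_0 S' (1 + i ε (b_0 + B')) =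
(p_0 - A) P' + A (P' - Q') + s_0 S' ((1 + i ε b_0) (1 + i ε B') - 1 - i ε (b_0 + B'))`, where the
last bracket is `-ε^2 b_0 B'`, of absolute value at most `4 m ε^2`. So
`K = C (1 + 2 m + K') + 3 K' + 4 m + 1` will do.
PROOF of `one_sub_prod_le`. Induction: `1 - (1 - c_0) P = (1 - P) + c_0 P ≤ ∑' + c_0`, `0 ≤ P ≤ 1`
(or `Finset.prod_one_sub_...`/`one_sub_sum_le_prod_one_sub` of Mathlib if it exists).
-/

set_option autoImplicit false

namespace P4a177o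

theorem norm_one_add_le (x : ℝ) (hx : 0 ≤ x) : ‖(1 : ℂ) + (x : ℂ) * Complex.I‖ ≤ 1 + x := by
  refine (norm_add_le _ _).trans ?_
  rw [norm_one, norm_mul, Complex.norm_I, mul_one, Complex.norm_real, Real.norm_eq_abs,
    abs_of_nonneg hx]

theorem prod_approx (m : ℕ) (C : ℝ) (hC : 0 ≤ C) : ∃ K : ℝ, 0 < K ∧ ∀ ε : ℝ, 0 < ε → ε ≤ 1 →
    ∀ (p : Fin m → ℂ) (s b : Fin m → ℝ), (∀ j, 0 ≤ s j ∧ s j ≤ 1) → (∀ j, 0 ≤ b j ∧ b j ≤ 2) →
    (∀ j, ‖p j - (s j : ℂ) * (1 + ((ε * b j : ℝ) : ℂ) * Complex.I)‖ ≤ C * ε ^ 2) →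
    ‖∏ j, p j - ((∏ j, s j : ℝ) : ℂ) * (1 + ((ε * ∑ j, b j : ℝ) : ℂ) * Complex.I)‖ ≤
      K * ε ^ 2 := by
  induction m with
  | zero =>
    refine ⟨1, one_pos, fun ε _ _ p s b _ _ _ => ?_⟩
    simp only [Finset.univ_eq_empty, Finset.prod_empty, Finset.sum_empty, mul_zero,
      Complex.ofReal_one, Complex.ofReal_zero, zero_mul, add_zero, mul_one, sub_self, norm_zero,
      one_mul]
    positivity
  | succ m ih =>
    obtain ⟨K', hK', h'⟩ := ih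
    refine ⟨C * (1 + 2 * m + K') + 3 * K' + 4 * m + 1, by positivity,
      fun ε hε hε1 p s b hs hb hp => ?_⟩
    have h1 := h' ε hε hε1 (fun j => p j.succ) (fun j => s j.succ) (fun j => b j.succ)
      (fun j => hs j.succ) (fun j => hb j.succ) (fun j => hp j.succ)
    have hp0 := hp 0
    obtain ⟨hs0, hs1⟩ := hs 0
    obtain ⟨hb0, hb1⟩ := hb 0
    rw [Fin.prod_univ_succ, Fin.prod_univ_succ, Fin.sum_univ_succ]
    have hS0 : 0 ≤ ∏ j : Fin m, s j.succ := Finset.prod_nonneg fun j _ => (hs j.succ).1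
    have hS1 : ∏ j : Fin m, s j.succ ≤ 1 :=
      Finset.prod_le_one (fun j _ => (hs j.succ).1) (fun j _ => (hs j.succ).2)
    have hB0 : 0 ≤ ∑ j : Fin m, b j.succ := Finset.sum_nonneg fun j _ => (hb j.succ).1
    have hB1 : ∑ j : Fin m, b j.succ ≤ 2 * m := by
      refine (Finset.sum_le_card_nsmul _ _ 2 fun j _ => (hb j.succ).2).trans ?_
      simp [mul_comm]
    set P := ∏ j : Fin m, p j.succ with hPd
    set S := ∏ j : Fin m, s j.succ with hSd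
    set B := ∑ j : Fin m, b j.succ with hBd
    set Q : ℂ := (S : ℂ) * (1 + ((ε * B : ℝ) : ℂ) * Complex.I) with hQd
    set A : ℂ := (s 0 : ℂ) * (1 + ((ε * b 0 : ℝ) : ℂ) * Complex.I) with hAd
    have hε2 : ε ^ 2 ≤ 1 := pow_le_one₀ hε.le hε1
    have hA : ‖A‖ ≤ 3 := by
      rw [hAd, norm_mul, Complex.norm_real, Real.norm_eq_abs, abs_of_nonneg hs0]
      have h2 := norm_one_add_le (ε * b 0) (by positivity)
      have h3 : ε * b 0 ≤ 1 * 2 := mul_le_mul hε1 hb1 hb0 (by norm_num)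
      calc s 0 * ‖(1 : ℂ) + ((ε * b 0 : ℝ) : ℂ) * Complex.I‖ ≤ 1 * (1 + ε * b 0) :=
            mul_le_mul hs1 h2 (norm_nonneg _) (by norm_num)
        _ ≤ 3 := by linarith
    have hQ : ‖Q‖ ≤ 1 + 2 * m := by
      rw [hQd, norm_mul, Complex.norm_real, Real.norm_eq_abs, abs_of_nonneg hS0]
      have h2 := norm_one_add_le (ε * B) (by positivity)
      have h3 : ε * B ≤ 1 * (2 * m) := mul_le_mul hε1 hB1 hB0 (by norm_num)
      calc S * ‖(1 : ℂ) + ((ε * B : ℝ) : ℂ) * Complex.I‖ ≤ 1 * (1 + ε * B) :=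
            mul_le_mul hS1 h2 (norm_nonneg _) (by norm_num)
        _ ≤ 1 + 2 * m := by linarith
    have hP : ‖P‖ ≤ 1 + 2 * m + K' := by
      have h2 : ‖P‖ ≤ ‖Q‖ + ‖P - Q‖ := by
        have := norm_add_le Q (P - Q)
        rwa [add_sub_cancel] at this
      have h3 : K' * ε ^ 2 ≤ K' := by
        calc K' * ε ^ 2 ≤ K' * 1 := mul_le_mul_of_nonneg_left hε2 hK'.le
          _ = K' := mul_one _
      linarith
    have hid : p 0 * P - ((s 0 * S : ℝ) : ℂ) * (1 + ((ε * (b 0 + B) : ℝ) : ℂ) * Complex.I) =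
        (p 0 - A) * P + A * (P - Q) + ((-(s 0 * S * (ε ^ 2 * (b 0 * B))) : ℝ) : ℂ) := by
      rw [hAd, hQd]
      push_cast
      have hI : Complex.I ^ 2 = -1 := Complex.I_sq
      linear_combination ((s 0 : ℂ) * S * ε ^ 2 * b 0 * B) * hI
    rw [hid]
    have e1 : ‖(p 0 - A) * P‖ ≤ C * ε ^ 2 * (1 + 2 * m + K') := by
      rw [norm_mul]
      exact mul_le_mul hp0 hP (norm_nonneg _) (by positivity)
    have e2 : ‖A * (P - Q)‖ ≤ 3 * (K' * ε ^ 2) := by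
      rw [norm_mul]
      exact mul_le_mul hA h1 (norm_nonneg _) (by norm_num)
    have e3 : ‖((-(s 0 * S * (ε ^ 2 * (b 0 * B))) : ℝ) : ℂ)‖ ≤ 4 * m * ε ^ 2 := by
      rw [Complex.norm_real, Real.norm_eq_abs, abs_neg, abs_of_nonneg (by positivity)]
      have h2 : b 0 * B ≤ 2 * (2 * m) := mul_le_mul hb1 hB1 hB0 (by norm_num)
      have h3 : s 0 * S ≤ 1 * 1 := mul_le_mul hs1 hS1 hS0 (by norm_num)
      calc s 0 * S * (ε ^ 2 * (b 0 * B)) ≤ 1 * 1 * (ε ^ 2 * (2 * (2 * m))) :=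
            mul_le_mul h3 (mul_le_mul_of_nonneg_left h2 (by positivity)) (by positivity)
              (by norm_num)
        _ = 4 * m * ε ^ 2 := by ring
    calc _ ≤ ‖(p 0 - A) * P‖ + ‖A * (P - Q)‖ + ‖((-(s 0 * S * (ε ^ 2 * (b 0 * B))) : ℝ) : ℂ)‖ :=
          norm_add₃_le
      _ ≤ C * ε ^ 2 * (1 + 2 * m + K') + 3 * (K' * ε ^ 2) + 4 * m * ε ^ 2 := by
          linarith
      _ ≤ (C * (1 + 2 * m + K') + 3 * K' + 4 * m + 1) * ε ^ 2 := by
          have : 0 ≤ ε ^ 2 := by positivity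
          nlinarith

theorem one_sub_prod_le {m : ℕ} (c : Fin m → ℝ) (h : ∀ j, 0 ≤ c j ∧ c j ≤ 1) :
    1 - ∏ j, (1 - c j) ≤ ∑ j, c j := by
  induction m with
  | zero => simp
  | succ m ih =>
    have h1 := ih (fun j => c j.succ) (fun j => h j.succ)
    rw [Fin.prod_univ_succ, Fin.sum_univ_succ]
    have hP0 : 0 ≤ ∏ j : Fin m, (1 - c j.succ) :=
      Finset.prod_nonneg fun j _ => by linarith [(h j.succ).2]
    have hP1 : ∏ j : Fin m, (1 - c j.succ) ≤ 1 :=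
      Finset.prod_le_one (fun j _ => by linarith [(h j.succ).2])
        (fun j _ => by linarith [(h j.succ).1])
    have h2 : c 0 * ∏ j : Fin m, (1 - c j.succ) ≤ c 0 := by
      calc c 0 * ∏ j : Fin m, (1 - c j.succ) ≤ c 0 * 1 :=
            mul_le_mul_of_nonneg_left hP1 (h 0).1
        _ = c 0 := mul_one _
    linarith [h2]

end P4a177o
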