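import Pool.Agent.Lib.P4a177o.CrvB
import Pool.Agent.Lib.P4a177o.ProdO

/-!
# MODULE P4a177o.GoodO: the square root is defined on the whole torus (est. 1.8 h)

PROOF. Let `v^2 = u^2 / 4^(m+1)`, so `v^2 ≠ 1`, `v^2 > 0`. `PPo ≠ 0` (`gg_ne_zero`), `c = u / PPo ≠ 0`,
`4 / c^2 = 4 PPo^2 / u^2`, `PPo^2 = ∏ gg^2 = ∏ (-4 p_j) = (-4)^m Q = -4^m Q` (`m` odd), where
`p_j = -gg (θ_j)^2 / 4` and `Q = ∏ p_j`. So `1 + 4 / c^2 = 1 - Q / v^2`.
Suppose that `(1 + 4/c^2) (1 + i)` is not in the slit plane. It is then a real number `-r`, `r ≥ 0`,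
and `1 - Q/v^2 = -r / (1 + i) = -(r/2) (1 - i)`, i.e. (with `ρ = v^2 r / 2 ≥ 0`):
`re Q = v^2 + ρ`, `im Q = -ρ`.
By `prod_approx` (with `C = 3`, `s_j = sin^2 θ_j`, `b_j = 2 cos^2 θ_j`; `gg_sq_approx`):
`‖Q - S (1 + i ε B)‖ ≤ K ε^2`, `S = ∏ sin^2 θ_j`, `B = ∑ 2 cos^2 θ_j ≥ 0`. Hence
`-ρ = im Q ≥ ε S B - K ε^2`, so `ρ ≤ K ε^2` and `S B ≤ K ε`; and
`|v^2 + ρ - S| ≤ K ε^2`, so `|v^2 - S| ≤ 2 K ε^2`. By `one_sub_prod_le` (`c_j = cos^2 θ_j`)
`1 - S ≤ ∑ cos^2 θ_j = B / 2`. So `2 S (1 - S) ≤ S B ≤ K ε` (`0 ≤ S ≤ 1`).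
If `v^2 > 1`: `v^2 - 1 ≤ v^2 - S ≤ 2 K ε^2 ≤ 2 K ε`: impossible if `ε < (v^2 - 1) / (2K)`.
If `v^2 < 1`: if `2 K ε^2 ≤ 2 K ε ≤ min (v^2/2) ((1 - v^2)/2)` then `S ≥ v^2/2` and
`1 - S ≥ (1 - v^2)/2`, so `v^2 (1 - v^2) / 2 ≤ K ε`: impossible if
`ε < v^2 (1 - v^2) / (2K)`. So `ε0 = min (1/10) (...)` will do.
-/

set_option autoImplicit false

namespace P4a177o

open P4a177h P4a177t Function MeasureTheory Filter Topology
open scoped Real

namespace GoodOAux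

theorem core {V S B ρ K ε : ℝ} (hV : 0 < V) (hK : 0 < K) (hε : 0 < ε)
    (hε1 : ε ≤ 1) (hS0 : 0 ≤ S) (hS1 : S ≤ 1) (hB : 1 - S ≤ B / 2) (hρ : 0 ≤ ρ)
    (h1 : |V + ρ - S| ≤ K * ε ^ 2) (h2 : |-ρ - S * (ε * B)| ≤ K * ε ^ 2) :
    |V - 1| * min V 1 ≤ 4 * (K * ε) := by
  have hB0 : 0 ≤ B := by linarith
  have hKε : 0 < K * ε := mul_pos hK hε
  have hε2 : K * ε ^ 2 ≤ K * ε := by
    have : ε ^ 2 ≤ ε := by
      rw [sq]
      exact mul_le_of_le_one_left hε.le hε1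
    exact mul_le_mul_of_nonneg_left this hK.le
  have hSB : 0 ≤ S * B := mul_nonneg hS0 hB0
  have hSeB : 0 ≤ S * (ε * B) := mul_nonneg hS0 (mul_nonneg hε.le hB0)
  obtain ⟨h1a, h1b⟩ := abs_le.1 h1
  obtain ⟨h2a, h2b⟩ := abs_le.1 h2
  have hSBK : S * B ≤ K * ε := by
    have h3 : ε * (S * B) ≤ ε * (K * ε) := by
      calc ε * (S * B) = S * (ε * B) := by ring
        _ ≤ K * ε ^ 2 := by linarith
        _ = ε * (K * ε) := by ring
    exact le_of_mul_le_mul_left h3 hε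
  rcases le_or_gt 1 V with hV1 | hV1
  · rw [min_eq_right hV1, mul_one, abs_of_nonneg (by linarith)]
    linarith
  · rw [min_eq_left hV1.le, abs_of_neg (by linarith)]
    by_contra hcon
    rw [not_le] at hcon
    have hc0 : 4 * (K * ε) < V * (1 - V) := by
      calc 4 * (K * ε) < -(V - 1) * V := hcon
        _ = V * (1 - V) := by ring
    have hc1 : V * (1 - V) ≤ V := mul_le_of_le_one_right hV.le (by linarith)
    have hc2 : V * (1 - V) ≤ 1 - V := mul_le_of_le_one_left (by linarith) hV1.le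
    have hS2 : V / 2 ≤ S := by linarith
    have hS3 : (1 - V) / 2 ≤ 1 - S := by linarith
    have h5 : V / 2 * ((1 - V) / 2) ≤ S * (1 - S) :=
      mul_le_mul hS2 hS3 (by linarith) hS0
    have h6 : S * (1 - S) ≤ S * (B / 2) := mul_le_mul_of_nonneg_left hB hS0
    have h7 : V / 2 * ((1 - V) / 2) = V * (1 - V) / 4 := by ring
    have h8 : S * (B / 2) = S * B / 2 := by ring
    linarith

theorem prod_p {m : ℕ} (hm : Odd m) (ε : ℝ) (θ : Fin m → ℝ) :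
    PPo ε θ ^ 2 = -(4 ^ m * ∏ j, (-(gg ε (θ j)) ^ 2 / 4)) := by
  have h1 : ∏ j : Fin m, (-(gg ε (θ j)) ^ 2 / 4) = (-1 / 4 : ℂ) ^ m * PPo ε θ ^ 2 := by
    unfold PPo
    rw [← Finset.prod_pow]
    have h2 : (-1 / 4 : ℂ) ^ m = ∏ _j : Fin m, (-1 / 4 : ℂ) := by
      rw [Finset.prod_const, Finset.card_univ, Fintype.card_fin]
    rw [h2, ← Finset.prod_mul_distrib]
    apply Finset.prod_congr rfl
    intro j _
    ring
  rw [h1, div_pow, hm.neg_one_pow]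
  have h4 : (4 : ℂ) ^ m ≠ 0 := pow_ne_zero _ (by norm_num)
  field_simp

theorem slit {w : ℂ} (h : w * (1 + Complex.I) ∉ Complex.slitPlane) :
    w.im = -w.re ∧ w.re ≤ 0 := by
  rw [Complex.mem_slitPlane_iff, not_or, not_lt, not_not] at h
  obtain ⟨h1, h2⟩ := h
  simp only [Complex.mul_re, Complex.mul_im, Complex.add_re, Complex.add_im, Complex.one_re,
    Complex.one_im, Complex.I_re, Complex.I_im] at h1 h2
  constructor <;> linarith

end GoodOAux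

open GoodOAux

theorem PPo_ne_zero {m : ℕ} {ε : ℝ} (h0 : 0 < ε) (θ : Fin m → ℝ) : PPo ε θ ≠ 0 :=
  Finset.prod_ne_zero_iff.2 fun j _ => gg_ne_zero h0 (θ j)

theorem good_cco {m : ℕ} (hm : Odd m) {u : ℤ} (hu : u ≠ 0) (hu2 : |(u : ℝ)| ≠ 2 ^ (m + 1)) :
    ∃ ε0 : ℝ, 0 < ε0 ∧ ε0 ≤ 1 / 10 ∧
      ∀ ε : ℝ, 0 < ε → ε < ε0 → ∀ θ : Fin m → ℝ, Goodo (cco u ε θ) := by
  obtain ⟨K, hK, happ⟩ := prod_approx m 3 (by norm_num)
  have hu' : (u : ℝ) ≠ 0 := by exact_mod_cast hu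
  set V : ℝ := (u : ℝ) ^ 2 / 4 ^ (m + 1) with hVdef
  have h4 : (0 : ℝ) < 4 ^ (m + 1) := by positivity
  have hV : 0 < V := by positivity
  have hV1 : V ≠ 1 := by
    intro h
    apply hu2
    rw [hVdef, div_eq_one_iff_eq h4.ne'] at h
    have h5 : (4 : ℝ) ^ (m + 1) = (2 ^ (m + 1)) ^ 2 := by
      rw [← pow_mul, mul_comm (m + 1) 2, pow_mul]
      norm_num
    rw [h5, ← sq_abs] at h
    exact (pow_left_inj₀ (abs_nonneg _) (by positivity) (by norm_num)).1 h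
  have hδ : 0 < |V - 1| * min V 1 :=
    mul_pos (abs_pos.2 (sub_ne_zero.2 hV1)) (lt_min hV one_pos)
  refine ⟨min (1 / 10) (|V - 1| * min V 1 / (4 * K)), lt_min (by norm_num) (by positivity),
    min_le_left _ _, ?_⟩
  intro ε hε hε0 θ
  have hε1 : ε < 1 / 10 := hε0.trans_le (min_le_left _ _)
  have hε2 : ε < |V - 1| * min V 1 / (4 * K) := hε0.trans_le (min_le_right _ _)
  rw [lt_div_iff₀ (by positivity)] at hε2
  have huC : (u : ℂ) ≠ 0 := by exact_mod_cast hu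
  refine ⟨div_ne_zero huC (PPo_ne_zero hε θ), ?_⟩
  by_contra hcon
  obtain ⟨him, hre⟩ := slit hcon
  set Q : ℂ := ∏ j, (-(gg ε (θ j)) ^ 2 / 4) with hQ
  have hw : 1 + 4 / cco u ε θ ^ 2 = 1 - Q / (V : ℂ) := by
    unfold cco
    rw [div_pow, div_div_eq_mul_div, prod_p hm ε θ, ← hQ, hVdef]
    push_cast
    rw [pow_succ (4 : ℂ) m]
    have h4m : (4 : ℂ) ^ m ≠ 0 := pow_ne_zero _ (by norm_num)
    field_simp
    ring
  rw [hw] at him hre
  have hVC : (V : ℂ) ≠ 0 := by exact_mod_cast hV.ne'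
  have hqre : (Q / (V : ℂ)).re = Q.re / V := Complex.div_ofReal_re Q V
  have hqim : (Q / (V : ℂ)).im = Q.im / V := Complex.div_ofReal_im Q V
  rw [Complex.sub_re, Complex.sub_im, hqre, hqim, Complex.one_re, Complex.one_im] at him
  rw [Complex.sub_re, hqre, Complex.one_re] at hre
  -- him : 0 - Q.im / V = -(1 - Q.re / V), hre : 1 - Q.re / V ≤ 0
  have hQim : Q.im = -(Q.re - V) := by
    have h5 : Q.im / V = 1 - Q.re / V := by linarith
    rw [div_eq_iff hV.ne', sub_mul, div_mul_cancel₀ _ hV.ne', one_mul] at h5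
    linarith
  have hQre : V ≤ Q.re := by
    have h5 : 1 ≤ Q.re / V := by linarith
    rwa [le_div_iff₀ hV, one_mul] at h5
  have hgg := happ ε hε (by linarith) (fun j => -(gg ε (θ j)) ^ 2 / 4)
    (fun j => Real.sin (θ j) ^ 2) (fun j => 2 * Real.cos (θ j) ^ 2)
    (fun j => ⟨sq_nonneg _, Real.sin_sq_le_one _⟩)
    (fun j => ⟨by positivity, by have := Real.cos_sq_le_one (θ j); linarith⟩)
    (fun j => gg_sq_approx hε hε1.le (θ j))
  rw [← hQ] at hgg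
  set S : ℝ := ∏ j, Real.sin (θ j) ^ 2 with hS
  set B : ℝ := ∑ j, 2 * Real.cos (θ j) ^ 2 with hB
  have hS0 : 0 ≤ S := Finset.prod_nonneg fun j _ => sq_nonneg _
  have hS1 : S ≤ 1 := Finset.prod_le_one (fun j _ => sq_nonneg _) fun j _ => Real.sin_sq_le_one _
  have hSB : 1 - S ≤ B / 2 := by
    have h5 := one_sub_prod_le (fun j => Real.cos (θ j) ^ 2)
      (fun j => ⟨sq_nonneg _, Real.cos_sq_le_one _⟩)
    have h6 : ∏ j, (1 - Real.cos (θ j) ^ 2) = S := by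
      apply Finset.prod_congr rfl
      intro j _
      rw [Real.sin_sq]
    have h7 : ∑ j, Real.cos (θ j) ^ 2 = B / 2 := by
      rw [hB, Finset.sum_div]
      apply Finset.sum_congr rfl
      intro j _
      ring
    rw [h6, h7] at h5
    exact h5
  have hdre : (Q - (S : ℂ) * (1 + ((ε * B : ℝ) : ℂ) * Complex.I)).re = V + (Q.re - V) - S := by
    rw [Complex.sub_re, Complex.re_ofReal_mul, Complex.add_re, Complex.re_ofReal_mul]
    simp
  have hdim : (Q - (S : ℂ) * (1 + ((ε * B : ℝ) : ℂ) * Complex.I)).im =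
      -(Q.re - V) - S * (ε * B) := by
    rw [Complex.sub_im, Complex.im_ofReal_mul, Complex.add_im, Complex.im_ofReal_mul, hQim]
    simp
  have h1 := (Complex.abs_re_le_norm _).trans hgg
  have h2 := (Complex.abs_im_le_norm _).trans hgg
  rw [hdre] at h1
  rw [hdim] at h2
  have h3 := core hV hK hε (by linarith) hS0 hS1 hSB (by linarith) h1 h2
  have h5 : ε * (4 * K) = 4 * (K * ε) := by ring
  linarith

end P4a177o
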