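import Pool.Agent.Lib.P4a177t.LogInt

/-!
# MODULE P4a177o.NullO: the level sets of `SS` are null sets

`ℝ^(n+1) = ℝ × ℝ^n`; for fixed `θ'` the set of the `t` with `|sin t| * SS θ' = v` is contained in a set
`{t | cos (2 t) = y}`, which is countable.
-/

set_option autoImplicit false

namespace P4a177o

open P4a177h P4a177t Function MeasureTheory
open scoped Real

namespace NullOAux

theorem countable_cos (y : ℝ) : Set.Countable {t : ℝ | Real.cos (2 * t) = y} := by
  by_cases hne : ∃ t0 : ℝ, Real.cos (2 * t0) = y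
  · obtain ⟨t0, rfl⟩ := hne
    refine Set.Countable.mono ?_ ((Set.countable_range (fun k : ℤ => (k : ℝ) * π + t0)).union
      (Set.countable_range (fun k : ℤ => (k : ℝ) * π - t0)))
    intro t ht
    have ht' : Real.cos (2 * t0) = Real.cos (2 * t) := ht.symm
    rw [Real.cos_eq_cos_iff] at ht'
    obtain ⟨k, hk | hk⟩ := ht'
    · left
      refine ⟨k, ?_⟩
      simp only
      linarith
    · right
      refine ⟨k, ?_⟩
      simp only
      linarith
  · push Not at hne
    have : {t : ℝ | Real.cos (2 * t) = y} = ∅ := by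
      ext t
      simp only [Set.mem_ofPred_eq, Set.mem_empty_iff_false, iff_false]
      exact hne t
    rw [this]
    exact Set.countable_empty

theorem null_fiber {v S : ℝ} (hv : 0 < v) : volume {t : ℝ | |Real.sin t| * S = v} = 0 := by
  by_cases hS : S = 0
  · subst hS
    have : {t : ℝ | |Real.sin t| * 0 = v} = ∅ := by
      ext t
      simp only [mul_zero, Set.mem_ofPred_eq, Set.mem_empty_iff_false, iff_false]
      exact hv.ne
    rw [this]
    exact measure_empty
  · refine Set.Countable.measure_zero ((countable_cos (1 - 2 * (v / S) ^ 2)).mono ?_) _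
    intro t ht
    have ht' : |Real.sin t| * S = v := ht
    have h1 : |Real.sin t| = v / S := by
      rw [eq_div_iff hS]
      exact ht'
    show Real.cos (2 * t) = 1 - 2 * (v / S) ^ 2
    rw [← h1, sq_abs, Real.cos_two_mul, Real.cos_sq']
    ring

end NullOAux

open NullOAux

theorem ae_SS_ne {m : ℕ} (hm : 1 ≤ m) {v : ℝ} (hv : 0 < v) :
    ∀ᵐ θ ∂(volume.restrict (box m) : Measure (Fin m → ℝ)), SS θ ≠ v := by
  obtain ⟨n, rfl⟩ : ∃ n, m = n + 1 := ⟨m - 1, by omega⟩
  refine ae_restrict_of_ae ?_
  rw [ae_iff]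
  simp only [not_not]
  have hmeas : MeasurableSet {θ : Fin (n + 1) → ℝ | SS θ = v} :=
    (measurable_SS (n + 1)) (measurableSet_singleton v)
  have hmp := MeasureTheory.volume_preserving_piFinSuccAbove (fun _ : Fin (n + 1) => ℝ) 0
  have hset : {θ : Fin (n + 1) → ℝ | SS θ = v} =
      (MeasurableEquiv.piFinSuccAbove (fun _ : Fin (n + 1) => ℝ) 0) ⁻¹'
        {p : ℝ × (Fin n → ℝ) | |Real.sin p.1| * SS p.2 = v} := by
    ext θ
    simp only [Set.mem_ofPred_eq, Set.mem_preimage]
    have e : SS θ = |Real.sin ((MeasurableEquiv.piFinSuccAbove (fun _ : Fin (n + 1) => ℝ) 0) θ).1| *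
        SS ((MeasurableEquiv.piFinSuccAbove (fun _ : Fin (n + 1) => ℝ) 0) θ).2 := by
      unfold SS
      rw [Fin.prod_univ_succ]
      rfl
    rw [e]
  have hmeas2 : MeasurableSet {p : ℝ × (Fin n → ℝ) | |Real.sin p.1| * SS p.2 = v} := by
    have : Measurable (fun p : ℝ × (Fin n → ℝ) => |Real.sin p.1| * SS p.2) := by
      have h1 : Measurable (fun p : ℝ × (Fin n → ℝ) => |Real.sin p.1|) := by fun_prop
      exact h1.mul ((measurable_SS n).comp measurable_snd)
    exact this (measurableSet_singleton v)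
  rw [hset, hmp.measure_preimage hmeas2.nullMeasurableSet]
  change (volume.prod volume) {p : ℝ × (Fin n → ℝ) | |Real.sin p.1| * SS p.2 = v} = 0
  rw [Measure.prod_apply_symm hmeas2]
  rw [lintegral_eq_zero_iff (measurable_measure_prodMk_right hmeas2)]
  refine Filter.Eventually.of_forall fun θ' => ?_
  exact null_fiber (S := SS θ') hv

end P4a177o
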