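import Pool.Agent.Lib.P4a177o.CrvB

/-!
# MODULE P4a177o.CcO: the quotient `cco` (est. 0.8 h)

PROOF. As in `Lib/P4a177t/Circ.lean` (`norm_cc_le`, `tendsto_cc`) and `Lib/P4a177t/Lim2.lean`
(`two_pow_div`, `cc_continuous`). `‖PPo ε θ‖ = ∏ ‖gg‖ ≥ ∏ 2 |sin θ_j| = 2^m SS θ` (`le_norm_gg`).
`tendsto_cco`: `PPo ε θ → ∏ (2 i sin θ_j) = (2 i)^m ∏ sin θ_j` (`tendsto_gg`,
`tendsto_finsetProd`); `m = 2 n + 1`, `(2 i)^m = 2^m (-1)^n i`; so `cco → u / (2^m (-1)^n s i) = τ i`,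
`τ = -u (-1)^n / (2^m s)`, `s = ∏ sin θ_j`, `|s| = SS θ`.
-/

set_option autoImplicit false

namespace P4a177o

open P4a177h P4a177t Function MeasureTheory Filter Topology
open scoped Real

namespace CcOAux

theorem PPo_ne_zero {m : ℕ} {ε : ℝ} (h0 : 0 < ε) (θ : Fin m → ℝ) : PPo ε θ ≠ 0 :=
  Finset.prod_ne_zero_iff.mpr fun j _ => gg_ne_zero h0 (θ j)

theorem PPo_continuous {m : ℕ} (ε : ℝ) : Continuous fun θ : Fin m → ℝ => PPo ε θ := by
  unfold PPo
  exact continuous_finsetProd _ fun j _ => (gg_continuous ε).comp (continuous_apply j)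

theorem gg_contDiff (ε : ℝ) : ContDiff ℝ 2 (gg ε) := by
  unfold gg
  exact (crv_contDiff ε).sub ((crv_contDiff ε).inv (crv_ne_zero ε))

theorem PPo_contDiff {m : ℕ} (ε : ℝ) : ContDiff ℝ 2 fun θ : Fin m → ℝ => PPo ε θ := by
  unfold PPo
  exact contDiff_prod fun j _ => (gg_contDiff ε).comp (contDiff_apply ℝ ℝ j)

theorem gg_periodic (ε t : ℝ) : gg ε (t + 2 * π) = gg ε t := by
  unfold gg
  rw [crv_periodic]

theorem le_norm_PPo {m : ℕ} (ε : ℝ) (θ : Fin m → ℝ) : 2 ^ m * SS θ ≤ ‖PPo ε θ‖ := by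
  unfold PPo SS
  rw [norm_prod]
  calc (2 : ℝ) ^ m * ∏ j, |Real.sin (θ j)| = ∏ j, (2 * |Real.sin (θ j)|) := by
        rw [Finset.prod_mul_distrib, Finset.prod_const, Finset.card_univ, Fintype.card_fin]
    _ ≤ ∏ j, ‖gg ε (θ j)‖ :=
        Finset.prod_le_prod (fun _ _ => by positivity) fun j _ => le_norm_gg ε (θ j)

end CcOAux

open CcOAux

theorem cco_continuous {m : ℕ} (u : ℤ) {ε : ℝ} (h0 : 0 < ε) :
    Continuous fun θ : Fin m → ℝ => cco u ε θ := by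
  unfold cco
  exact continuous_const.div (PPo_continuous ε) (PPo_ne_zero h0)

theorem cco_contDiff {m : ℕ} (u : ℤ) {ε : ℝ} (h0 : 0 < ε) :
    ContDiff ℝ 2 fun θ : Fin m → ℝ => cco u ε θ := by
  unfold cco
  simp_rw [div_eq_mul_inv]
  exact contDiff_const.mul ((PPo_contDiff ε).inv (PPo_ne_zero h0))

theorem cco_periodic {m : ℕ} (u : ℤ) (ε : ℝ) (θ : Fin m → ℝ) (l : Fin m) :
    cco u ε (update θ l (θ l + 2 * π)) = cco u ε θ := by
  unfold cco PPo
  congr 1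
  refine Finset.prod_congr rfl fun j _ => ?_
  by_cases hj : j = l
  · subst hj
    rw [update_self, gg_periodic]
  · rw [update_of_ne hj]

theorem norm_cco_le {m : ℕ} (u : ℤ) {ε : ℝ} (h0 : 0 < ε) (θ : Fin m → ℝ)
    (hθ : 0 < SS θ) : ‖cco u ε θ‖ ≤ |(u : ℝ)| / (2 ^ m * SS θ) := by
  unfold cco
  rw [norm_div, Complex.norm_intCast]
  exact div_le_div_of_nonneg_left (abs_nonneg _) (by positivity) (le_norm_PPo ε θ)

theorem prod_two_div {m : ℕ} {u : ℤ} (hu : u ≠ 0) (ε : ℝ) (θ : Fin m → ℝ) :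
    ∏ j, (2 / gg ε (θ j)) = 2 ^ m / (u : ℂ) * cco u ε θ := by
  have hu' : (u : ℂ) ≠ 0 := by exact_mod_cast hu
  unfold cco PPo
  rw [Finset.prod_div_distrib, Finset.prod_const, Finset.card_univ, Fintype.card_fin]
  field_simp

theorem tendsto_cco {m : ℕ} (hm : Odd m) {u : ℤ} (hu : u ≠ 0) (θ : Fin m → ℝ) (hθ : 0 < SS θ) :
    ∃ τ : ℝ, τ ≠ 0 ∧ |τ| = |(u : ℝ)| / (2 ^ m * SS θ) ∧
      Tendsto (fun ε => cco u ε θ) (𝓝[>] 0) (𝓝 ((τ : ℂ) * Complex.I)) := by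
  obtain ⟨n, hn⟩ := hm
  have huR : (u : ℝ) ≠ 0 := by exact_mod_cast hu
  set s : ℝ := ∏ j, Real.sin (θ j) with hs
  have hS : |s| = SS θ := by
    rw [hs, Finset.abs_prod]
    rfl
  have hs0 : s ≠ 0 := by
    intro h
    rw [h, abs_zero] at hS
    linarith
  refine ⟨-((u : ℝ) * (-1) ^ n) / (2 ^ m * s), ?_, ?_, ?_⟩
  · apply div_ne_zero
    · apply neg_ne_zero.mpr
      exact mul_ne_zero huR (pow_ne_zero _ (by norm_num))
    · exact mul_ne_zero (by positivity) hs0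
  · rw [abs_div, abs_neg, abs_mul, abs_pow, abs_neg, abs_one, one_pow, mul_one, abs_mul, hS,
      abs_of_pos (show (0 : ℝ) < 2 ^ m by positivity)]
  · have h1 : Tendsto (fun ε => PPo ε θ) (𝓝[>] 0)
        (𝓝 (∏ j, (((2 * Real.sin (θ j) : ℝ) : ℂ) * Complex.I))) := by
      unfold PPo
      exact tendsto_finsetProd _ fun j _ => tendsto_gg (θ j)
    have h2 : (∏ j, (((2 * Real.sin (θ j) : ℝ) : ℂ) * Complex.I)) =
        ((2 ^ m * (-1) ^ n * s : ℝ) : ℂ) * Complex.I := by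
      rw [Finset.prod_mul_distrib, Finset.prod_const, Finset.card_univ, Fintype.card_fin]
      have e1 : Complex.I ^ m = (-1) ^ n * Complex.I := by
        rw [hn, pow_succ, pow_mul, Complex.I_sq]
      rw [e1]
      push_cast
      rw [Finset.prod_mul_distrib, Finset.prod_const, Finset.card_univ, Fintype.card_fin, hs]
      push_cast
      ring
    rw [h2] at h1
    have hne : ((2 ^ m * (-1) ^ n * s : ℝ) : ℂ) * Complex.I ≠ 0 := by
      apply mul_ne_zero _ Complex.I_ne_zero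
      have hr : (2 : ℝ) ^ m * (-1) ^ n * s ≠ 0 :=
        mul_ne_zero (mul_ne_zero (by positivity) (pow_ne_zero _ (by norm_num))) hs0
      exact Complex.ofReal_ne_zero.2 hr
    have h3 := (tendsto_const_nhds (x := (u : ℂ))).div h1 hne
    have h4 : (u : ℂ) / (((2 ^ m * (-1) ^ n * s : ℝ) : ℂ) * Complex.I) =
        ((-((u : ℝ) * (-1) ^ n) / (2 ^ m * s) : ℝ) : ℂ) * Complex.I := by
      rw [div_eq_iff hne]
      have hsC : (s : ℂ) ≠ 0 := by exact_mod_cast hs0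
      have e2 : ((-1 : ℂ) ^ n) * (-1) ^ n = 1 := by
        rw [← mul_pow]
        norm_num
      push_cast
      field_simp
      rw [Complex.I_sq]
      linear_combination (-1 : ℂ) * e2
    rw [h4] at h3
    exact h3

end P4a177o
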