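import Pool.Agent.Lib.P4a177o.RootAO
import Pool.Agent.Lib.P4a177t.RootC

/-!
# MODULE P4a177o.RootCO: bounds for `rto` and `LLo` (est. 1.2 h)

PROOF.
* `abs_log_norm_rto_le`: `x = rto c`, `x - 1/x = c`. If `‖x‖ ≥ 1`: `‖x‖ ≤ ‖c‖ + ‖1/x‖ ≤ ‖c‖ + 1`.
  If `‖x‖ < 1`: `‖1/x‖ ≤ ‖c‖ + ‖x‖ ≤ ‖c‖ + 1` and `log ‖1/x‖ = -log ‖x‖`.
* `norm_mul_LLo_le`: (A) `‖c‖ ≤ 3`. `q = (x-1)/(x+1)`, `q - 1/q = -4/c` (compute, as in
  `P4a177t.RootCAux.q_sub_inv`), so `|log ‖q‖| ≤ 4 / ‖c‖` (`P4a177t.RootCAux.abs_log_norm`), `|arg q| ≤ π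
  ≤ 4`, so `‖c‖ ‖LLo c‖ ≤ 4 + 4 ‖c‖ ≤ 16`. (B) `‖c‖ > 3`: `‖4/c^2‖ < 1/2`, so `z = 1 + 4/c^2` has a
  positive real part, `arg z ∈ (-π/2, π/2)`, and `log (z (1 + i)) = log z + log (1 + i)`
  (`Complex.log_mul`: `arg z + π/4 ∈ (-π, π]`), so `srt c = exp (log z / 2)` and
  `rto c = P4a177t.root c`, `LLo c = P4a177t.LL c`, `P4a177t.Good c`; use `P4a177t.norm_mul_LL_le`.
* `abs_im_BBo_le`: `im (log .) = arg`, `Complex.abs_arg_le_pi`.
-/

set_option autoImplicit false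

namespace P4a177o

open P4a177h P4a177t Function MeasureTheory
open scoped Real

theorem abs_log_norm_rto_le {c : ℂ} (h : Goodo c) :
    |Real.log ‖rto c‖| ≤ Real.log (1 + ‖c‖) := by
  have h0 := rto_ne_zero h
  have h1 := rto_sub_inv h
  have hpos : 0 < ‖rto c‖ := norm_pos_iff.2 h0
  have hc0 : 0 ≤ ‖c‖ := norm_nonneg c
  rcases le_or_gt 1 ‖rto c‖ with hx | hx
  · rw [abs_of_nonneg (Real.log_nonneg hx)]
    apply Real.log_le_log hpos
    have h2 : ‖(rto c)⁻¹‖ ≤ 1 := by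
      rw [norm_inv]
      exact inv_le_one_of_one_le₀ hx
    have h3 : rto c = c + (rto c)⁻¹ := by linear_combination h1
    calc ‖rto c‖ = ‖c + (rto c)⁻¹‖ := by rw [← h3]
      _ ≤ ‖c‖ + ‖(rto c)⁻¹‖ := norm_add_le _ _
      _ ≤ 1 + ‖c‖ := by linarith
  · rw [abs_of_nonpos (Real.log_nonpos hpos.le hx.le), ← Real.log_inv]
    apply Real.log_le_log (inv_pos.2 hpos)
    rw [← norm_inv]
    have h3 : (rto c)⁻¹ = rto c - c := by linear_combination -h1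
    calc ‖(rto c)⁻¹‖ = ‖rto c - c‖ := by rw [h3]
      _ ≤ ‖rto c‖ + ‖c‖ := norm_sub_le _ _
      _ ≤ 1 + ‖c‖ := by linarith

namespace RootCOAux

theorem q_sub_inv {c z : ℂ} (hc : c ≠ 0) (h0 : z ≠ 0) (h1 : z + 1 ≠ 0) (h2 : z - 1 ≠ 0)
    (hzc : z - z⁻¹ = c) :
    (z - 1) / (z + 1) - ((z - 1) / (z + 1))⁻¹ = -4 / c := by
  rw [eq_div_iff hc, ← hzc]
  field_simp
  ring

/-- far from `0` the function `rto` is `P4a177t.root` -/
theorem eq_root {c : ℂ} (h : Goodo c) (hc : 3 < ‖c‖) : P4a177t.Good c ∧ rto c = root c := by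
  have hre : 0 < (1 + 4 / c ^ 2).re := by
    have h1 : ‖(4 : ℂ) / c ^ 2‖ ≤ 4 / 9 := by
      rw [norm_div, norm_pow]
      simp only [Complex.norm_ofNat]
      rw [div_le_div_iff₀ (by positivity) (by norm_num)]
      nlinarith
    have h2 := (Complex.abs_re_le_norm ((4 : ℂ) / c ^ 2)).trans h1
    rw [Complex.add_re, Complex.one_re]
    have h3 := (abs_le.1 h2).1
    linarith
  have hz0 : (1 + 4 / c ^ 2 : ℂ) ≠ 0 := by
    intro h'
    rw [h'] at hre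
    simp at hre
  have hI0 : (1 + Complex.I : ℂ) ≠ 0 := by
    intro h'
    have := congrArg Complex.re h'
    simp at this
  have harg := Complex.abs_arg_lt_pi_div_two_iff.2 (Or.inl hre)
  have hpi := Real.pi_pos
  have hlog : Complex.log ((1 + 4 / c ^ 2) * (1 + Complex.I)) =
      Complex.log (1 + 4 / c ^ 2) + Complex.log (1 + Complex.I) := by
    apply Complex.log_mul hz0 hI0
    rw [arg_one_add_I]
    have h1 := (abs_lt.1 harg).1
    have h2 := (abs_lt.1 harg).2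
    constructor <;> linarith
  refine ⟨⟨h.1, Or.inl hre⟩, ?_⟩
  unfold rto root srt
  rw [hlog, add_sub_cancel_right]

end RootCOAux

theorem norm_mul_LLo_le {c : ℂ} (h : Goodo c) : ‖c * LLo c‖ ≤ 50 := by
  have hc : c ≠ 0 := h.1
  have hcpos : 0 < ‖c‖ := norm_pos_iff.2 hc
  rcases le_or_gt ‖c‖ 3 with h3 | h3
  · have hq0 : (rto c - 1) / (rto c + 1) ≠ 0 := div_ne_zero (rto_sub_one h) (rto_add_one h)
    have hqq := RootCOAux.q_sub_inv hc (rto_ne_zero h) (rto_add_one h) (rto_sub_one h)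
      (rto_sub_inv h)
    have h1 : |Real.log ‖(rto c - 1) / (rto c + 1)‖| ≤ 4 / ‖c‖ := by
      apply P4a177t.RootCAux.abs_log_norm hq0
      rw [hqq, norm_div]
      simp
    have h2 : ‖LLo c‖ ≤ 4 / ‖c‖ + 4 := by
      refine (Complex.norm_le_abs_re_add_abs_im _).trans ?_
      rw [LLo, Complex.log_re, Complex.log_im]
      have := Complex.abs_arg_le_pi ((rto c - 1) / (rto c + 1))
      have hpi := Real.pi_le_four
      linarith
    rw [norm_mul]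
    calc ‖c‖ * ‖LLo c‖ ≤ ‖c‖ * (4 / ‖c‖ + 4) := by gcongr
      _ = 4 + 4 * ‖c‖ := by field_simp
      _ ≤ 50 := by linarith
  · obtain ⟨hg, he⟩ := RootCOAux.eq_root h h3
    have hL : LLo c = LL c := by
      unfold LLo LL
      rw [he]
    rw [hL]
    exact norm_mul_LL_le hg

theorem abs_im_BBo_le (c : ℂ) : |(BBo c).im| ≤ 4 := by
  rw [BBo, Complex.log_im]
  exact (Complex.abs_arg_le_pi _).trans Real.pi_le_four

end P4a177o
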