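import Pool.Agent.Lib.P4a177o.GoodO
import Pool.Agent.Lib.P4a177o.CcO
import Pool.Agent.Lib.P4a177o.RootCO
import Pool.Agent.Lib.P4a177t.LogInt

/-!
# MODULE P4a177o.Lim1b: the error terms (est. 1 h)

PROOF. Dominated convergence for the filter `𝓝[>] 0`, `volume.restrict (box m)`, with a constant
bound. Let `ε0` be as in `good_cco`; eventually `0 < ε < ε0 ≤ 1/10`. For those `ε`:
`|aa (lg).re| ≤ 3` (`abs_aa_mul_lg_le`), `|da| |im BBo| ≤ 4` (`abs_da_le`, `abs_im_BBo_le`),
`|re ∏ tf| ≤ 2^m` (`norm_tf_le`; the product of at most `m` factors of absolute value at most `2`).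
Pointwise: for almost all `θ` (`P4a177t.ae_SS`; `0 < SS θ` implies `sin (θ k) ≠ 0`)
`aa (lg).re → 0` (`tendsto_aa_mul_lg`) and `da → 0` (`tendsto_da`) while the other factors are
bounded (`squeeze_zero_norm`, or `Tendsto` times bounded). Measurability: continuity of the integrand
for `0 < ε < ε0` (`lg_continuous`, `BBo_continuousAt` with `good_cco`, `cco_continuous`,
`tf_continuous`, `aa_continuous`, `da_continuous`).
-/

set_option autoImplicit false

namespace P4a177o

open P4a177h P4a177t Function MeasureTheory Filter Topology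
open scoped Real

namespace Lim1bAux

theorem cont_prod {m : ℕ} (ε : ℝ) (s : Finset (Fin m)) :
    Continuous (fun θ : Fin m → ℝ => (∏ j ∈ s, tf ε (θ j)).re) := by
  apply Complex.continuous_re.comp
  apply continuous_finsetProd
  intro j _
  exact (tf_continuous ε).comp (continuous_apply j)

theorem abs_prod_le {m : ℕ} {ε : ℝ} (h0 : 0 < ε) (h1 : ε ≤ 1 / 10) (s : Finset (Fin m))
    (θ : Fin m → ℝ) : |(∏ j ∈ s, tf ε (θ j)).re| ≤ 2 ^ m := by
  refine (Complex.abs_re_le_norm _).trans ?_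
  rw [norm_prod]
  calc ∏ j ∈ s, ‖tf ε (θ j)‖ ≤ ∏ _j ∈ s, (2 : ℝ) :=
        Finset.prod_le_prod (fun _ _ => norm_nonneg _) fun j _ => norm_tf_le h0 h1 _
    _ = 2 ^ s.card := by simp
    _ ≤ 2 ^ m := by
        apply pow_le_pow_right₀ (by norm_num)
        calc s.card ≤ (Finset.univ : Finset (Fin m)).card := Finset.card_le_univ s
          _ = m := by simp

theorem tendsto_prod {m : ℕ} (s : Finset (Fin m)) (θ : Fin m → ℝ) :
    Tendsto (fun ε => (∏ j ∈ s, tf ε (θ j)).re) (𝓝[>] 0) (𝓝 1) := by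
  have h1 : Tendsto (fun ε => ∏ j ∈ s, tf ε (θ j)) (𝓝[>] 0) (𝓝 (∏ _j ∈ s, (1 : ℂ))) :=
    tendsto_finsetProd _ fun j _ => tendsto_tf (θ j)
  have h2 := (Complex.continuous_re.tendsto _).comp h1
  have h3 : (∏ _j ∈ s, (1 : ℂ)).re = 1 := by simp
  rw [h3] at h2
  exact h2

end Lim1bAux

open Lim1bAux

theorem tendsto_err {m : ℕ} (hm : Odd m) {u : ℤ} (hu : u ≠ 0)
    (hu2 : |(u : ℝ)| ≠ 2 ^ (m + 1)) (k : Fin m) :
    Tendsto (fun ε : ℝ => ∫ θ in box m,
        (aa ε (θ k) * (lg ε (θ k)).re + da ε (θ k) * (BBo (cco u ε θ)).im) *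
          (∏ j with k < j, tf ε (θ j)).re) (𝓝[>] 0) (𝓝 0) := by
  obtain ⟨ε0, hε0, hε1, hgood⟩ := good_cco hm hu hu2
  have hm1 : 1 ≤ m := hm.pos
  have hev : ∀ᶠ ε in 𝓝[>] (0 : ℝ), 0 < ε ∧ ε < ε0 := Ioo_mem_nhdsGT hε0
  have hz : (0 : ℝ) = ∫ _θ in box m, (0 : ℝ) := by simp
  suffices h : Tendsto (fun ε : ℝ => ∫ θ in box m,
        (aa ε (θ k) * (lg ε (θ k)).re + da ε (θ k) * (BBo (cco u ε θ)).im) *
          (∏ j with k < j, tf ε (θ j)).re) (𝓝[>] 0) (𝓝 (∫ _θ in box m, (0 : ℝ))) by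
    rw [← hz] at h
    exact h
  refine tendsto_integral_filter_of_dominated_convergence
    (fun _ : Fin m → ℝ => (7 : ℝ) * 2 ^ m) ?_ ?_ ?_ ?_
  · filter_upwards [hev] with ε hε
    apply Continuous.aestronglyMeasurable
    have h1 : Continuous (fun θ : Fin m → ℝ => BBo (cco u ε θ)) := by
      rw [continuous_iff_continuousAt]
      intro θ
      exact ContinuousAt.comp (g := BBo) (BBo_continuousAt (hgood ε hε.1 hε.2 θ))
        (cco_continuous u hε.1).continuousAt
    have h2 : Continuous (fun θ : Fin m → ℝ => θ k) := continuous_apply k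
    refine (Continuous.add ?_ ?_).mul (cont_prod ε _)
    · exact ((aa_continuous ε).comp h2).mul (Complex.continuous_re.comp ((lg_continuous hε.1).comp h2))
    · exact ((da_continuous ε).comp h2).mul (Complex.continuous_im.comp h1)
  · filter_upwards [hev] with ε hε
    refine Eventually.of_forall fun θ => ?_
    have hε2 : ε ≤ 1 / 10 := hε.2.le.trans hε1
    have h1 := abs_aa_mul_lg_le hε.1 hε2 (θ k)
    have h2 := abs_da_le hε.1 (θ k)
    have h3 := abs_im_BBo_le (cco u ε θ)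
    rw [norm_mul, Real.norm_eq_abs, Real.norm_eq_abs]
    apply mul_le_mul _ (abs_prod_le hε.1 hε2 _ θ) (abs_nonneg _) (by norm_num)
    refine (abs_add_le _ _).trans ?_
    rw [abs_mul (da ε (θ k))]
    have h4 : |da ε (θ k)| * |(BBo (cco u ε θ)).im| ≤ 1 * 4 :=
      mul_le_mul (by linarith) h3 (abs_nonneg _) zero_le_one
    linarith
  · apply integrableOn_const
    · exact (isCompact_Icc.measure_lt_top (μ := (volume : Measure (Fin m → ℝ)))).ne
    · exact enorm_ne_top
  · filter_upwards [ae_SS hm1] with θ hθ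
    have hs : Real.sin (θ k) ≠ 0 := by
      intro h
      have h0 : SS θ = 0 := by
        unfold SS
        exact Finset.prod_eq_zero (Finset.mem_univ k) (by rw [h, abs_zero])
      linarith [hθ.1]
    have h1 := tendsto_aa_mul_lg (θ k) hs
    have h2 : Tendsto (fun ε => da ε (θ k) * (BBo (cco u ε θ)).im) (𝓝[>] 0) (𝓝 0) := by
      have h3 : Tendsto (fun ε => |da ε (θ k)| * 4) (𝓝[>] 0) (𝓝 0) := by
        have := ((tendsto_da (θ k)).abs).mul_const 4
        simpa using this
      refine squeeze_zero_norm (fun ε => ?_) h3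
      rw [norm_mul, Real.norm_eq_abs, Real.norm_eq_abs]
      exact mul_le_mul_of_nonneg_left (abs_im_BBo_le _) (abs_nonneg _)
    have h3 := (h1.add h2).mul (tendsto_prod (Finset.univ.filter (fun j => k < j)) θ)
    simpa using h3

end P4a177o
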