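import Pool.Agent.Lib.P4a177o.RootAO

/-!
# MODULE P4a177o.RootBO: the values at imaginary numbers (est. 1.8 h)

PROOF. `c = τ i`, `c^2 = -τ^2`, `1 + 4/c^2 = p := 1 - 4/τ^2`, a real number, `≠ 0` as `|τ| ≠ 2`.
`good_imag`: `p (1 + i)` has the imaginary part `p ≠ 0`.
(A) `|τ| > 2`: `0 < p < 1`. `log (p (1 + i)) - log (1 + i) = log p` (`Complex.log_ofReal_mul`), so
`srt c = exp (log p / 2) = √p` (real), `x = rto c = i R`, `R = τ/2 (1 + √p)`. `‖x‖ = |R| = |τ|/2 +
√(τ^2/4 - 1) > 1`, `log ‖x‖ = arcosh (|τ|/2)` (`Real.arcosh` is `log (y + √(y^2 - 1))`), `max 1 (|τ|/2)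
= |τ|/2`. `(x - 1)/(x + 1) = ((R^2 - 1) + 2 i R) / (R^2 + 1)` has the absolute value `1` and a
positive real part, the imaginary part `2 R / (R^2 + 1) = 2/τ` (as `x - 1/x = i (R + 1/R) = i τ`,
`R + 1/R = τ`). So `LLo c = i arcsin (2/τ)` (`Complex.arg_of_re_nonneg`: `arg = arcsin (im / ‖.‖)`),
`re (τ i * LLo c) = -τ arcsin (2/τ) = -|τ| arcsin (2/|τ|)` (`Real.arcsin_neg`).
(B) `|τ| < 2`: `p < 0`, `p (1 + i) = |p| (-1 - i)`, `arg (-1 - i) = -3π/4` (e.g.
`-1 - i = √2 (cos (-3π/4) + i sin (-3π/4))`, `Complex.arg_mul_cos_add_sin_mul_I`), so `log (p (1 + i)) -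
log (1 + i) = log |p| - π i`, `srt c = -i √|p|`, `x = rto c = τ/2 (√|p| + i)`, `‖x‖^2 = τ^2/4 (|p| + 1) = 1`;
`log ‖x‖ = 0 = arcosh 1` (`Real.arcosh_zero`), `max 1 (|τ|/2) = 1`. `(x - 1)/(x + 1) =
(‖x‖^2 - 1 + 2 i im x) / ‖x + 1‖^2 = i τ / ‖x + 1‖^2` is imaginary, so (`Complex.arg` of a real
multiple of `i`) `im (LLo c) = sign τ * π/2`, and `arcsin (2/|τ|) = π/2`
(`Real.arcsin_of_one_le`). So `re (τ i * LLo c) = -τ * im (LLo c) = -|τ| π/2`.
-/

set_option autoImplicit false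

namespace P4a177o

open P4a177h P4a177t Function MeasureTheory
open scoped Real

section aux

/-- the real number `1 + 4 / c ^ 2` for `c = τ i` -/
private noncomputable def pp (τ : ℝ) : ℝ := 1 - 4 / τ ^ 2

private lemma pp_eq (τ : ℝ) : (1 + 4 / ((τ : ℂ) * Complex.I) ^ 2) = ((pp τ : ℝ) : ℂ) := by
  rw [mul_pow, Complex.I_sq, pp]
  push_cast
  ring

private lemma pp_pos {τ : ℝ} (h : 2 < |τ|) : 0 < pp τ := by
  have h1 : 4 < τ ^ 2 := by
    rw [← sq_abs]; nlinarith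
  rw [pp, sub_pos, div_lt_one (by linarith)]
  exact h1

private lemma pp_neg {τ : ℝ} (h0 : τ ≠ 0) (h : |τ| < 2) : pp τ < 0 := by
  have h1 : τ ^ 2 < 4 := by
    rw [← sq_abs]; nlinarith [abs_nonneg τ]
  rw [pp, sub_neg, one_lt_div (by positivity)]
  exact h1

private lemma srt_pos {τ : ℝ} (h : 2 < |τ|) :
    srt ((τ : ℂ) * Complex.I) = ((√(pp τ) : ℝ) : ℂ) := by
  have hp := pp_pos h
  have h1 : (1 + Complex.I) ≠ 0 := by
    intro h; have := congrArg Complex.re h; simp at this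
  rw [srt, pp_eq, Complex.log_ofReal_mul hp h1, add_sub_cancel_right]
  rw [show ((Real.log (pp τ) : ℝ) : ℂ) / 2 = ((Real.log (pp τ) / 2 : ℝ) : ℂ) by push_cast; ring,
    ← Complex.ofReal_exp, Real.exp_half, Real.exp_log hp]

private lemma srt_neg {τ : ℝ} (h0 : τ ≠ 0) (h : |τ| < 2) :
    srt ((τ : ℂ) * Complex.I) = -((√(-pp τ) : ℝ) : ℂ) * Complex.I := by
  have hp := pp_neg h0 h
  have hq : 0 < -pp τ := by linarith
  have h1 : -(1 + Complex.I) ≠ 0 := by
    intro h; have := congrArg Complex.re h; simp at this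
  have h2 : Complex.log (-(1 + Complex.I)) = Complex.log (1 + Complex.I) - π * Complex.I := by
    rw [Complex.log, Complex.log, norm_neg, Complex.arg_neg_eq_arg_sub_pi_of_im_pos (by simp)]
    push_cast
    ring
  rw [srt, pp_eq, show ((pp τ : ℝ) : ℂ) * (1 + Complex.I) = ((-pp τ : ℝ) : ℂ) * (-(1 + Complex.I)) by
    push_cast; ring, Complex.log_ofReal_mul hq h1, h2]
  rw [show (((Real.log (-pp τ) : ℝ) : ℂ) + (Complex.log (1 + Complex.I) - π * Complex.I) -
      Complex.log (1 + Complex.I)) / 2 = ((Real.log (-pp τ) / 2 : ℝ) : ℂ) + -(π / 2 * Complex.I) by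
    push_cast; ring, Complex.exp_add, ← Complex.ofReal_exp, Real.exp_half, Real.exp_log hq,
    Complex.exp_neg, Complex.exp_pi_div_two_mul_I]
  simp

private lemma rto_pos {τ : ℝ} (h : 2 < |τ|) :
    rto ((τ : ℂ) * Complex.I) = ((τ / 2 * (1 + √(pp τ)) : ℝ) : ℂ) * Complex.I := by
  rw [rto, srt_pos h]
  push_cast
  ring

private lemma rto_neg {τ : ℝ} (h0 : τ ≠ 0) (h : |τ| < 2) :
    rto ((τ : ℂ) * Complex.I) = ((τ / 2 * √(-pp τ) : ℝ) : ℂ) + ((τ / 2 : ℝ) : ℂ) * Complex.I := by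
  rw [rto, srt_neg h0 h]
  push_cast
  linear_combination (- (τ : ℂ) / 2 * ((√(-pp τ) : ℝ) : ℂ)) * Complex.I_sq

private lemma sq_add_sq {τ : ℝ} (h0 : τ ≠ 0) (h : |τ| < 2) :
    (τ / 2 * √(-pp τ)) ^ 2 + (τ / 2) ^ 2 = 1 := by
  have hp := pp_neg h0 h
  rw [mul_pow, Real.sq_sqrt (by linarith), pp]
  field_simp
  ring

private lemma RR_sq {τ : ℝ} (h : 2 < |τ|) :
    (τ / 2 * (1 + √(pp τ))) ^ 2 + 1 = τ * (τ / 2 * (1 + √(pp τ))) := by
  have hp := pp_pos h
  have h0 : τ ≠ 0 := by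
    rintro rfl; simp at h; linarith
  have h1 : √(pp τ) ^ 2 = 1 - 4 / τ ^ 2 := by rw [Real.sq_sqrt hp.le, pp]
  have h2 : τ ^ 2 * √(pp τ) ^ 2 = τ ^ 2 - 4 := by rw [h1]; field_simp
  nlinarith [h2]

private lemma abs_RR {τ : ℝ} (h : 2 < |τ|) :
    |τ / 2 * (1 + √(pp τ))| = |τ| / 2 + √((|τ| / 2) ^ 2 - 1) := by
  have hp := pp_pos h
  have h0 : τ ≠ 0 := by
    rintro rfl; simp at h; linarith
  have h1 : √((|τ| / 2) ^ 2 - 1) = |τ| / 2 * √(pp τ) := by
    rw [show (|τ| / 2) ^ 2 - 1 = (|τ| / 2) ^ 2 * pp τ by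
      rw [pp, div_pow, sq_abs]; field_simp; ring, Real.sqrt_mul (by positivity),
      Real.sqrt_sq (by positivity)]
  rw [h1, abs_mul, abs_of_pos (show (0:ℝ) < 1 + √(pp τ) by positivity), abs_div, abs_two]
  ring

end aux

theorem good_imag {τ : ℝ} (h0 : τ ≠ 0) (h2 : |τ| ≠ 2) : Goodo ((τ : ℂ) * Complex.I) := by
  refine ⟨mul_ne_zero (by exact_mod_cast h0) Complex.I_ne_zero, ?_⟩
  rw [pp_eq, Complex.mem_slitPlane_iff]
  right
  have : pp τ ≠ 0 := by
    rcases lt_or_gt_of_ne h2 with h | h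
    · exact (pp_neg h0 h).ne
    · exact (pp_pos h).ne'
  simpa using this

theorem log_norm_rto_imag {τ : ℝ} (h0 : τ ≠ 0) (h2 : |τ| ≠ 2) :
    Real.log ‖rto ((τ : ℂ) * Complex.I)‖ = Real.arcosh (max 1 (|τ| / 2)) := by
  rcases lt_or_gt_of_ne h2 with h | h
  · have h1 : ‖rto ((τ : ℂ) * Complex.I)‖ = 1 := by
      rw [rto_neg h0 h, Complex.norm_add_mul_I, sq_add_sq h0 h, Real.sqrt_one]
    rw [h1, Real.log_one, max_eq_left (by linarith), Real.arcosh_zero]
  · rw [rto_pos h, norm_mul, Complex.norm_I, mul_one, Complex.norm_real, Real.norm_eq_abs, abs_RR h,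
      max_eq_right (by linarith), Real.arcosh]

theorem re_mul_LLo_imag {τ : ℝ} (h0 : τ ≠ 0) (h2 : |τ| ≠ 2) :
    ((τ : ℂ) * Complex.I * LLo ((τ : ℂ) * Complex.I)).re = -(|τ| * Real.arcsin (2 / |τ|)) := by
  have hre : ((τ : ℂ) * Complex.I * LLo ((τ : ℂ) * Complex.I)).re =
      -(τ * Complex.arg ((rto ((τ : ℂ) * Complex.I) - 1) / (rto ((τ : ℂ) * Complex.I) + 1))) := by
    rw [LLo, ← Complex.log_im]
    simp [Complex.mul_re, Complex.mul_im]
  rw [hre]
  congr 1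
  rcases lt_or_gt_of_ne h2 with h | h
  · -- case `|τ| < 2`
    set a : ℝ := τ / 2 * √(-pp τ) with ha
    have hab : a ^ 2 + (τ / 2) ^ 2 = 1 := sq_add_sq h0 h
    have ha1 : -1 < a := by
      have : a ^ 2 < 1 := by
        have : 0 < (τ / 2) ^ 2 := by positivity
        linarith
      nlinarith [abs_nonneg a, sq_abs a, abs_lt.1 ((sq_lt_one_iff_abs_lt_one a).1 this)]
    have hw : (rto ((τ : ℂ) * Complex.I) - 1) / (rto ((τ : ℂ) * Complex.I) + 1) =
        ((|τ| / (2 + 2 * a) : ℝ) : ℂ) * ((((SignType.sign τ : SignType) : ℝ) : ℂ) * Complex.I) := by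
      rw [rto_neg h0 h, ← ha]
      have hne : (((a : ℝ) : ℂ) + ((τ / 2 : ℝ) : ℂ) * Complex.I + 1) ≠ 0 := by
        intro h'
        have := congrArg Complex.im h'
        simp at this
        exact h0 this
      rw [div_eq_iff hne]
      have h3 : (2 + 2 * a) ≠ 0 := by linarith
      have h4 : ((|τ| / (2 + 2 * a) : ℝ) : ℂ) * ((((SignType.sign τ : SignType) : ℝ) : ℂ) *
          Complex.I) = ((τ / (2 + 2 * a) : ℝ) : ℂ) * Complex.I := by
        have : |τ| * ((SignType.sign τ : SignType) : ℝ) = τ := abs_mul_sign τ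
        rw [← mul_assoc, ← Complex.ofReal_mul, div_mul_eq_mul_div, this]
      rw [h4]
      have h8 : 0 < 1 + a := by linarith
      have e1 : τ / (2 + 2 * a) * (τ / 2) = 1 - a := by
        rw [div_mul_eq_mul_div, div_eq_iff h3]
        linear_combination 2 * hab
      have e2 : τ / (2 + 2 * a) * (a + 1) = τ / 2 := by
        rw [div_mul_eq_mul_div, div_eq_iff h3]
        ring
      generalize τ / (2 + 2 * a) = t at e1 e2
      have e1' : ((t : ℝ) : ℂ) * ((τ / 2 : ℝ) : ℂ) = 1 - (a : ℂ) := by exact_mod_cast e1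
      have e2' : ((t : ℝ) : ℂ) * ((a : ℂ) + 1) = ((τ / 2 : ℝ) : ℂ) := by exact_mod_cast e2
      linear_combination e1' - Complex.I * e2' - (t : ℂ) * ((τ / 2 : ℝ) : ℂ) * Complex.I_sq
    rw [hw, Complex.arg_real_mul _ (by have := abs_pos.2 h0; have : 0 < 2 + 2 * a := by linarith
                                       positivity)]
    have h5 : Real.arcsin (2 / |τ|) = π / 2 := by
      apply Real.arcsin_of_one_le
      rw [one_le_div (abs_pos.2 h0)]
      exact h.le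
    rw [h5]
    rcases lt_or_gt_of_ne h0 with h6 | h6
    · rw [sign_neg h6, abs_of_neg h6]
      have : ((((-1 : SignType) : ℝ) : ℂ) * Complex.I) = -Complex.I := by simp
      rw [this, Complex.arg_neg_I]
      ring
    · rw [sign_pos h6, abs_of_pos h6]
      have : ((((1 : SignType) : ℝ) : ℂ) * Complex.I) = Complex.I := by simp
      rw [this, Complex.arg_I]
  · -- case `|τ| > 2`
    set R : ℝ := τ / 2 * (1 + √(pp τ)) with hR
    have hR1 : R ^ 2 + 1 = τ * R := RR_sq h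
    have hR2 : 1 < |R| := by
      rw [hR, abs_RR h]
      have := Real.sqrt_nonneg ((|τ| / 2) ^ 2 - 1)
      linarith
    have hR3 : 1 < R ^ 2 := by
      rw [← sq_abs]; nlinarith
    have hpos : 0 < R ^ 2 + 1 := by linarith
    have hR0 : R ≠ 0 := by
      rintro h'; rw [h'] at hR3; norm_num at hR3
    have hw : (rto ((τ : ℂ) * Complex.I) - 1) / (rto ((τ : ℂ) * Complex.I) + 1) =
        (((R ^ 2 - 1) / (R ^ 2 + 1) : ℝ) : ℂ) + ((2 / τ : ℝ) : ℂ) * Complex.I := by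
      rw [rto_pos h, ← hR]
      have hne : (((R : ℝ) : ℂ) * Complex.I + 1) ≠ 0 := by
        intro h'
        have := congrArg Complex.re h'
        simp at this
      have h7 : 2 / τ = 2 * R / (R ^ 2 + 1) := by
        rw [hR1]; field_simp
      rw [div_eq_iff hne, h7]
      have e1 : (R ^ 2 - 1) / (R ^ 2 + 1) - 2 * R / (R ^ 2 + 1) * R = -1 := by
        field_simp
        ring
      have e2 : 2 * R / (R ^ 2 + 1) + (R ^ 2 - 1) / (R ^ 2 + 1) * R = R := by
        field_simp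
        ring
      generalize (R ^ 2 - 1) / (R ^ 2 + 1) = u at e1 e2
      generalize 2 * R / (R ^ 2 + 1) = v at e1 e2
      have e1' : (u : ℂ) - (v : ℂ) * (R : ℂ) = -1 := by exact_mod_cast e1
      have e2' : (v : ℂ) + (u : ℂ) * (R : ℂ) = (R : ℂ) := by exact_mod_cast e2
      linear_combination -e1' - Complex.I * e2' - (v : ℂ) * (R : ℂ) * Complex.I_sq
    have hnorm : ((R ^ 2 - 1) / (R ^ 2 + 1)) ^ 2 + (2 / τ) ^ 2 = 1 := by
      have h7 : 2 / τ = 2 * R / (R ^ 2 + 1) := by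
        rw [hR1]; field_simp
      rw [h7]
      field_simp
      ring
    rw [hw, Complex.arg_of_re_nonneg, Complex.norm_add_mul_I, hnorm, Real.sqrt_one]
    · simp only [Complex.add_im, Complex.ofReal_im, Complex.mul_im, Complex.ofReal_re, Complex.I_im,
        Complex.I_re, mul_one, mul_zero, add_zero, zero_add, div_one]
      rcases lt_or_gt_of_ne h0 with h6 | h6
      · rw [abs_of_neg h6, div_neg, Real.arcsin_neg]
        ring
      · rw [abs_of_pos h6]
    · simp only [Complex.add_re, Complex.ofReal_re, Complex.mul_re, Complex.ofReal_im, Complex.I_re,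
        Complex.I_im, mul_zero, zero_mul, sub_zero, add_zero]
      have : 0 ≤ R ^ 2 - 1 := by linarith
      positivity

end P4a177o
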