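import Pool.Agent.Lib.P4a177o.GoodO
import Pool.Agent.Lib.P4a177o.CcO
import Pool.Agent.Lib.P4a177o.NullO
import Pool.Agent.Lib.P4a177o.RootBO
import Pool.Agent.Lib.P4a177o.RootCO

/-!
# MODULE P4a177o.Lim1a: the first limit, main term (est. 1.2 h; adapt `Lib/P4a177t/Lim1.lean`)

PROOF. Dominated convergence for the filter `𝓝[>] 0`, `volume.restrict (box m)`. Let `ε0` be as in
`good_cco`; eventually `0 < ε < ε0 ≤ 1/10`. For those `ε` and `0 < SS θ`:
`|log ‖rto (cco u ε θ)‖| ≤ log (1 + ‖cco u ε θ‖) ≤ log (1 + K / SS θ)`, `K = |u| / 2^m`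
(`abs_log_norm_rto_le`, `norm_cco_le`), and `|re ∏ tf| ≤ ∏ ‖tf‖ ≤ 2^m` (`norm_tf_le`);
`P4a177t.integrable_log`. Measurability: continuity of the integrand (`rto_contDiffAt`,
`cco_continuous`, `rto_ne_zero`, `tf_continuous`). Pointwise limit: for almost all `θ`
(`P4a177t.ae_SS`, `ae_SS_ne` with `v = |u| / 2^(m+1)`) `0 < SS θ`, `SS θ ≠ v`; `tendsto_cco`:
`cco u ε θ → τ i`, `|τ| = |u| / (2^m SS θ)`, `|τ| ≠ 2` as `SS θ ≠ v`; `rto` is continuous at `τ i`
(`good_imag`, `rto_contDiffAt`), the limit of the logarithm is `arcosh (max 1 (|τ| / 2))`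
(`log_norm_rto_imag`) and `|τ| / 2 = v / SS θ`; `∏ tf → 1` (`tendsto_tf`).
-/

set_option autoImplicit false

namespace P4a177o

open P4a177h P4a177t Function MeasureTheory Filter Topology
open scoped Real

namespace Lim1aAux

theorem cont_prod {m : ℕ} (ε : ℝ) : Continuous (fun θ : Fin m → ℝ => (∏ j, tf ε (θ j)).re) := by
  apply Complex.continuous_re.comp
  apply continuous_finsetProd
  intro j _
  exact (tf_continuous ε).comp (continuous_apply j)

theorem abs_prod_le {m : ℕ} {ε : ℝ} (h0 : 0 < ε) (h1 : ε ≤ 1 / 10) (θ : Fin m → ℝ) :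
    |(∏ j, tf ε (θ j)).re| ≤ 2 ^ m := by
  refine (Complex.abs_re_le_norm _).trans ?_
  rw [norm_prod]
  calc ∏ j, ‖tf ε (θ j)‖ ≤ ∏ _j : Fin m, (2 : ℝ) :=
        Finset.prod_le_prod (fun _ _ => norm_nonneg _) fun j _ => norm_tf_le h0 h1 _
    _ = 2 ^ m := by simp

theorem tendsto_prod {m : ℕ} (θ : Fin m → ℝ) :
    Tendsto (fun ε => (∏ j, tf ε (θ j)).re) (𝓝[>] 0) (𝓝 1) := by
  have h1 : Tendsto (fun ε => ∏ j, tf ε (θ j)) (𝓝[>] 0) (𝓝 (∏ _j : Fin m, (1 : ℂ))) :=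
    tendsto_finsetProd _ fun j _ => tendsto_tf (θ j)
  have h2 := (Complex.continuous_re.tendsto _).comp h1
  have h3 : (∏ _j : Fin m, (1 : ℂ)).re = 1 := by simp
  rw [h3] at h2
  exact h2

end Lim1aAux

open Lim1aAux

theorem tendsto_main {m : ℕ} (hm : Odd m) {u : ℤ} (hu : u ≠ 0)
    (hu2 : |(u : ℝ)| ≠ 2 ^ (m + 1)) :
    Tendsto (fun ε : ℝ => ∫ θ in box m,
      Real.log ‖rto (cco u ε θ)‖ * (∏ j, tf ε (θ j)).re) (𝓝[>] 0)
      (𝓝 (MMo m (|(u : ℝ)| / 2 ^ (m + 1)))) := by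
  obtain ⟨ε0, hε0, hε1, hgood⟩ := good_cco hm hu hu2
  have hm1 : 1 ≤ m := hm.pos
  have hev : ∀ᶠ ε in 𝓝[>] (0 : ℝ), 0 < ε ∧ ε < ε0 := Ioo_mem_nhdsGT hε0
  have hK : (0 : ℝ) ≤ |(u : ℝ)| / 2 ^ m := by positivity
  have hu0 : 0 < |(u : ℝ)| := abs_pos.2 (by exact_mod_cast hu)
  refine tendsto_integral_filter_of_dominated_convergence
    (fun θ : Fin m → ℝ => Real.log (1 + |(u : ℝ)| / 2 ^ m / SS θ) * 2 ^ m) ?_ ?_
    ((integrable_log m hK).mul_const _) ?_
  · filter_upwards [hev] with ε hε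
    apply Continuous.aestronglyMeasurable
    have h1 : Continuous (fun θ : Fin m → ℝ => rto (cco u ε θ)) := by
      rw [continuous_iff_continuousAt]
      intro θ
      exact ContinuousAt.comp (g := rto) (rto_contDiffAt (hgood ε hε.1 hε.2 θ)).continuousAt
        (cco_continuous u hε.1).continuousAt
    refine (h1.norm.log ?_).mul (cont_prod ε)
    intro θ
    exact norm_ne_zero_iff.2 (rto_ne_zero (hgood ε hε.1 hε.2 θ))
  · filter_upwards [hev] with ε hε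
    filter_upwards [ae_SS hm1] with θ hθ
    have h1 := abs_log_norm_rto_le (hgood ε hε.1 hε.2 θ)
    have h3 := norm_cco_le u hε.1 θ hθ.1
    have h4 : |(u : ℝ)| / 2 ^ m / SS θ = |(u : ℝ)| / (2 ^ m * SS θ) := by
      rw [div_div]
    rw [norm_mul, Real.norm_eq_abs, Real.norm_eq_abs]
    apply mul_le_mul _ (abs_prod_le hε.1 (hε.2.le.trans hε1) θ) (abs_nonneg _)
    · apply Real.log_nonneg
      have : 0 ≤ |(u : ℝ)| / 2 ^ m / SS θ := div_nonneg hK hθ.1.le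
      linarith
    · refine h1.trans (Real.log_le_log (by positivity) ?_)
      rw [h4]
      linarith
  · have hv : 0 < |(u : ℝ)| / 2 ^ (m + 1) := by positivity
    filter_upwards [ae_SS hm1, ae_SS_ne hm1 hv] with θ hθ hne
    obtain ⟨τ, hτ, habs, hlim⟩ := tendsto_cco hm hu θ hθ.1
    have h4 : |τ| / 2 = |(u : ℝ)| / 2 ^ (m + 1) / SS θ := by
      rw [habs, div_div, div_div, pow_succ]
      congr 1
      ring
    have hτ2 : |τ| ≠ 2 := by
      intro h
      rw [h, div_self two_ne_zero] at h4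
      rw [eq_div_iff hθ.1.ne', one_mul] at h4
      exact hne h4
    have hgi := good_imag hτ hτ2
    have h1 : Tendsto (fun ε => rto (cco u ε θ)) (𝓝[>] 0) (𝓝 (rto ((τ : ℂ) * Complex.I))) :=
      Tendsto.comp (rto_contDiffAt hgi).continuousAt.tendsto hlim
    have h2 : ‖rto ((τ : ℂ) * Complex.I)‖ ≠ 0 := norm_ne_zero_iff.2 (rto_ne_zero hgi)
    have h3 := (h1.norm.log h2).mul (tendsto_prod θ)
    rw [log_norm_rto_imag hτ hτ2, mul_one, h4] at h3
    exact h3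

end P4a177o
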