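import Pool.Agent.Lib.P4a177t.RegLog

/-!
# MODULE P4a177o.Ibp: integration by parts

`L θ = log (γ.emb θ b)` is `C²`, `(dlogRow γ b θ k).re = im (∂_k L)`; the integral of the partial derivative of the periodic
function `g (θ k) * im (L θ) * C θ` is zero.
-/

set_option autoImplicit false

namespace P4a177o

open P4a177h P4a177t Function MeasureTheory
open scoped Real

theorem ibp {m : ℕ} {R : Type} [CommRing R] (γ : Torus m R) (b : Rˣ)
    (h : ∀ θ, γ.emb θ (b : R) ∈ Complex.slitPlane) (k : Fin m) (g g' : ℝ → ℝ)
    (hg : ∀ t, HasDerivAt g (g' t) t) (hg' : Continuous g') (hper : ∀ t, g (t + 2 * π) = g t)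
    (C : (Fin m → ℝ) → ℝ) (hC : Continuous C) (hCu : ∀ θ s, C (update θ k s) = C θ) :
    ∫ θ in box m, g (θ k) * (dlogRow γ b θ k).re * C θ =
      -∫ θ in box m, g' (θ k) * (Complex.log (γ.emb θ (b : R))).im * C θ := by
  set L : (Fin m → ℝ) → ℂ := fun θ => Complex.log (γ.emb θ (b : R)) with hL
  have hLc : ContDiff ℝ 2 L := slit_contDiff γ b h
  set DL : (Fin m → ℝ) → ℂ := fun θ => fderiv ℝ L θ (Pi.single k 1) with hDL
  have hDLc : Continuous DL := (contDiff_fderiv_apply L hLc _).continuous
  have hLcont : Continuous L := hLc.continuous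
  have hrow0 : ∀ θ, (dlogRow γ b θ k).re = (DL θ).im := by
    intro θ
    rw [slit_dlogRow γ b h θ k]
    simp [hDL, hL]
  have hgc : Continuous g := continuous_iff_continuousAt.mpr fun t => (hg t).continuousAt
  have cg : Continuous fun θ : Fin m → ℝ => g (θ k) := hgc.comp (continuous_apply k)
  have cg' : Continuous fun θ : Fin m → ℝ => g' (θ k) := hg'.comp (continuous_apply k)
  have cB : Continuous fun θ : Fin m → ℝ => (L θ).im := Complex.continuous_im.comp hLcont
  have cD : Continuous fun θ : Fin m → ℝ => (DL θ).im := Complex.continuous_im.comp hDLc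
  have c1 : Continuous fun θ : Fin m → ℝ => g (θ k) * (DL θ).im * C θ := (cg.mul cD).mul hC
  have c2 : Continuous fun θ : Fin m → ℝ => g' (θ k) * (L θ).im * C θ := (cg'.mul cB).mul hC
  have hz := integral_partial
    (fun θ => (((L θ).im * g (θ k) * C θ : ℝ) : ℂ))
    (fun θ => ((g (θ k) * (DL θ).im * C θ + g' (θ k) * (L θ).im * C θ : ℝ) : ℂ)) k
    (Complex.continuous_ofReal.comp (c1.add c2)) (by
      intro θ
      have hBd : HasDerivAt (fun s => (L (update θ k s)).im) (DL θ).im (θ k) := by
        have hd : DifferentiableAt ℝ L (update θ k (θ k)) := hLc.differentiable (by norm_num) _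
        have h := hd.hasFDerivAt.comp_hasDerivAt (θ k) (hasDerivAt_update θ k (θ k))
        rw [update_eq_self] at h
        exact Complex.imCLM.hasFDerivAt.comp_hasDerivAt (θ k) h
      have hgd : HasDerivAt (fun s => g (update θ k s k)) (g' (θ k)) (θ k) := by
        simp only [update_self]
        exact hg (θ k)
      have h6 := ((hBd.mul hgd).mul_const (C θ)).ofReal_comp
      have h7 : (fun s => (((L (update θ k s)).im * g (update θ k s k) *
          C (update θ k s) : ℝ) : ℂ)) =
          fun s => (((L (update θ k s)).im * g (update θ k s k) * C θ : ℝ) : ℂ) := by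
        funext s
        rw [hCu]
      rw [h7]
      refine h6.congr_deriv ?_
      rw [update_eq_self]
      congr 1
      ring) (by
      intro θ
      simp only [update_self, hCu, hper]
      have : L (update θ k (θ k + 2 * π)) = L θ := by
        simp only [hL]
        rw [γ.periodic]
      rw [this])
  have hz' : ∫ θ in box m, (g (θ k) * (DL θ).im * C θ + g' (θ k) * (L θ).im * C θ) = 0 := by
    have hz2 := integral_ofReal (𝕜 := ℂ) (μ := volume.restrict (box m))
      (f := fun θ => g (θ k) * (DL θ).im * C θ + g' (θ k) * (L θ).im * C θ)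
    have hz3 := hz2.symm.trans hz
    exact Complex.ofReal_eq_zero.mp hz3
  rw [integral_add (RegLog_box_int c1) (RegLog_box_int c2)] at hz'
  have e1 : ∫ θ in box m, g (θ k) * (dlogRow γ b θ k).re * C θ =
      ∫ θ in box m, g (θ k) * (DL θ).im * C θ := by
    congr 1
    funext θ
    rw [hrow0]
  rw [e1]
  linarith

end P4a177o
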