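import Pool.Agent.Lib.P4a177o.Ana

/-!
# MODULE P4a177o.RootAO: the function `rto` (est. 1.5 h; compare `Lib/P4a177t/RootA.lean`)

PROOF. Let `Goodo c`, `z = 1 + 4/c^2` (`≠ 0`), `s = srt c = exp (w / 2)`,
`w = log (z (1 + i)) - log (1 + i)`. `exp w = z`, so `s^2 = z`. `im w = arg (z (1 + i)) - π/4`,
`arg (z (1+i)) ∈ (-π, π)` (`Complex.mem_slitPlane_iff_arg`), so `β = im (w/2) ∈ (-5π/8, 3π/8)`,
`s = ρ (cos β + i sin β)`, `ρ > 0`. (`Complex.arg (1 + i) = π/4`: `Complex.log_im` and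
`Complex.arg_eq_...`/`1 + i = √2 (cos (π/4) + i sin (π/4))`, `Complex.arg_mul_cos_add_sin_mul_I`.)
* `norm_one_add_srt`: `cos β ≥ cos (3π/4) = -√2/2`, `‖1+s‖^2 = 1 + 2 ρ cos β + ρ^2 ≥
  1 - √2 ρ + ρ^2 ≥ 1/2`.
* `one_add_srt_slit`: `1 + s` in the slit plane: if `im s = ρ sin β = 0` then (`β ∈ (-π, π)`) `β = 0`
  and `s = ρ > 0`.
* `rto_mul`: `rto c * (c/2 (s - 1)) = c^2/4 (s^2 - 1) = 1`.
* `rto_contDiffAt`, `BBo_contDiffAt`: composition (`Complex.contDiffAt_log`, `restrict_scalars`).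
* `LLo_slit`: `x = rto c`; `x ≠ ±1` as `x - 1/x = c ≠ 0`. Suppose `(x-1)/(x+1) = -r`, `r ≥ 0` real.
  Then `x = (1 - r)/(1 + r)` is real, `x ≠ 0`, `|x| ≤ 1`, `c = x - 1/x` is real,
  `z = 1 + 4/c^2 = ((x^2+1)/(x^2-1))^2` is real and positive, so `w = log z` is real
  (`Complex.log_ofReal_mul`), `s` is real and positive; `x = c/2 (1 + s)`, `1/x = c/2 (s - 1)`, so
  `|x| > |1/x|`, so `|x| > 1`, contradiction.
* `LLo_continuousAt`: as in `LL_continuousAt` of `Lib/P4a177t/RootA.lean` (`rto c + 1 ≠ 0`).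
-/

set_option autoImplicit false

namespace P4a177o

open P4a177h P4a177t Function MeasureTheory Filter Topology
open scoped Real

theorem arg_one_add_I : Complex.arg (1 + Complex.I) = π / 4 := by
  have h : (1 + Complex.I : ℂ) = ((√2 : ℝ) : ℂ) *
      (Complex.cos ((π / 4 : ℝ) : ℂ) + Complex.sin ((π / 4 : ℝ) : ℂ) * Complex.I) := by
    rw [← Complex.ofReal_cos, ← Complex.ofReal_sin, Real.cos_pi_div_four, Real.sin_pi_div_four]
    have h2 : √2 * (√2 / 2) = 1 := by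
      have := Real.mul_self_sqrt (show (0 : ℝ) ≤ 2 by norm_num)
      linarith
    apply Complex.ext
    · simp [h2]
    · simp [h2]
  rw [h]
  exact Complex.arg_mul_cos_add_sin_mul_I (by positivity)
    ⟨by linarith [Real.pi_pos], by linarith [Real.pi_pos]⟩

theorem RootAO_one_add_I_ne : (1 + Complex.I : ℂ) ≠ 0 := by
  intro h
  have := congrArg Complex.re h
  simp at this

theorem srt_sq {c : ℂ} (h : Goodo c) : srt c ^ 2 = 1 + 4 / c ^ 2 := by
  rw [srt, sq, ← Complex.exp_add, add_halves, Complex.exp_sub,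
    Complex.exp_log (Complex.slitPlane_ne_zero h.2), Complex.exp_log RootAO_one_add_I_ne,
    mul_div_assoc, div_self RootAO_one_add_I_ne, mul_one]

/-- polar form of the square root -/
theorem RootAO_polar {c : ℂ} (h : Goodo c) : ∃ ρ β : ℝ, 0 < ρ ∧ -(5 * π / 8) < β ∧ β < 3 * π / 8 ∧
    (srt c).re = ρ * Real.cos β ∧ (srt c).im = ρ * Real.sin β := by
  refine ⟨_, _, Real.exp_pos _, ?_, ?_, Complex.exp_re _, Complex.exp_im _⟩
  · rw [Complex.div_ofNat_im, Complex.sub_im, Complex.log_im, Complex.log_im, arg_one_add_I]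
    have h3 := Complex.neg_pi_lt_arg ((1 + 4 / c ^ 2) * (1 + Complex.I))
    linarith
  · rw [Complex.div_ofNat_im, Complex.sub_im, Complex.log_im, Complex.log_im, arg_one_add_I]
    have h2 := (Complex.mem_slitPlane_iff_arg.1 h.2).1
    have h4 := lt_of_le_of_ne (Complex.arg_le_pi ((1 + 4 / c ^ 2) * (1 + Complex.I))) h2
    linarith

theorem norm_one_add_srt {c : ℂ} (h : Goodo c) : 1 / 2 ≤ ‖1 + srt c‖ := by
  obtain ⟨ρ, β, hρ, hβ1, hβ2, hre, him⟩ := RootAO_polar h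
  have hcos : -(√2 / 2) ≤ Real.cos β := by
    have h1 : Real.cos (3 * π / 4) = -(√2 / 2) := by
      rw [show 3 * π / 4 = π - π / 4 by ring, Real.cos_pi_sub, Real.cos_pi_div_four]
    rw [← h1, ← Real.cos_abs β]
    apply Real.cos_le_cos_of_nonneg_of_le_pi (abs_nonneg _) (by linarith [Real.pi_pos])
    rw [abs_le]
    constructor <;> linarith [Real.pi_pos]
  have h2 : √2 * √2 = 2 := Real.mul_self_sqrt (by norm_num)
  have h3 : ‖1 + srt c‖ ^ 2 = 1 + 2 * ρ * Real.cos β + ρ ^ 2 := by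
    rw [← Complex.normSq_eq_norm_sq, Complex.normSq_apply, Complex.add_re, Complex.add_im,
      Complex.one_re, Complex.one_im, hre, him]
    nlinarith [Real.sin_sq_add_cos_sq β]
  have h4 : (1 / 2) ^ 2 ≤ ‖1 + srt c‖ ^ 2 := by
    rw [h3]
    nlinarith [sq_nonneg (ρ - √2 / 2), mul_le_mul_of_nonneg_left hcos hρ.le]
  exact (pow_le_pow_iff_left₀ (by norm_num) (norm_nonneg _) two_ne_zero).1 h4

theorem one_add_srt_slit {c : ℂ} (h : Goodo c) : (1 + srt c) / 2 ∈ Complex.slitPlane := by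
  obtain ⟨ρ, β, hρ, hβ1, hβ2, hre, him⟩ := RootAO_polar h
  rw [Complex.mem_slitPlane_iff, Complex.div_ofNat_re, Complex.div_ofNat_im, Complex.add_re,
    Complex.add_im, Complex.one_re, Complex.one_im, zero_add]
  by_cases h0 : (srt c).im = 0
  · left
    rw [him] at h0
    have h1 : Real.sin β = 0 := (mul_eq_zero.1 h0).resolve_left hρ.ne'
    have h2 : β = 0 := (Real.sin_eq_zero_iff_of_lt_of_lt (by linarith [Real.pi_pos])
      (by linarith [Real.pi_pos])).1 h1
    rw [hre, h2, Real.cos_zero]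
    linarith
  · right
    intro h1
    apply h0
    linarith

theorem rto_eq (c : ℂ) : rto c = c / 2 * (1 + srt c) := rfl

theorem rto_mul {c : ℂ} (h : Goodo c) : rto c * (c / 2 * (srt c - 1)) = 1 := by
  have h1 : rto c * (c / 2 * (srt c - 1)) = c ^ 2 / 4 * (srt c ^ 2 - 1) := by
    rw [rto_eq]
    ring
  rw [h1, srt_sq h]
  have := h.1
  field_simp
  ring

theorem rto_ne_zero {c : ℂ} (h : Goodo c) : rto c ≠ 0 :=
  left_ne_zero_of_mul_eq_one (rto_mul h)

theorem RootAO_inv {c : ℂ} (h : Goodo c) : (rto c)⁻¹ = c / 2 * (srt c - 1) :=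
  inv_eq_of_mul_eq_one_right (rto_mul h)

theorem rto_sub_inv {c : ℂ} (h : Goodo c) : rto c - (rto c)⁻¹ = c := by
  rw [RootAO_inv h, rto_eq]
  ring

theorem rto_div {c : ℂ} (h : Goodo c) : rto c ^ 2 / (rto c ^ 2 - 1) = (1 + srt c) / 2 := by
  have h0 := rto_ne_zero h
  have h1 : rto c ^ 2 - 1 = c * rto c := by
    have h2 := rto_sub_inv h
    have h3 : rto c * (rto c - (rto c)⁻¹) = rto c * c := by rw [h2]
    rw [mul_sub, mul_inv_cancel₀ h0] at h3
    linear_combination h3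
  have hc := h.1
  rw [h1, sq, mul_div_mul_right _ _ h0, rto_eq]
  field_simp

theorem rto_add_one {c : ℂ} (h : Goodo c) : rto c + 1 ≠ 0 := by
  intro h0
  have h1 : rto c = -1 := eq_neg_of_add_eq_zero_left h0
  have h2 := rto_sub_inv h
  rw [h1] at h2
  apply h.1
  rw [← h2]
  norm_num

theorem rto_sub_one {c : ℂ} (h : Goodo c) : rto c - 1 ≠ 0 := by
  intro h0
  have h1 : rto c = 1 := sub_eq_zero.1 h0
  have h2 := rto_sub_inv h
  rw [h1] at h2
  apply h.1
  rw [← h2]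
  norm_num

theorem RootAO_srt_contDiffAt {c : ℂ} (h : Goodo c) : ContDiffAt ℂ 2 srt c := by
  have hc : c ^ 2 ≠ 0 := pow_ne_zero 2 h.1
  have h0 : ContDiffAt ℂ 2 (fun x : ℂ => 1 + 4 / x ^ 2) c :=
    contDiffAt_const.add (contDiffAt_const.div (contDiffAt_id.pow 2) hc)
  have h1 : ContDiffAt ℂ 2 (fun x : ℂ => (1 + 4 / x ^ 2) * (1 + Complex.I)) c :=
    h0.mul contDiffAt_const
  have h2 : ContDiffAt ℂ 2 (fun x : ℂ => Complex.log ((1 + 4 / x ^ 2) * (1 + Complex.I))) c :=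
    ContDiffAt.comp c (g := Complex.log) (Complex.contDiffAt_log h.2) h1
  exact ((h2.sub contDiffAt_const).div_const 2).cexp

theorem rto_contDiffAt {c : ℂ} (h : Goodo c) : ContDiffAt ℝ 2 rto c := by
  have h4 : ContDiffAt ℂ 2 rto c :=
    (contDiffAt_id.div_const 2).mul (contDiffAt_const.add (RootAO_srt_contDiffAt h))
  exact h4.restrict_scalars ℝ

theorem BBo_continuousAt {c : ℂ} (h : Goodo c) : ContinuousAt BBo c := by
  have h1 : ContinuousAt srt c := (RootAO_srt_contDiffAt h).continuousAt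
  have h2 : ContinuousAt (fun x => (1 + srt x) / 2) c := (continuousAt_const.add h1).div_const 2
  exact h2.clog (one_add_srt_slit h)

theorem LLo_slit {c : ℂ} (h : Goodo c) : (rto c - 1) / (rto c + 1) ∈ Complex.slitPlane := by
  rw [Complex.mem_slitPlane_iff]
  by_contra hcon
  push Not at hcon
  obtain ⟨hre, him⟩ := hcon
  set q := ((rto c - 1) / (rto c + 1)).re with hq
  have hw : (rto c - 1) / (rto c + 1) = ((q : ℝ) : ℂ) := by
    apply Complex.ext
    · simp [hq]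
    · rw [him, Complex.ofReal_im]
  have h1 : rto c - 1 = q * (rto c + 1) := by
    rw [← hw, div_mul_cancel₀ _ (rto_add_one h)]
  -- `rto c` is real
  set y : ℝ := (1 + q) / (1 - q) with hy
  have hq1 : (0 : ℝ) < 1 - q := by linarith
  have hqc : (1 : ℂ) - q ≠ 0 := by
    exact_mod_cast hq1.ne'
  have hx : rto c = (y : ℂ) := by
    rw [hy]
    push_cast
    rw [eq_div_iff hqc]
    linear_combination h1
  have hy1 : |y| ≤ 1 := by
    rw [hy, abs_div, abs_of_pos hq1, div_le_one hq1, abs_le]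
    constructor <;> linarith
  have hy0 : y ≠ 0 := by
    intro h0
    apply rto_ne_zero h
    rw [hx, h0, Complex.ofReal_zero]
  have hc : c = ((y - y⁻¹ : ℝ) : ℂ) := by
    rw [← rto_sub_inv h, hx]
    push_cast
    rfl
  set e : ℝ := y - y⁻¹ with he
  have he0 : e ≠ 0 := by
    intro h0
    apply h.1
    rw [hc, h0, Complex.ofReal_zero]
  have hz : (1 + 4 / c ^ 2 : ℂ) = ((1 + 4 / e ^ 2 : ℝ) : ℂ) := by
    rw [hc]
    push_cast
    rfl
  have hz0 : (0 : ℝ) < 1 + 4 / e ^ 2 := by positivity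
  have hs : srt c = ((Real.exp (Real.log (1 + 4 / e ^ 2) / 2) : ℝ) : ℂ) := by
    rw [srt, hz, Complex.log_ofReal_mul hz0 RootAO_one_add_I_ne, add_sub_cancel_right]
    push_cast
    rfl
  set ρ : ℝ := Real.exp (Real.log (1 + 4 / e ^ 2) / 2) with hρ
  have hρ0 : 0 < ρ := Real.exp_pos _
  have e1 : y = e / 2 * (1 + ρ) := by
    have h2 := rto_eq c
    rw [hs, hc, ← hc, hx, hc] at h2
    exact_mod_cast h2
  have e2 : y⁻¹ = e / 2 * (ρ - 1) := by
    rw [he] at e1 ⊢
    linarith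
  have h3 : |y⁻¹| < |y| := by
    rw [e2]
    conv_rhs => rw [e1]
    rw [abs_mul, abs_mul]
    apply mul_lt_mul_of_pos_left _ (abs_pos.2 (div_ne_zero he0 two_ne_zero))
    rw [abs_of_pos (by linarith : (0 : ℝ) < 1 + ρ), abs_lt]
    constructor <;> linarith
  rw [abs_inv] at h3
  have h4 : 1 ≤ |y|⁻¹ := (one_le_inv₀ (abs_pos.2 hy0)).2 hy1
  linarith

theorem LLo_continuousAt {c : ℂ} (h : Goodo c) : ContinuousAt LLo c := by
  have h1 : ContinuousAt rto c := (rto_contDiffAt h).continuousAt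
  have h2 : ContinuousAt (fun x => (rto x - 1) / (rto x + 1)) c :=
    (h1.sub continuousAt_const).div (h1.add continuousAt_const) (rto_add_one h)
  exact h2.clog (LLo_slit h)

end P4a177o
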