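import Pool.Agent.Lib.P4a177o.IneqC

/-!
# The determinant of the limits

PROOF. `m = n + 1`, `n ≥ 1`. For almost all `θ` in `box n`, `0 < SS θ < 1` (`P4a177t.ae_SS`). Integrate
`h_key` with `S = SS θ` over the box (`MMo_succ`, `NNo_succ`, `integrable_hA`, `integrable_hB`):
`hA v * NNo m v < hA v⁻¹ * MMo m v`. The same for `v⁻¹`. Multiply (`NNo` is nonnegative) and cancel the
positive factor `hA v * hA v⁻¹`.
-/

set_option autoImplicit false

namespace P4a177o

open P4a177h P4a177t Function MeasureTheory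
open scoped Real

namespace IneqDAux

theorem NNo_lt_MMo {n : ℕ} (hn : 1 ≤ n) {v : ℝ} (hv : 0 < v) :
    hA v * NNo (n + 1) v < hA v⁻¹ * MMo (n + 1) v := by
  rw [MMo_succ n hv, NNo_succ n hv, ← integral_const_mul, ← integral_const_mul, ← sub_pos,
    ← integral_sub ((integrable_hA n hv).const_mul _) ((integrable_hB n hv).const_mul _)]
  have hpos : ∀ᵐ θ ∂(volume.restrict (box n) : Measure (Fin n → ℝ)),
      0 < hA v⁻¹ * hA (v / SS θ) - hA v * (hB (SS θ / v) / SS θ) := by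
    filter_upwards [ae_SS hn] with θ hθ
    exact sub_pos.2 (h_key hv hθ.1 hθ.2)
  rw [integral_pos_iff_support_of_nonneg_ae (hpos.mono fun θ h => h.le)
    (((integrable_hA n hv).const_mul _).sub ((integrable_hB n hv).const_mul _))]
  have hs : (volume.restrict (box n) : Measure (Fin n → ℝ))
      (support fun θ => hA v⁻¹ * hA (v / SS θ) - hA v * (hB (SS θ / v) / SS θ)) =
      (volume.restrict (box n) : Measure (Fin n → ℝ)) Set.univ := by
    refine measure_congr ?_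
    filter_upwards [hpos] with θ hθ
    exact propext ⟨fun _ => trivial, fun _ => hθ.ne'⟩
  rw [hs, Measure.restrict_apply_univ, box, Real.volume_Icc_pi]
  rw [pos_iff_ne_zero, Finset.prod_ne_zero_iff]
  intro i _
  have : 0 < 2 * π - (0 : Fin n → ℝ) i := by
    simp [Real.pi_pos]
  exact (ENNReal.ofReal_pos.2 this).ne'

theorem NNo_nonneg (m : ℕ) {v : ℝ} (hv : 0 < v) : 0 ≤ NNo m v := by
  refine integral_nonneg fun θ => ?_
  exact div_nonneg (Real.arcsin_nonneg.2 (div_nonneg (SS_nonneg θ) hv.le)) (SS_nonneg θ)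

end IneqDAux

open IneqDAux

theorem det_poso {m : ℕ} (hm : 2 ≤ m) {v : ℝ} (hv : 0 < v) :
    NNo m v * NNo m v⁻¹ < MMo m v * MMo m v⁻¹ := by
  obtain ⟨n, rfl⟩ : ∃ n, m = n + 1 := ⟨m - 1, by omega⟩
  have hn : 1 ≤ n := by omega
  have h1 := NNo_lt_MMo hn hv
  have h2 := NNo_lt_MMo hn (inv_pos.2 hv)
  rw [inv_inv] at h2
  have hp : 0 < hA v⁻¹ := hA_pos (inv_pos.2 hv)
  have hq : 0 < hA v := hA_pos hv
  have n1 := NNo_nonneg (n + 1) hv
  have n2 := NNo_nonneg (n + 1) (inv_pos.2 hv)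
  have h3 : (hA v * NNo (n + 1) v) * (hA v⁻¹ * NNo (n + 1) v⁻¹) <
      (hA v⁻¹ * MMo (n + 1) v) * (hA v * MMo (n + 1) v⁻¹) :=
    mul_lt_mul'' h1 h2 (by positivity) (by positivity)
  have h4 : (hA v * hA v⁻¹) * (NNo (n + 1) v * NNo (n + 1) v⁻¹) <
      (hA v * hA v⁻¹) * (MMo (n + 1) v * MMo (n + 1) v⁻¹) := by
    nlinarith [h3]
  exact lt_of_mul_lt_mul_left h4 (by positivity)

end P4a177o
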