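import Pool.Agent.Lib.P4a177o.InvDef

/-!
# MODULE P4a177o.InvO: the two symbols are invariant (est. 1.5 h)

PROOF. `symb_zpow`: for a family of signs `e`, `symb (fun i => a i ^ e_i) = (∏ e_i) • symb a`: change the
entries one at a time (`Finset.induction_on` over the set of the changed entries, or over `Fin`), with
`symb (update a i (a i)⁻¹) = - symb a`, which follows from `symb_mul` (`symb (update a i 1) = 0`).
`Int.units_eq_one_or` for the cases `e_i = ± 1`.
* `inv_x`: by `map_symb` the image is the symbol of `-(s_i x_i^(e_i))^2 = -x_i^(2 e_i) =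
  (-x_i^2)^(e_i)` (`e_i = ± 1`), so the image is `(∏ e_i) • ξ = ξ`.
* `inv_w`: `w_i = (x_i - 1)/(x_i + 1)` is characterised by `w_i (x_i + 1) = x_i - 1` (`mob_spec`;
  `x_i + 1` is a unit, `isUnit_add_one`); from this, `σ w_i (s_i x_i^(e_i) + 1) = s_i x_i^(e_i) - 1`,
  and so `σ w_i = w_i`, `w_i⁻¹`, `-w_i`, `-w_i⁻¹` for `(s_i, e_i) = (1, 1), (-1, 1), (1, -1), (-1, -1)`.
  So `-(σ w_i)^2 = (-w_i^2)^(s_i)` and the image is `(∏ s_i) • ξ = ξ`.
* `exists_sym` (the symmetries exist): `lift y h` with `y i = s_i x_i^(e_i)`; `y_i^2 - 1 =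
  ± x_i^(e_i) ...`: `(y_i - 1/y_i) = s_i e_i (x_i - 1/x_i)`, the product of the signs is `1`; in terms
  of `On`: `y_i^2 - 1 = s_i e_i y_i x_i⁻¹ (x_i^2 - 1)`.
-/

set_option autoImplicit false

namespace P4a177o

open P4a177h P4a177t

/-- The symbol as a multilinear map. -/
private noncomputable def symbMulti (n : ℕ) (R : Type*) [CommRing R] :
    MultilinearMap ℤ (fun _ : Fin n => Additive Rˣ) (MilnorK n R) where
  toFun a := symb fun s => (a s).toMul
  map_update_add' := by
    intro inst a i x y
    obtain rfl : inst = instDecidableEqFin n := Subsingleton.elim _ _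
    have e : ∀ z : Additive Rˣ, (fun s => (Function.update a i z s).toMul) =
        Function.update (fun s => (a s).toMul) i z.toMul := by
      intro z
      funext s
      by_cases h : s = i
      · subst h
        simp
      · simp [h]
    rw [e, e, e]
    exact symb_mul _ _ _ _
  map_update_smul' := by
    intro inst a i c x
    obtain rfl : inst = instDecidableEqFin n := Subsingleton.elim _ _
    have e : ∀ z : Additive Rˣ, (fun s => (Function.update a i z s).toMul) =
        Function.update (fun s => (a s).toMul) i z.toMul := by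
      intro z
      funext s
      by_cases h : s = i
      · subst h
        simp
      · simp [h]
    rw [e, e]
    let G : Additive Rˣ →+ MilnorK n R :=
      AddMonoidHom.mk' (fun z => symb (Function.update (fun s => (a s).toMul) i z.toMul))
        (fun x y => symb_mul _ _ _ _)
    exact G.map_zsmul c x

theorem symb_zpow {n : ℕ} {R : Type*} [CommRing R] (a : Fin n → Rˣ) (e : Fin n → ℤˣ) :
    symb (fun i => a i ^ ((e i : ℤˣ) : ℤ)) = ((∏ i, e i : ℤˣ) : ℤ) • symb a := by
  have h := (symbMulti n R).map_smul_univ (fun i => ((e i : ℤˣ) : ℤ)) fun i => Additive.ofMul (a i)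
  rw [Units.coe_prod]
  exact h

private lemma sign_sq {B : Type*} [CommRing B] (s : ℤˣ) : (((s : ℤ) : B)) ^ 2 = 1 := by
  rcases Int.units_eq_one_or s with h | h <;> simp [h]

theorem inv_x {m : ℕ} {u : ℤ} : Invariant (m := m) (u := u) (symb fun i => -(x m u i) ^ 2) := by
  intro σ s e _ he hσ
  rw [map_symb]
  have h1 : (fun i => Units.map (σ : CoordRing m u →* CoordRing m u) (-(x m u i) ^ 2)) =
      fun i => (-(x m u i) ^ 2) ^ ((e i : ℤˣ) : ℤ) := by
    funext i
    have h2 : Units.map (σ : CoordRing m u →* CoordRing m u) (-(x m u i) ^ 2) =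
        -((x m u i) ^ ((e i : ℤˣ) : ℤ)) ^ 2 := by
      apply Units.ext
      rw [Units.coe_map, Units.val_neg, Units.val_pow_eq_pow_val, Units.val_neg,
        Units.val_pow_eq_pow_val]
      show σ (-(x m u i : CoordRing m u) ^ 2) = _
      rw [map_neg, map_pow, hσ i, mul_pow, sign_sq, one_mul]
    rw [h2]
    rcases Int.units_eq_one_or (e i) with h | h
    · simp [h]
    · rw [h]
      simp only [Units.val_neg, Units.val_one, zpow_neg, zpow_one, Int.reduceNeg]
      rw [inv_pow]
      rw [← neg_inv]
  rw [h1, symb_zpow, he]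
  simp

theorem inv_w {m : ℕ} {u : ℤ} (hu : u ≠ 0) :
    Invariant (m := m) (u := u) (symb fun i => -(w m hu i) ^ 2) := by
  intro σ s e hs _ hσ
  rw [map_symb]
  have h1 : (fun i => Units.map (σ : CoordRing m u →* CoordRing m u) (-(w m hu i) ^ 2)) =
      fun i => (-(w m hu i) ^ 2) ^ ((s i : ℤˣ) : ℤ) := by
    funext i
    have hspec : (w m hu i : CoordRing m u) * ((x m u i : CoordRing m u) + 1) =
        (x m u i : CoordRing m u) - 1 := mob_spec hu (x m u) (x_on m u) i
    have hunit : IsUnit ((x m u i : CoordRing m u) + 1) := isUnit_add_one hu (x m u) (x_on m u) i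
    have hσw := congrArg σ hspec
    rw [map_mul, map_add, map_sub, map_one, hσ i] at hσw
    set X : CoordRing m u := (x m u i : CoordRing m u) with hX
    set W : CoordRing m u := (w m hu i : CoordRing m u) with hW
    set Y : CoordRing m u := (((x m u i)⁻¹ : (CoordRing m u)ˣ) : CoordRing m u) with hY
    have hXY : X * Y = 1 := Units.mul_inv _
    have hWW : W * (((w m hu i)⁻¹ : (CoordRing m u)ˣ) : CoordRing m u) = 1 := Units.mul_inv _
    set W' : CoordRing m u := (((w m hu i)⁻¹ : (CoordRing m u)ˣ) : CoordRing m u) with hW'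
    have key : Units.map (σ : CoordRing m u →* CoordRing m u) (-(w m hu i) ^ 2) =
        (-(w m hu i) ^ 2) ^ ((s i : ℤˣ) : ℤ) := by
      apply Units.ext
      rw [Units.coe_map, Units.val_neg, Units.val_pow_eq_pow_val]
      show σ (-W ^ 2) = _
      rw [map_neg, map_pow]
      rcases Int.units_eq_one_or (s i) with h | h
      · rw [h] at hσw ⊢
        simp only [Units.val_one, zpow_one, Int.cast_one, one_mul] at hσw ⊢
        rw [Units.val_neg, Units.val_pow_eq_pow_val, ← hW]
        rcases Int.units_eq_one_or (e i) with h' | h'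
        · rw [h'] at hσw
          simp only [Units.val_one, zpow_one, ← hX] at hσw
          have h3 : σ W = W := by
            apply hunit.mul_right_cancel
            rw [hσw, hspec]
          rw [h3]
        · rw [h'] at hσw
          simp only [Units.val_neg, Units.val_one, zpow_neg, zpow_one, ← hY] at hσw
          have h3 : σ W = -W := by
            apply hunit.mul_right_cancel
            linear_combination X * hσw + hspec + (1 - σ W) * hXY
          rw [h3, neg_sq]
      · rw [h] at hσw ⊢
        simp only [Units.val_neg, Units.val_one, zpow_neg, zpow_one, Int.cast_neg, Int.cast_one,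
          neg_mul, one_mul] at hσw ⊢
        have h5 : (((-(w m hu i) ^ 2)⁻¹ : (CoordRing m u)ˣ) : CoordRing m u) = -W' ^ 2 := by
          rw [← neg_inv, Units.val_neg, ← inv_pow, Units.val_pow_eq_pow_val]
        rw [h5]
        rcases Int.units_eq_one_or (e i) with h' | h'
        · rw [h'] at hσw
          simp only [Units.val_one, zpow_one, ← hX] at hσw
          have h3 : σ W * W = 1 := by
            apply hunit.mul_right_cancel
            linear_combination (-1 : CoordRing m u) * hσw + σ W * hspec
          have h4 : σ W = W' := by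
            calc σ W = σ W * (W * W') := by rw [hWW, mul_one]
              _ = σ W * W * W' := by ring
              _ = W' := by rw [h3, one_mul]
          rw [h4]
        · rw [h'] at hσw
          simp only [Units.val_neg, Units.val_one, zpow_neg, zpow_one, ← hY] at hσw
          have h3 : σ W * W = -1 := by
            apply hunit.mul_right_cancel
            linear_combination X * hσw + σ W * hspec + (σ W - 1) * hXY
          have h4 : σ W = -W' := by
            calc σ W = σ W * (W * W') := by rw [hWW, mul_one]
              _ = σ W * W * W' := by ring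
              _ = -W' := by rw [h3, neg_one_mul]
          rw [h4, neg_sq]
    exact key
  rw [h1, symb_zpow, hs]
  simp

theorem exists_sym {m : ℕ} {u : ℤ} (s e : Fin (m + 1) → ℤˣ) (hs : ∏ i, s i = 1)
    (he : ∏ i, e i = 1) : ∃ σ : CoordRing m u →+* CoordRing m u,
      ∀ i, σ (x m u i : CoordRing m u) = ((s i : ℤ) : CoordRing m u) *
        (((x m u i) ^ ((e i : ℤˣ) : ℤ) : (CoordRing m u)ˣ) : CoordRing m u) := by
  let y : Fin (m + 1) → (CoordRing m u)ˣ := fun i =>
    Units.map (Int.castRingHom (CoordRing m u) : ℤ →* CoordRing m u) (s i) *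
      (x m u i) ^ ((e i : ℤˣ) : ℤ)
  have hy : ∀ i, (y i : CoordRing m u) = ((s i : ℤ) : CoordRing m u) *
      (((x m u i) ^ ((e i : ℤˣ) : ℤ) : (CoordRing m u)ˣ) : CoordRing m u) := by
    intro i
    show ((Units.map (Int.castRingHom (CoordRing m u) : ℤ →* CoordRing m u) (s i) *
      (x m u i) ^ ((e i : ℤˣ) : ℤ) : (CoordRing m u)ˣ) : CoordRing m u) = _
    rw [Units.val_mul]
    rfl
  have hon : On u fun i => (y i : CoordRing m u) := by
    have h1 : ∀ i, (y i : CoordRing m u) ^ 2 - 1 =
        ((s i : ℤ) : CoordRing m u) * ((e i : ℤ) : CoordRing m u) * (y i : CoordRing m u) *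
          (((x m u i)⁻¹ : (CoordRing m u)ˣ) : CoordRing m u) * ((x m u i : CoordRing m u) ^ 2 - 1) := by
      intro i
      have hXY : (x m u i : CoordRing m u) * (((x m u i)⁻¹ : (CoordRing m u)ˣ) : CoordRing m u) = 1 :=
        Units.mul_inv _
      have hsq : (((s i : ℤ) : CoordRing m u)) ^ 2 = 1 := sign_sq (s i)
      rw [hy i]
      rcases Int.units_eq_one_or (e i) with h' | h'
      · rw [h']
        simp only [Units.val_one, zpow_one, Int.cast_one, mul_one]
        linear_combination
          (x m u i : CoordRing m u) ^ 2 * hsq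
            - (((s i : ℤ) : CoordRing m u)) ^ 2 * ((x m u i : CoordRing m u) ^ 2 - 1) * hXY
            - ((x m u i : CoordRing m u) ^ 2 - 1) * hsq
      · rw [h']
        simp only [Units.val_neg, Units.val_one, zpow_neg, zpow_one, Int.cast_neg, Int.cast_one,
          mul_neg, mul_one, neg_mul]
        linear_combination
          hsq + (((s i : ℤ) : CoordRing m u)) ^ 2 * ((x m u i : CoordRing m u) *
            (((x m u i)⁻¹ : (CoordRing m u)ˣ) : CoordRing m u) + 1) * hXY
    unfold On
    rw [Finset.prod_congr rfl fun i _ => h1 i]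
    simp only [Finset.prod_mul_distrib]
    have hx := x_on m u
    unfold On at hx
    rw [hx]
    have h2 : ∏ i, ((s i : ℤ) : CoordRing m u) = 1 := by
      rw [← Int.cast_prod, ← Units.coe_prod, hs]
      simp
    have h3 : ∏ i, ((e i : ℤ) : CoordRing m u) = 1 := by
      rw [← Int.cast_prod, ← Units.coe_prod, he]
      simp
    have h4 : (∏ i, (((x m u i)⁻¹ : (CoordRing m u)ˣ) : CoordRing m u)) *
        ∏ i, (x m u i : CoordRing m u) = 1 := by
      rw [← Finset.prod_mul_distrib]
      exact Finset.prod_eq_one fun i _ => Units.inv_mul _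
    rw [h2, h3]
    linear_combination ((u : CoordRing m u) * ∏ i, (y i : CoordRing m u)) * h4
  refine ⟨lift y hon, fun i => ?_⟩
  rw [lift_x, hy]

end P4a177o
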