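import Pool.Agent.Lib.P4a177o.GoodO
import Pool.Agent.Lib.P4a177o.CcO
import Pool.Agent.Lib.P4a177o.NullO
import Pool.Agent.Lib.P4a177o.RootBO
import Pool.Agent.Lib.P4a177o.RootCO

/-!
# MODULE P4a177o.Lim2o: the second limit (est. 1.2 h; adapt `Lib/P4a177t/Lim2.lean`)

PROOF. Dominated convergence for the filter `𝓝[>] 0`, `volume.restrict (box m)`. Let `ε0` be as in
`good_cco`; eventually `0 < ε < ε0 ≤ 1/10`. By `prod_two_div` the integrand is
`re ((2^m / u) * (cco * LLo cco) * ∏ tf)`, bounded by the constant `2^m / |u| * 50 * 2^m`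
(`norm_mul_LLo_le`, `norm_tf_le`). Measurability: continuity (`LLo_continuousAt`, `cco_continuous`,
`tf_continuous`). Pointwise limit for almost all `θ` (`0 < SS θ`, `SS θ ≠ v`, `v = |u| / 2^(m+1)`): by
`tendsto_cco`, `LLo_continuousAt (good_imag _ _)`, `tendsto_tf` it is
`re ((2^m / u) * (τ i * LLo (τ i))) = -(2^m / u) * |τ| * arcsin (2 / |τ|)` (`re_mul_LLo_imag`), and
with `|τ| = |u| / (2^m SS θ)`: `2 / |τ| = SS θ / v`, `(2^m / u) |τ| = (|u| / u) / SS θ`.
-/

set_option autoImplicit false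

namespace P4a177o

open P4a177h P4a177t Function MeasureTheory Filter Topology
open scoped Real

namespace Lim2oAux

theorem integrand_eq {m : ℕ} {u : ℤ} (hu : u ≠ 0) (ε : ℝ) (θ : Fin m → ℝ) :
    LLo (cco u ε θ) * ((∏ j, tf ε (θ j)) * ∏ j, (2 / gg ε (θ j))) =
      2 ^ m / (u : ℂ) * (cco u ε θ * LLo (cco u ε θ)) * ∏ j, tf ε (θ j) := by
  rw [prod_two_div hu]
  ring

theorem tf_prod_continuous {m : ℕ} (ε : ℝ) :
    Continuous fun θ : Fin m → ℝ => ∏ j, tf ε (θ j) :=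
  continuous_finsetProd _ fun j _ => (tf_continuous ε).comp (continuous_apply j)

theorem norm_tf_prod_le {m : ℕ} {ε : ℝ} (h0 : 0 < ε) (h1 : ε ≤ 1 / 10) (θ : Fin m → ℝ) :
    ‖∏ j, tf ε (θ j)‖ ≤ 2 ^ m := by
  rw [norm_prod]
  refine (Finset.prod_le_prod (fun j _ => norm_nonneg _) fun j _ => norm_tf_le h0 h1 (θ j)).trans ?_
  rw [Finset.prod_const, Finset.card_univ, Fintype.card_fin]

end Lim2oAux

open Lim2oAux

theorem tendsto_w {m : ℕ} (hm : Odd m) {u : ℤ} (hu : u ≠ 0)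
    (hu2 : |(u : ℝ)| ≠ 2 ^ (m + 1)) :
    Tendsto (fun ε : ℝ => ∫ θ in box m,
      (LLo (cco u ε θ) * ((∏ j, tf ε (θ j)) * ∏ j, (2 / gg ε (θ j)))).re) (𝓝[>] 0)
      (𝓝 (-(|(u : ℝ)| / u) * NNo m (|(u : ℝ)| / 2 ^ (m + 1)))) := by
  have hm1 : 1 ≤ m := hm.pos
  have hu' : (u : ℂ) ≠ 0 := by exact_mod_cast hu
  have huR : (u : ℝ) ≠ 0 := by exact_mod_cast hu
  have hua : 0 < |(u : ℝ)| := abs_pos.2 huR
  obtain ⟨ε0, hε0, hε01, hgood⟩ := good_cco hm hu hu2
  have hev : ∀ᶠ ε : ℝ in 𝓝[>] 0, 0 < ε ∧ ε < ε0 := by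
    have h1 : ∀ᶠ ε : ℝ in 𝓝[>] 0, 0 < ε := eventually_mem_nhdsWithin
    have h2 : ∀ᶠ ε : ℝ in 𝓝[>] 0, ε < ε0 :=
      (eventually_lt_nhds hε0).filter_mono nhdsWithin_le_nhds
    exact h1.and h2
  have hfin : IsFiniteMeasure (volume.restrict (box m) : Measure (Fin m → ℝ)) := by
    refine ⟨?_⟩
    rw [Measure.restrict_apply_univ]
    exact (isCompact_Icc : IsCompact (box m)).measure_lt_top
  have h2n : ‖(2 : ℂ) ^ m / (u : ℂ)‖ = 2 ^ m / |(u : ℝ)| := by
    rw [norm_div, norm_pow, Complex.norm_ofNat, Complex.norm_intCast]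
  unfold NNo
  rw [← integral_const_mul]
  refine tendsto_integral_filter_of_dominated_convergence
    (fun _ => 2 ^ m / |(u : ℝ)| * 50 * 2 ^ m) ?_ ?_ ?_ ?_
  · filter_upwards [hev] with ε hε
    have hc := cco_continuous (m := m) u hε.1
    have hL : Continuous fun θ : Fin m → ℝ => LLo (cco u ε θ) := by
      rw [continuous_iff_continuousAt]
      intro θ
      exact ContinuousAt.comp (f := fun θ : Fin m → ℝ => cco u ε θ) (g := LLo)
        (LLo_continuousAt (hgood ε hε.1 hε.2 θ)) hc.continuousAt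
    refine Continuous.aestronglyMeasurable ?_
    simp only [integrand_eq hu]
    exact Complex.continuous_re.comp ((continuous_const.mul (hc.mul hL)).mul
      (tf_prod_continuous ε))
  · filter_upwards [hev] with ε hε
    refine Eventually.of_forall fun θ => ?_
    have hg := hgood ε hε.1 hε.2 θ
    rw [integrand_eq hu, Real.norm_eq_abs]
    refine (Complex.abs_re_le_norm _).trans ?_
    rw [norm_mul, norm_mul, h2n]
    exact mul_le_mul (mul_le_mul_of_nonneg_left (norm_mul_LLo_le hg) (by positivity))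
      (norm_tf_prod_le hε.1 (hε.2.le.trans hε01) θ) (norm_nonneg _) (by positivity)
  · exact integrable_const _
  · have hv : 0 < |(u : ℝ)| / 2 ^ (m + 1) := by positivity
    filter_upwards [ae_SS hm1, ae_SS_ne hm1 hv] with θ hθ hθv
    have hS := hθ.1
    obtain ⟨τ, hτ0, htabs, htend⟩ := tendsto_cco hm hu θ hθ.1
    have hτ2 : |τ| ≠ 2 := by
      intro h2
      apply hθv
      rw [htabs] at h2
      rw [eq_div_iff (by positivity)]
      rw [div_eq_iff (by positivity)] at h2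
      rw [h2]
      ring
    have hL : Tendsto (fun ε => LLo (cco u ε θ)) (𝓝[>] 0)
        (𝓝 (LLo ((τ : ℂ) * Complex.I))) :=
      (LLo_continuousAt (good_imag hτ0 hτ2)).tendsto.comp htend
    have hT : Tendsto (fun ε => ∏ j, tf ε (θ j)) (𝓝[>] 0) (𝓝 (∏ _j : Fin m, (1 : ℂ))) :=
      tendsto_finsetProd _ fun j _ => tendsto_tf (θ j)
    have h1 : Tendsto (fun ε => (LLo (cco u ε θ) *
        ((∏ j, tf ε (θ j)) * ∏ j, (2 / gg ε (θ j)))).re) (𝓝[>] 0)
        (𝓝 (2 ^ m / (u : ℂ) * ((τ : ℂ) * Complex.I * LLo ((τ : ℂ) * Complex.I)) *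
          ∏ _j : Fin m, (1 : ℂ)).re) := by
      simp only [integrand_eq hu]
      exact (Complex.continuous_re.tendsto _).comp
        ((tendsto_const_nhds.mul (htend.mul hL)).mul hT)
    have h2 : (2 ^ m / (u : ℂ) * ((τ : ℂ) * Complex.I * LLo ((τ : ℂ) * Complex.I)) *
          ∏ _j : Fin m, (1 : ℂ)).re =
        -(|(u : ℝ)| / u) * (Real.arcsin (SS θ / (|(u : ℝ)| / 2 ^ (m + 1))) / SS θ) := by
      have h3 : (2 : ℂ) ^ m / (u : ℂ) = ((2 ^ m / u : ℝ) : ℂ) := by push_cast; ring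
      rw [Finset.prod_const_one, mul_one, h3, Complex.re_ofReal_mul, re_mul_LLo_imag hτ0 hτ2,
        htabs]
      have h4 : (2 : ℝ) / (|(u : ℝ)| / (2 ^ m * SS θ)) = SS θ / (|(u : ℝ)| / 2 ^ (m + 1)) := by
        have := hS.ne'
        field_simp
        ring
      rw [h4]
      have := hS.ne'
      field_simp
    rw [← h2]
    exact h1

end P4a177o
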