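import Pool.Agent.Lib.P4a177o.RegXO

/-!
# MODULE P4a177o.RegWO: the regulator of `{w_i}` along the torus (est. 0.8 h; adapt `reg_w` in
# `Lib/P4a177t/TorReg.lean`)

PROOF. `regFun_log` with `a = w m hu`, `f j t = tf ε t * (2 / gg ε t)` (`TorRegAux.dlogRow_w` and
`hrow_xo`), `g j t = log ‖(crv ε t - 1) / (crv ε t + 1)‖` (`TorRegAux.emb_w`). The value of `w_0` is
`(rto c - 1) / (rto c + 1)`, in the slit plane (`LLo_slit`). `Finset.prod_mul_distrib`.
-/

set_option autoImplicit false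

namespace P4a177o

open P4a177h P4a177t Function MeasureTheory
open scoped Real

theorem reg_wo {m : ℕ} {u : ℤ} (hu : u ≠ 0) {ε : ℝ} (h0 : 0 < ε)
    (hg : ∀ θ : Fin m → ℝ, Goodo (cco u ε θ)) (γ : Torus m (CoordRing m u))
    (hγ : ∀ (j : Fin m) (θ : Fin m → ℝ), γ.emb θ (x m u j.succ : CoordRing m u) = crv ε (θ j))
    (hγ0 : ∀ θ : Fin m → ℝ, γ.emb θ (x m u 0 : CoordRing m u) = rto (cco u ε θ)) :
    regFun γ (w m hu) = ∫ θ in box m,
      (LLo (cco u ε θ) * ((∏ j, tf ε (θ j)) * ∏ j, (2 / gg ε (θ j)))).re := by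
  have hf : ∀ _ : Fin m, Continuous fun t : ℝ => tf ε t * (2 / gg ε t) := by
    intro _
    exact (tf_continuous ε).mul (continuous_const.div (gg_continuous ε) fun t => gg_ne_zero h0 t)
  have h := regFun_log γ (w m hu) (fun _ t => tf ε t * (2 / gg ε t)) hf
    (fun j θ l => by
      rw [TorRegAux.dlogRow_w, hrow_xo γ hγ, hγ]
      split_ifs
      · rfl
      · rw [zero_mul])
    (fun _ t => Real.log ‖(crv ε t - 1) / (crv ε t + 1)‖)
    (fun j θ => by rw [TorRegAux.emb_w, hγ])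
    (fun θ => by
      rw [TorRegAux.emb_w, hγ0]
      exact LLo_slit (hg θ))
  rw [h]
  refine setIntegral_congr_fun measurableSet_Icc fun θ _ => ?_
  show (Complex.log (γ.emb θ (w m hu 0 : CoordRing m u)) *
    ∏ j : Fin m, tf ε (θ j) * (2 / gg ε (θ j))).re = _
  rw [TorRegAux.emb_w, hγ0, Finset.prod_mul_distrib]
  rfl

end P4a177o
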