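import Pool.Agent.Lib.P4a177t.Sm

/-!
# MODULE P4a177o.SmO: smoothness (est. 0.5 h; adapt `P4a177t.smooth` in `Lib/P4a177t/Sm.lean`)

PROOF. As there, at a singular point all `y_s^2 = -1`, so `(-2)^(m+1) = u ∏ y_i`; squaring:
`4^(m+1) = u^2 (-1)^(m+1) = u^2` (`m` odd), so `|u| = 2^(m+1)`, contradiction.
-/

set_option autoImplicit false

namespace P4a177o

open P4a177h P4a177t MvPolynomial

theorem smootho {m : ℕ} (hm : Odd m) {u : ℤ} (hu : u ≠ 0) (hu2 : |u| ≠ 2 ^ (m + 1)) :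
    Smooth m u := by
  intro y hy h0
  by_contra hcon
  push Not at hcon
  rw [aeval_eqn_eq_zero] at h0
  have h0' : ∏ i, (y i ^ 2 - 1) = (u : ℂ) * ∏ i, y i := h0
  have hu' : (u : ℂ) ≠ 0 := Int.cast_ne_zero.2 hu
  have hne : ∏ i, (y i ^ 2 - 1) ≠ 0 := by
    rw [h0']
    exact mul_ne_zero hu' (Finset.prod_ne_zero_iff.2 fun i _ => hy i)
  have hsq : ∀ s, y s ^ 2 = -1 := by
    intro s
    have h1 := hcon s
    rw [Sm_pderiv] at h1
    have h2 := Finset.mul_prod_erase Finset.univ (fun i => y i ^ 2 - 1) (Finset.mem_univ s)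
    have h3 := Finset.mul_prod_erase Finset.univ (fun i => y i) (Finset.mem_univ s)
    have hP : ∏ i ∈ Finset.univ.erase s, (y i ^ 2 - 1) ≠ 0 := by
      intro h4
      rw [h4, mul_zero] at h2
      exact hne h2.symm
    have h5 : (∏ i ∈ Finset.univ.erase s, (y i ^ 2 - 1)) * (y s ^ 2 + 1) = 0 := by
      rw [← h2, ← h3] at h0'
      linear_combination y s * h1 - h0'
    have h6 := (mul_eq_zero.1 h5).resolve_left hP
    linear_combination h6
  have h7 : (-2 : ℂ) ^ (m + 1) = (u : ℂ) * ∏ i, y i := by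
    rw [← h0']
    have : ∀ i, y i ^ 2 - 1 = -2 := by
      intro i
      rw [hsq i]
      norm_num
    simp only [this, Finset.prod_const, Finset.card_univ, Fintype.card_fin]
  have h8 : (u : ℂ) ^ 2 = (4 : ℂ) ^ (m + 1) := by
    have h9 : ((-2 : ℂ) ^ (m + 1)) ^ 2 = ((u : ℂ) * ∏ i, y i) ^ 2 := by rw [h7]
    rw [mul_pow, ← Finset.prod_pow] at h9
    simp only [hsq, Finset.prod_const, Finset.card_univ, Fintype.card_fin] at h9
    rw [hm.add_one.neg_one_pow, ← pow_mul, mul_comm (m + 1) 2, pow_mul] at h9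
    norm_num at h9
    exact h9.symm
  have h10 : (u ^ 2 : ℤ) = (2 ^ (m + 1)) ^ 2 := by
    have h11 : ((u ^ 2 : ℤ) : ℂ) = (((2 ^ (m + 1)) ^ 2 : ℤ) : ℂ) := by
      push_cast
      rw [h8, ← pow_mul, mul_comm (m + 1) 2, pow_mul]
      norm_num
    exact_mod_cast h11
  have h12 : |u| = |(2 : ℤ) ^ (m + 1)| := (sq_eq_sq_iff_abs_eq_abs u (2 ^ (m + 1))).1 h10
  rw [abs_of_pos (by positivity : (0 : ℤ) < 2 ^ (m + 1))] at h12
  exact hu2 h12

end P4a177o
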