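import Pool.Agent.Lib.P4a177t.TorusEx
import Pool.Agent.Lib.P4a177o.CcO
import Pool.Agent.Lib.P4a177o.GoodO
import Pool.Agent.Lib.P4a177o.RootAO

/-!
# MODULE P4a177o.TorusExO: the torus (est. 0.8 h; adapt `Lib/P4a177t/TorusEx.lean`)

PROOF. As `P4a177t.exists_torus` with `circ r` replaced by `crv ε`, `root` by `rto`, `cc` by `cco`
(the auxiliary facts `TorusExAux.sq_sub_one`, `TorusExAux.contDiff_aeval`, `TorusExAux.lift_congr` of
that file can be used). `rto_contDiffAt` composed with `cco_contDiff`; `crv_contDiff`;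
`cco_periodic`, `crv_periodic`.
-/

set_option autoImplicit false

namespace P4a177o

open P4a177h P4a177t Function MeasureTheory
open scoped Real

namespace TorusExOAux

/-- the coordinates of the point with the parameter `θ` -/
noncomputable def yo {m : ℕ} (u : ℤ) (ε : ℝ) (θ : Fin m → ℝ) : Fin (m + 1) → ℂ :=
  Fin.cons (rto (cco u ε θ)) fun j => crv ε (θ j)

theorem yo_ne_zero {m : ℕ} {u : ℤ} {ε : ℝ}
    (hg : ∀ θ : Fin m → ℝ, Goodo (cco u ε θ)) (θ : Fin m → ℝ) (i : Fin (m + 1)) :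
    yo u ε θ i ≠ 0 := by
  refine Fin.cases ?_ (fun j => ?_) i
  · exact rto_ne_zero (hg θ)
  · exact crv_ne_zero ε _

theorem yo_on {m : ℕ} {u : ℤ} {ε : ℝ} (h0 : 0 < ε)
    (hg : ∀ θ : Fin m → ℝ, Goodo (cco u ε θ)) (θ : Fin m → ℝ) : On u (yo u ε θ) := by
  unfold On
  rw [Fin.prod_univ_succ, Fin.prod_univ_succ]
  have h2 : yo u ε θ 0 ^ 2 - 1 = yo u ε θ 0 * cco u ε θ :=
    TorusExAux.sq_sub_one (rto_ne_zero (hg θ)) (rto_sub_inv (hg θ))
  have h3 : ∀ j : Fin m, yo u ε θ j.succ ^ 2 - 1 =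
      yo u ε θ j.succ * (crv ε (θ j) - (crv ε (θ j))⁻¹) := fun j =>
    TorusExAux.sq_sub_one (crv_ne_zero ε _) rfl
  have h4 : cco u ε θ * ∏ j, (crv ε (θ j) - (crv ε (θ j))⁻¹) = u := by
    have := PPo_ne_zero h0 θ
    show (u : ℂ) / PPo ε θ * PPo ε θ = u
    exact div_mul_cancel₀ _ this
  rw [h2, Finset.prod_congr rfl fun j _ => h3 j, Finset.prod_mul_distrib, ← h4]
  ring

theorem contDiff_yo {m : ℕ} {u : ℤ} {ε : ℝ} (h0 : 0 < ε)
    (hg : ∀ θ : Fin m → ℝ, Goodo (cco u ε θ)) (i : Fin (m + 1)) :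
    ContDiff ℝ 2 fun θ : Fin m → ℝ => yo u ε θ i := by
  refine Fin.cases ?_ (fun j => ?_) i
  · rw [contDiff_iff_contDiffAt]
    intro θ
    exact (rto_contDiffAt (hg θ)).comp θ (cco_contDiff u h0).contDiffAt
  · exact (crv_contDiff ε).comp (contDiff_apply ℝ ℝ j)

theorem yo_periodic {m : ℕ} (u : ℤ) (ε : ℝ) (θ : Fin m → ℝ) (l : Fin m) :
    yo u ε (update θ l (θ l + 2 * π)) = yo u ε θ := by
  funext i
  refine Fin.cases ?_ (fun j => ?_) i
  · show rto (cco u ε (update θ l (θ l + 2 * π))) = rto (cco u ε θ)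
    rw [cco_periodic]
  · show crv ε (update θ l (θ l + 2 * π) j) = crv ε (θ j)
    rcases eq_or_ne j l with rfl | hj
    · rw [update_self, crv_periodic]
    · rw [update_of_ne hj]

end TorusExOAux

open TorusExOAux in
theorem exists_toruso {m : ℕ} {u : ℤ} {ε : ℝ} (h0 : 0 < ε)
    (hg : ∀ θ : Fin m → ℝ, Goodo (cco u ε θ)) : ∃ γ : Torus m (CoordRing m u),
      (∀ (j : Fin m) (θ : Fin m → ℝ), γ.emb θ (x m u j.succ : CoordRing m u) = crv ε (θ j)) ∧
      ∀ θ : Fin m → ℝ, γ.emb θ (x m u 0 : CoordRing m u) = rto (cco u ε θ) := by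
  have hne := yo_ne_zero (u := u) (ε := ε) hg
  have hon := yo_on h0 hg
  let Y : (Fin m → ℝ) → Fin (m + 1) → ℂˣ := fun θ i => Units.mk0 (yo u ε θ i) (hne θ i)
  have hY : ∀ θ, On u fun i => (Y θ i : ℂ) := fun θ => hon θ
  refine ⟨⟨fun θ => lift (Y θ) (hY θ), ?_, ?_⟩, ?_, ?_⟩
  · intro f
    obtain ⟨p, k, hp⟩ := exists_mul_pow f
    have h2 : (fun θ => lift (Y θ) (hY θ) f) = fun θ =>
        MvPolynomial.aeval (yo u ε θ) p / (∏ i, yo u ε θ i) ^ k := by
      funext θ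
      have h3 := congrArg (lift (Y θ) (hY θ)) hp
      rw [map_mul, map_pow, lift_mk, lift_mk] at h3
      have h4 : MvPolynomial.aeval (fun i => (Y θ i : ℂ))
          (∏ i, MvPolynomial.X i : MvPolynomial (Fin (m + 1)) ℚ) = ∏ i, yo u ε θ i := by
        rw [map_prod]
        exact Finset.prod_congr rfl fun i _ => by rw [MvPolynomial.aeval_X]; rfl
      rw [h4] at h3
      have h5 : (∏ i, yo u ε θ i) ^ k ≠ 0 :=
        pow_ne_zero _ (Finset.prod_ne_zero_iff.2 fun i _ => hne θ i)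
      exact (eq_div_iff h5).2 h3
    show ContDiff ℝ 2 fun θ => lift (Y θ) (hY θ) f
    rw [h2]
    simp only [div_eq_mul_inv]
    refine (TorusExAux.contDiff_aeval (contDiff_yo h0 hg) p).mul (ContDiff.inv ?_ ?_)
    · exact (contDiff_prod fun i _ => contDiff_yo h0 hg i).pow k
    · intro θ
      exact pow_ne_zero _ (Finset.prod_ne_zero_iff.2 fun i _ => hne θ i)
  · intro f θ l
    have h2 : Y (update θ l (θ l + 2 * π)) = Y θ := by
      funext i
      refine Units.ext ?_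
      show yo u ε (update θ l (θ l + 2 * π)) i = yo u ε θ i
      rw [yo_periodic]
    show lift (Y (update θ l (θ l + 2 * π))) _ f = lift (Y θ) _ f
    rw [TorusExAux.lift_congr (hY _) (hY θ) h2]
  · intro j θ
    exact lift_x (Y θ) (hY θ) _
  · intro θ
    exact lift_x (Y θ) (hY θ) _

end P4a177o
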