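import Pool.Agent.Lib.P4a177t.Main
import Pool.Agent.Lib.P4a177o.TorusExO
import Pool.Agent.Lib.P4a177o.RegWO
import Pool.Agent.Lib.P4a177o.Lim1a
import Pool.Agent.Lib.P4a177o.Lim1b
import Pool.Agent.Lib.P4a177o.Lim2o
import Pool.Agent.Lib.P4a177o.IneqD
import Pool.Agent.Lib.P4a177o.SmO
import Pool.Agent.Lib.P4a177o.InvO

/-!
# Assembly, the case of odd dimension
-/

set_option autoImplicit false

namespace P4a177o

open P4a177h P4a177t Function MeasureTheory Filter Topology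
open scoped Real

noncomputable section

variable {m : ℕ}

/-- the right side of `reg_xo` -/
def RX (m : ℕ) (u : ℤ) (ε : ℝ) : ℝ :=
  (∫ θ in box m, Real.log ‖rto (cco u ε θ)‖ * (∏ j, tf ε (θ j)).re) +
      ∑ k : Fin m, ∫ θ in box m,
        (aa ε (θ k) * (lg ε (θ k)).re + da ε (θ k) * (BBo (cco u ε θ)).im) *
          (∏ j with k < j, tf ε (θ j)).re

/-- the right side of `reg_wo` -/
def RW (m : ℕ) (u : ℤ) (ε : ℝ) : ℝ :=
  ∫ θ in box m, (LLo (cco u ε θ) * ((∏ j, tf ε (θ j)) * ∏ j, (2 / gg ε (θ j)))).re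

theorem tendsto_RX (hm : Odd m) {u : ℤ} (hu : u ≠ 0) (hu2 : |(u : ℝ)| ≠ 2 ^ (m + 1)) :
    Tendsto (fun ε => RX m u ε) (𝓝[>] 0) (𝓝 (MMo m (|(u : ℝ)| / 2 ^ (m + 1)))) := by
  have h1 := tendsto_main hm hu hu2
  have h2 := tendsto_finsetSum (Finset.univ : Finset (Fin m)) fun k _ =>
    tendsto_err hm hu hu2 k
  have h3 := h1.add h2
  rw [Finset.sum_const_zero, add_zero] at h3
  exact h3

theorem sign_mul {u u' : ℤ} (hm : Odd m) (huu : u * u' = (-4) ^ (m + 1)) :
    (|(u : ℝ)| / u) * (|(u' : ℝ)| / u') = 1 := by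
  have h1 : ((u : ℝ) * u') = 4 ^ (m + 1) := by
    have := congrArg (Int.cast : ℤ → ℝ) huu
    push_cast at this
    rw [this, (hm.add_one).neg_pow]
  have h2 : (0 : ℝ) < 4 ^ (m + 1) := by positivity
  have hne : (u : ℝ) * u' ≠ 0 := by rw [h1]; exact h2.ne'
  rw [div_mul_div_comm, ← abs_mul, h1, abs_of_pos h2]
  field_simp

theorem main (hm : Odd m) (hm3 : 3 ≤ m) {u : ℤ} (hdvd : u ∣ 4 ^ (m + 1))
    (hu2 : |u| ≠ 2 ^ (m + 1)) :
    GeomIrreducible m u ∧ Smooth m u ∧
    ∃ (ξ : Fin 2 → MilnorK (m + 1) (CoordRing m u)) (γ : Fin 2 → Torus m (CoordRing m u)),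
      (∀ p, P4a177s.Admissible (ξ p) ∧ P4a177s.UnramifiedEverywhere (ξ p) ∧ Invariant (ξ p)) ∧
      (P4a177s.regulatorMatrix ξ γ).det ≠ 0 := by
  obtain ⟨k, hk⟩ := hdvd
  have h4 : (4 : ℤ) ^ (m + 1) ≠ 0 := pow_ne_zero _ (by norm_num)
  have hu : u ≠ 0 := by
    rintro rfl
    rw [zero_mul] at hk
    exact h4 hk
  have hk0 : k ≠ 0 := by
    rintro rfl
    rw [mul_zero] at hk
    exact h4 hk
  refine ⟨geomIrreducible (by omega) hu, smootho hm hu hu2, ?_⟩
  -- the parameter of the isomorphic hypersurface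
  obtain ⟨u', hu', huu⟩ : ∃ u' : ℤ, u' ≠ 0 ∧ u * u' = (-4) ^ (m + 1) := by
    refine ⟨k, hk0, ?_⟩
    rw [(hm.add_one).neg_pow, hk]
  have huu' : u' * u = (-4) ^ (m + 1) := by rw [mul_comm]; exact huu
  set v : ℝ := |(u : ℝ)| / 2 ^ (m + 1) with hv
  set v' : ℝ := |(u' : ℝ)| / 2 ^ (m + 1) with hv'
  have huR : (u : ℝ) ≠ 0 := by exact_mod_cast hu
  have hv0 : 0 < v := by
    rw [hv]
    have := abs_pos.2 huR
    positivity
  have hprod : |(u : ℝ)| * |(u' : ℝ)| = 4 ^ (m + 1) := by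
    rw [← abs_mul]
    have := congrArg (Int.cast : ℤ → ℝ) huu
    push_cast at this
    rw [this, abs_pow]
    norm_num
  have hvv : v' = v⁻¹ := by
    have h2 : v * v' = 1 := by
      rw [hv, hv', div_mul_div_comm, hprod, ← mul_pow]
      norm_num
    exact eq_inv_of_mul_eq_one_right h2
  have hu2R : |(u : ℝ)| ≠ 2 ^ (m + 1) := by
    intro h
    apply hu2
    exact_mod_cast h
  have hu2R' : |(u' : ℝ)| ≠ 2 ^ (m + 1) := by
    intro h
    apply hu2R
    rw [h, show (4 : ℝ) ^ (m + 1) = 2 ^ (m + 1) * 2 ^ (m + 1) by rw [← mul_pow]; norm_num] at hprod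
    exact mul_right_cancel₀ (pow_ne_zero _ (by norm_num)) hprod
  -- the limit of the determinants
  have hdet : MMo m v * MMo m v' - (-(|(u : ℝ)| / u) * NNo m v) * (-(|(u' : ℝ)| / u') * NNo m v') ≠
      0 := by
    have h1 := det_poso (m := m) (by omega) hv0
    have h2 := sign_mul hm huu
    rw [← hvv] at h1
    have h3 : MMo m v * MMo m v' - (-(|(u : ℝ)| / u) * NNo m v) * (-(|(u' : ℝ)| / u') * NNo m v') =
        MMo m v * MMo m v' - NNo m v * NNo m v' := by
      linear_combination (-(NNo m v * NNo m v')) * h2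
    rw [h3]
    exact (sub_pos.2 h1).ne'
  obtain ⟨e0, he00, he01, he0⟩ := good_cco (m := m) hm hu hu2R
  obtain ⟨e1, he10, he11, he1⟩ := good_cco (m := m) hm hu' hu2R'
  have hlim := ((tendsto_RX hm hu hu2R).mul (tendsto_RX hm hu' hu2R')).sub
    ((tendsto_w hm hu hu2R).mul (tendsto_w hm hu' hu2R'))
  have hev := hlim.eventually_ne hdet
  have hmem : Set.Ioo 0 (min e0 e1) ∈ 𝓝[>] (0 : ℝ) := Ioo_mem_nhdsGT (lt_min he00 he10)
  obtain ⟨ε, hr, hrI⟩ := (hev.and hmem).exists
  have hε0 : 0 < ε := hrI.1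
  have hea : ε < e0 := hrI.2.trans_le (min_le_left _ _)
  have heb : ε < e1 := hrI.2.trans_le (min_le_right _ _)
  obtain ⟨γ, hγ, hγ0⟩ := exists_toruso (m := m) (u := u) hε0 (he0 ε hε0 hea)
  obtain ⟨γ', hγ', hγ0'⟩ := exists_toruso (m := m) (u := u') hε0 (he1 ε hε0 heb)
  have f1' : regFun γ (x m u) = RX m u ε := reg_xo hu hε0 (he0 ε hε0 hea) γ hγ hγ0
  have f2' : regFun γ (w m hu) = _ := reg_wo hu hε0 (he0 ε hε0 hea) γ hγ hγ0
  have f3' : regFun γ' (x m u') = RX m u' ε := reg_xo hu' hε0 (he1 ε hε0 heb) γ' hγ' hγ0'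
  have f4' : regFun γ' (w m hu') = _ := reg_wo hu' hε0 (he1 ε hε0 heb) γ' hγ' hγ0'
  rw [← f1', ← f2', ← f3', ← f4'] at hr
  -- the morphism from the hypersurface `u'` to the hypersurface `u`
  set φ : CoordRing m u →+* CoordRing m u' := swap hu' huu' with hφ
  refine ⟨![symb fun i => -(x m u i) ^ 2, symb fun i => -(w m hu i) ^ 2], ![γ, comap φ γ'], ?_, ?_⟩
  · intro p
    fin_cases p
    · exact ⟨admissible_sq _ (x_on m u), unramified_sq _ (x_on m u), inv_x⟩
    · exact ⟨admissible_sq _ (mob_on hu huu _ _), unramified_sq _ (mob_on hu huu _ _), inv_w hu⟩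
  · have f1 : reg γ (symb fun i => -(x m u i) ^ 2) = 2 ^ (m + 1) * regFun γ (x m u) := by
      rw [reg_symb, regFun_neg_sq]
    have f2 : reg γ (symb fun i => -(w m hu i) ^ 2) = 2 ^ (m + 1) * regFun γ (w m hu) := by
      rw [reg_symb, regFun_neg_sq]
    have heven : Even (m + 1) := hm.add_one
    have g1 : regFun (comap φ γ') (x m u) = regFun γ' (w m hu') := by
      have h := regFun_scale (comap φ γ') γ' (x m u) (w m hu') 1 (fun k θ => ?_) (fun k θ l => ?_)
      · rwa [one_pow, one_mul] at h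
      · rw [one_mul]
        show Real.log ‖γ'.emb θ (φ (x m u k : CoordRing m u))‖ = _
        rw [hφ, swap_x]
      · rw [Complex.ofReal_one, one_mul]
        show -Complex.I * (fderiv ℝ (fun θ => γ'.emb θ (φ (x m u k : CoordRing m u))) θ
          (Pi.single l 1) / γ'.emb θ (φ (x m u k : CoordRing m u))) = _
        rw [hφ, swap_x]
        rfl
    have g2 : regFun (comap φ γ') (w m hu) = regFun γ' (x m u') := by
      have hw : ∀ k, φ (w m hu k : CoordRing m u) = ((-(x m u' k)⁻¹ : (CoordRing m u')ˣ) :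
          CoordRing m u') := fun k => by
        rw [← (Units.isUnit (x m u' k)).mul_left_inj, swap_w (m := m) hu' hu huu' k,
          Units.val_neg, neg_mul, Units.inv_mul]
      have h := regFun_scale (comap φ γ') γ' (w m hu) (x m u') (-1) (fun k θ => ?_)
        (fun k θ l => ?_)
      · rw [h, heven.neg_one_pow, one_mul]
      · show Real.log ‖γ'.emb θ (φ (w m hu k : CoordRing m u))‖ = _
        rw [hw k, Units.val_neg, map_neg, norm_neg]
        have hne : γ'.emb θ (x m u' k : CoordRing m u') ≠ 0 := emb_ne_zero γ' _ θ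
        have h3 : γ'.emb θ (((x m u' k)⁻¹ : (CoordRing m u')ˣ) : CoordRing m u') =
            (γ'.emb θ (x m u' k : CoordRing m u'))⁻¹ := by
          refine eq_inv_of_mul_eq_one_left ?_
          rw [← map_mul, Units.inv_mul, map_one]
        rw [h3, norm_inv, Real.log_inv]
        ring
      · have h4 : dlogRow (comap φ γ') (w m hu k) θ = dlogRow γ' (-(x m u' k)⁻¹) θ := by
          funext l
          show -Complex.I * (fderiv ℝ (fun θ => γ'.emb θ (φ (w m hu k : CoordRing m u))) θ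
            (Pi.single l 1) / γ'.emb θ (φ (w m hu k : CoordRing m u))) = _
          rw [hw k]
          rfl
        rw [h4, P4a177t.dlogRow_neg, dlogRow_inv']
        simp
    have f3 : reg (comap φ γ') (symb fun i => -(x m u i) ^ 2) =
        2 ^ (m + 1) * regFun γ' (w m hu') := by
      rw [reg_symb, regFun_neg_sq, g1]
    have f4 : reg (comap φ γ') (symb fun i => -(w m hu i) ^ 2) =
        2 ^ (m + 1) * regFun γ' (x m u') := by
      rw [reg_symb, regFun_neg_sq, g2]
    rw [Matrix.det_fin_two]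
    simp only [P4a177s.regulatorMatrix, Matrix.of_apply, Matrix.cons_val_zero, Matrix.cons_val_one]
    rw [f1, f2, f3, f4]
    intro h0
    apply hr
    have h2 : (2 : ℝ) ^ (m + 1) * 2 ^ (m + 1) ≠ 0 := by positivity
    have h3 : (2 : ℝ) ^ (m + 1) * 2 ^ (m + 1) * (regFun γ (x m u) * regFun γ' (x m u') -
        regFun γ (w m hu) * regFun γ' (w m hu')) = 0 := by
      linear_combination h0
    exact (mul_eq_zero.1 h3).resolve_left h2

end

end P4a177o
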