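import Pool.Agent.Lib.P4a177t.Ana
import Mathlib.Analysis.SpecialFunctions.Arcosh

/-!
# The functions which occur in the regulator integrals, the case of odd dimension

`m` is odd, the parameter `u` is a nonzero integer with `|u| ≠ 2^(m+1)`, `v = |u| / 2^(m+1)`.
The coordinates `x_1, …, x_m` run on the closed curve `crv ε`, which is close to the unit circle,
passes inside `1` and `-1`, and is chosen in such a way that the number `1 + 4 / c^2`, `c = u / ∏
(x_j - 1 / x_j)`, turns in a fixed direction around `0` when it comes close to `0`. The coordinate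
`x_0` is a solution of `x_0 - 1 / x_0 = c`, in which the square root of `1 + 4 / c^2` is taken with a
cut in the direction `e^(3πi/4)`.
-/

set_option autoImplicit false

namespace P4a177o

open P4a177h P4a177t Function MeasureTheory
open scoped Real

noncomputable section

/-- the logarithm of the absolute value of the point of the curve -/
def aa (ε t : ℝ) : ℝ := -ε ^ 2 - ε / 2 * Real.sin (2 * t)

/-- the derivative of `aa ε` -/
def da (ε t : ℝ) : ℝ := -ε * Real.cos (2 * t)

/-- the closed curve `exp (aa ε t + i t)` -/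
def crv (ε t : ℝ) : ℂ := Complex.exp ((aa ε t : ℂ) + t * Complex.I)

/-- `-i` times the logarithmic derivative of the curve -/
def tf (ε t : ℝ) : ℂ := 1 - (da ε t : ℂ) * Complex.I

/-- `z - 1 / z` for the point `z` of the curve -/
def gg (ε t : ℝ) : ℂ := crv ε t - (crv ε t)⁻¹

/-- `-i` times the logarithmic derivative of `gg` -/
def lg (ε t : ℝ) : ℂ := tf ε t * (crv ε t + (crv ε t)⁻¹) / gg ε t

/-- the product of the `z_j - 1 / z_j` -/
def PPo {m : ℕ} (ε : ℝ) (θ : Fin m → ℝ) : ℂ := ∏ j, gg ε (θ j)

/-- the quotient `u / ∏ (z_j - 1 / z_j)` -/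
def cco {m : ℕ} (u : ℤ) (ε : ℝ) (θ : Fin m → ℝ) : ℂ := (u : ℂ) / PPo ε θ

/-- `1 + 4 / c ^ 2` is not on the ray from `0` in the direction `e^(3πi/4)` -/
def Goodo (c : ℂ) : Prop := c ≠ 0 ∧ (1 + 4 / c ^ 2) * (1 + Complex.I) ∈ Complex.slitPlane

/-- the square root of `1 + 4 / c ^ 2` with the cut in the direction `e^(3πi/4)` -/
def srt (c : ℂ) : ℂ := Complex.exp
  ((Complex.log ((1 + 4 / c ^ 2) * (1 + Complex.I)) - Complex.log (1 + Complex.I)) / 2)

/-- a solution `z` of `z - 1 / z = c` -/
def rto (c : ℂ) : ℂ := c / 2 * (1 + srt c)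

/-- the logarithm of `z / c = (1 + srt c) / 2`, for `z = rto c` -/
def BBo (c : ℂ) : ℂ := Complex.log ((1 + srt c) / 2)

/-- the logarithm of `(z - 1) / (z + 1)` for `z = rto c` -/
def LLo (c : ℂ) : ℂ := Complex.log ((rto c - 1) / (rto c + 1))

/-- the limit of the first integral -/
def MMo (m : ℕ) (v : ℝ) : ℝ := ∫ θ in box m, Real.arcosh (max 1 (v / SS θ))

/-- the limit of the second integral, up to sign (`Real.arcsin y = π / 2` for `y ≥ 1`) -/
def NNo (m : ℕ) (v : ℝ) : ℝ := ∫ θ in box m, Real.arcsin (SS θ / v) / SS θ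

end

end P4a177o
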