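import Pool.Agent.Lib.P4a177o.Ana

/-!
# MODULE P4a177o.CrvA: elementary facts on the curve (est. 1.5 h)

Write `a = aa ε t`, `z = crv ε t = exp (a + i t)`.
PROOF.
* `crv_ne_zero`: `Complex.exp_ne_zero`. `crv_periodic`: `sin (2 (t + 2π)) = sin (2 t)` and
  `Complex.exp_periodic`. `crv_contDiff`: composition of smooth functions (`ContDiff.cexp`,
  `Complex.ofRealCLM.contDiff`, `Real.contDiff_sin`, `fun_prop` may do it).
* `crv_hasDerivAt`: `aa ε` has the derivative `da ε`, so `z' = (da + i) z` and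
  `i * tf = i (1 - i da) = i + da`. `log_norm_crv`: `Complex.norm_exp`, `Real.log_exp`.
* `gg_eq`: `gg = exp w - exp (-w) = 2 sinh w`, `w = a + i t` (`Complex.exp_neg`, `Complex.sinh`).
* `gg_normSq`: `sinh (a + i t) = sinh a cos t + i cosh a sin t` (`Complex.sinh_add`,
  `Complex.sinh_mul_I`, `Complex.cosh_mul_I`), `|.|^2 = sinh^2 a cos^2 t + cosh^2 a sin^2 t =
  sinh^2 a + sin^2 t`.
* `le_norm_gg`, `abs_aa_le_norm_gg`: from `gg_normSq`; `|a| ≤ |sinh a|`
  (`Real.self_le_sinh_iff`, `Real.abs_sinh`, ...).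
* `gg_ne_zero`: otherwise `sin t = 0` and `sinh a = 0`, so `a = 0` and `sin (2 t) = 2 sin t cos t = 0`,
  so `a = -ε^2`, contradiction.
* `norm_gg_le`, `norm_crv_add_le`: `‖z‖ + ‖z⁻¹‖ = exp a + exp (-a) ≤ 3`, `|a| ≤ ε ≤ 1/10`
  (`Real.abs_exp_sub_one_le`, or `exp (1/10) ≤ 3/2`...).
* the bounds of `aa`, `da`, `tf`: clear (`|a| ≤ ε^2 + ε/2`, `‖tf‖ ≤ 1 + ε`).
-/

set_option autoImplicit false

namespace P4a177o

open P4a177h P4a177t Function MeasureTheory Filter Topology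
open scoped Real

theorem crv_ne_zero (ε t : ℝ) : crv ε t ≠ 0 := Complex.exp_ne_zero _

namespace CrvAAux

theorem aa_per (ε t : ℝ) : aa ε (t + 2 * π) = aa ε t := by
  unfold aa
  have h : 2 * (t + 2 * π) = 2 * t + (2 : ℕ) * (2 * π) := by push_cast; ring
  rw [h, Real.sin_add_nat_mul_two_pi]

theorem aa_deriv (ε t : ℝ) : HasDerivAt (aa ε) (da ε t) t := by
  unfold aa da
  have h1 : HasDerivAt (fun t : ℝ => 2 * t) 2 t := by simpa using (hasDerivAt_id t).const_mul (2 : ℝ)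
  have h2 : HasDerivAt (fun t : ℝ => Real.sin (2 * t)) (Real.cos (2 * t) * 2) t := h1.sin
  have h3 := (h2.const_mul (ε / 2)).const_sub (-ε ^ 2)
  refine h3.congr_deriv ?_
  ring

theorem aa_cont (ε : ℝ) : Continuous (aa ε) := by
  unfold aa
  fun_prop

theorem exp_le {a : ℝ} (h : |a| ≤ 1 / 10) : Real.exp a ≤ 3 / 2 := by
  have h1 := Real.abs_exp_sub_one_le (x := a) (by linarith)
  have h2 := le_abs_self (Real.exp a - 1)
  linarith

theorem abs_le {ε : ℝ} (h0 : 0 < ε) (h1 : ε ≤ 1 / 10) (t : ℝ) : |aa ε t| ≤ ε := by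
  unfold aa
  rw [_root_.abs_le]
  have h2 := Real.neg_one_le_sin (2 * t)
  have h3 := Real.sin_le_one (2 * t)
  constructor
  · nlinarith
  · nlinarith

end CrvAAux

open CrvAAux

theorem crv_periodic (ε t : ℝ) : crv ε (t + 2 * π) = crv ε t := by
  unfold crv
  rw [aa_per]
  have h : ((aa ε t : ℂ) + ((t + 2 * π : ℝ) : ℂ) * Complex.I) =
      ((aa ε t : ℂ) + t * Complex.I) + 2 * π * Complex.I := by push_cast; ring
  rw [h, Complex.exp_periodic]

theorem crv_contDiff (ε : ℝ) : ContDiff ℝ 2 (crv ε) := by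
  unfold crv
  have h1 : ContDiff ℝ 2 (aa ε) := by
    unfold aa
    fun_prop
  have h2 : ContDiff ℝ 2 (fun t : ℝ => (aa ε t : ℂ)) := Complex.ofRealCLM.contDiff.comp h1
  have h3 : ContDiff ℝ 2 (fun t : ℝ => (t : ℂ)) := Complex.ofRealCLM.contDiff
  exact (h2.add (h3.mul contDiff_const)).cexp

theorem crv_hasDerivAt (ε t : ℝ) : HasDerivAt (crv ε) (Complex.I * tf ε t * crv ε t) t := by
  have h1 : HasDerivAt (fun t : ℝ => (aa ε t : ℂ)) (da ε t : ℂ) t := (aa_deriv ε t).ofReal_comp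
  have h2 : HasDerivAt (fun t : ℝ => (t : ℂ) * Complex.I) (1 * Complex.I) t := by
    have := (hasDerivAt_id t).ofReal_comp
    simpa using this.mul_const Complex.I
  have h3 := (h1.add h2).cexp
  refine h3.congr_deriv ?_
  unfold tf crv
  simp only [Pi.add_apply]
  have hI : Complex.I * Complex.I = -1 := Complex.I_mul_I
  linear_combination (-(da ε t : ℂ) * Complex.exp ((aa ε t : ℂ) + t * Complex.I)) * (-hI)

theorem aa_hasDerivAt (ε t : ℝ) : HasDerivAt (aa ε) (da ε t) t := aa_deriv ε t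

theorem aa_periodic (ε t : ℝ) : aa ε (t + 2 * π) = aa ε t := aa_per ε t

theorem log_norm_crv (ε t : ℝ) : Real.log ‖crv ε t‖ = aa ε t := by
  unfold crv
  rw [Complex.norm_exp, Real.log_exp]
  simp

theorem gg_eq (ε t : ℝ) : gg ε t = 2 * Complex.sinh ((aa ε t : ℂ) + t * Complex.I) := by
  unfold gg crv
  rw [← Complex.exp_neg, Complex.sinh]
  ring

theorem gg_normSq (ε t : ℝ) :
    ‖gg ε t‖ ^ 2 = 4 * (Real.sinh (aa ε t) ^ 2 + Real.sin t ^ 2) := by
  rw [gg_eq, norm_mul, mul_pow, Complex.sq_norm (Complex.sinh _)]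
  have h : Complex.sinh ((aa ε t : ℂ) + t * Complex.I) =
      ((Real.sinh (aa ε t) * Real.cos t : ℝ) : ℂ) + ((Real.cosh (aa ε t) * Real.sin t : ℝ) : ℂ) * Complex.I := by
    rw [Complex.sinh_add, Complex.sinh_mul_I, Complex.cosh_mul_I]
    push_cast
    ring
  rw [h, Complex.normSq_add_mul_I]
  have h1 := Real.cosh_sq (aa ε t)
  have h2 := Real.sin_sq_add_cos_sq t
  simp only [Complex.norm_ofNat]
  rw [mul_pow, mul_pow, h1]
  have h3 : Real.cos t ^ 2 = 1 - Real.sin t ^ 2 := by linarith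
  rw [h3]
  ring

theorem le_norm_gg (ε t : ℝ) : 2 * |Real.sin t| ≤ ‖gg ε t‖ := by
  have h := gg_normSq ε t
  rw [← pow_le_pow_iff_left₀ (by positivity) (norm_nonneg _) two_ne_zero, h, mul_pow, sq_abs]
  nlinarith [sq_nonneg (Real.sinh (aa ε t))]

theorem abs_aa_le_norm_gg (ε t : ℝ) : 2 * |aa ε t| ≤ ‖gg ε t‖ := by
  have h := gg_normSq ε t
  have h1 : |aa ε t| ≤ |Real.sinh (aa ε t)| := by
    rw [Real.abs_sinh]
    exact Real.self_le_sinh_iff.2 (abs_nonneg _)
  have h2 : |aa ε t| ^ 2 ≤ Real.sinh (aa ε t) ^ 2 := by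
    rw [← sq_abs (Real.sinh _)]
    exact pow_le_pow_left₀ (abs_nonneg _) h1 2
  rw [← pow_le_pow_iff_left₀ (by positivity) (norm_nonneg _) two_ne_zero, h, mul_pow]
  nlinarith [sq_nonneg (Real.sin t)]

theorem gg_ne_zero {ε : ℝ} (h0 : 0 < ε) (t : ℝ) : gg ε t ≠ 0 := by
  intro h
  have h1 := gg_normSq ε t
  rw [h, norm_zero] at h1
  have h2 : Real.sin t ^ 2 = 0 := by nlinarith [sq_nonneg (Real.sin t), sq_nonneg (Real.sinh (aa ε t))]
  have h3 : Real.sinh (aa ε t) ^ 2 = 0 := by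
    nlinarith [sq_nonneg (Real.sin t), sq_nonneg (Real.sinh (aa ε t))]
  have h4 : Real.sin t = 0 := by simpa using h2
  have h5 : Real.sinh (aa ε t) = 0 := by simpa using h3
  rw [Real.sinh_eq_zero] at h5
  unfold aa at h5
  rw [Real.sin_two_mul, h4] at h5
  simp at h5
  exact h0.ne' h5

theorem abs_aa_le {ε : ℝ} (h0 : 0 < ε) (h1 : ε ≤ 1 / 10) (t : ℝ) : |aa ε t| ≤ ε := CrvAAux.abs_le h0 h1 t

theorem abs_da_le {ε : ℝ} (h0 : 0 < ε) (t : ℝ) : |da ε t| ≤ ε := by
  unfold da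
  rw [_root_.abs_le]
  have h2 := Real.neg_one_le_cos (2 * t)
  have h3 := Real.cos_le_one (2 * t)
  constructor
  · nlinarith
  · nlinarith

theorem norm_crv_add_le {ε : ℝ} (h0 : 0 < ε) (h1 : ε ≤ 1 / 10) (t : ℝ) :
    ‖crv ε t + (crv ε t)⁻¹‖ ≤ 3 := by
  have h2 := abs_aa_le h0 h1 t
  have h3 : ‖crv ε t‖ ≤ 3 / 2 := by
    unfold crv
    rw [Complex.norm_exp]
    simp only [Complex.add_re, Complex.ofReal_re, Complex.mul_re, Complex.I_re, mul_zero,
      Complex.ofReal_im, Complex.I_im, mul_one, sub_self, add_zero]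
    exact exp_le (h2.trans h1)
  have h4 : ‖(crv ε t)⁻¹‖ ≤ 3 / 2 := by
    unfold crv
    rw [← Complex.exp_neg, Complex.norm_exp]
    simp only [Complex.neg_re, Complex.add_re, Complex.ofReal_re, Complex.mul_re, Complex.I_re, mul_zero,
      Complex.ofReal_im, Complex.I_im, mul_one, sub_self, add_zero]
    apply exp_le
    rw [abs_neg]
    exact h2.trans h1
  linarith [norm_add_le (crv ε t) (crv ε t)⁻¹]

theorem norm_gg_le {ε : ℝ} (h0 : 0 < ε) (h1 : ε ≤ 1 / 10) (t : ℝ) : ‖gg ε t‖ ≤ 3 := by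
  have h2 := abs_aa_le h0 h1 t
  have h3 : ‖crv ε t‖ ≤ 3 / 2 := by
    unfold crv
    rw [Complex.norm_exp]
    simp only [Complex.add_re, Complex.ofReal_re, Complex.mul_re, Complex.I_re, mul_zero,
      Complex.ofReal_im, Complex.I_im, mul_one, sub_self, add_zero]
    exact exp_le (h2.trans h1)
  have h4 : ‖(crv ε t)⁻¹‖ ≤ 3 / 2 := by
    unfold crv
    rw [← Complex.exp_neg, Complex.norm_exp]
    simp only [Complex.neg_re, Complex.add_re, Complex.ofReal_re, Complex.mul_re, Complex.I_re, mul_zero,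
      Complex.ofReal_im, Complex.I_im, mul_one, sub_self, add_zero]
    apply exp_le
    rw [abs_neg]
    exact h2.trans h1
  unfold gg
  linarith [norm_sub_le (crv ε t) (crv ε t)⁻¹]

theorem norm_tf_le {ε : ℝ} (h0 : 0 < ε) (h1 : ε ≤ 1 / 10) (t : ℝ) : ‖tf ε t‖ ≤ 2 := by
  unfold tf
  have h2 := abs_da_le h0 t
  have h3 : ‖(da ε t : ℂ) * Complex.I‖ = |da ε t| := by
    rw [norm_mul, Complex.norm_I, mul_one, Complex.norm_real, Real.norm_eq_abs]
  have h4 := norm_sub_le (1 : ℂ) ((da ε t : ℂ) * Complex.I)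
  rw [h3, norm_one] at h4
  linarith

theorem da_continuous (ε : ℝ) : Continuous (da ε) := by
  unfold da
  fun_prop

theorem tf_continuous (ε : ℝ) : Continuous (tf ε) := by
  unfold tf
  exact continuous_const.sub ((Complex.continuous_ofReal.comp (da_continuous ε)).mul continuous_const)

theorem aa_continuous (ε : ℝ) : Continuous (aa ε) := aa_cont ε

theorem gg_continuous (ε : ℝ) : Continuous (gg ε) := by
  unfold gg
  have h := (crv_contDiff ε).continuous
  exact h.sub (h.inv₀ (crv_ne_zero ε))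

theorem lg_continuous {ε : ℝ} (h0 : 0 < ε) : Continuous (lg ε) := by
  unfold lg
  have h := (crv_contDiff ε).continuous
  exact ((tf_continuous ε).mul (h.add (h.inv₀ (crv_ne_zero ε)))).div (gg_continuous ε) (gg_ne_zero h0)

end P4a177o
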