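import Pool.Agent.Lib.P4a177o.Ana

/-!
# The one-dimensional integrals
-/

set_option autoImplicit false

namespace P4a177o

open MeasureTheory
open scoped Real

noncomputable section

/-- the first integral for `m = 1` -/
def hA (x : ℝ) : ℝ := ∫ t in Set.Icc 0 (2 * π), Real.arcosh (max 1 (x / |Real.sin t|))

/-- the second integral for `m = 1` -/
def hB (x : ℝ) : ℝ := ∫ t in Set.Icc 0 (2 * π), Real.arcsin (x * |Real.sin t|) / |Real.sin t|

end

end P4a177o
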