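import Pool.Agent.Lib.P4a177o.HDef
import Pool.Agent.Lib.P4a177t.LogInt

/-!
# MODULE P4a177o.IneqA: splitting off one variable (est. 1.5 h)

PROOF.
* Integrability of `arcosh (max 1 (v / SS θ))` on the box: measurable, and for `y ≥ 1`
  `0 ≤ arcosh y = log (y + √(y^2 - 1)) ≤ log (2 y) ≤ log (1 + 2 y)`, so it is at most
  `log (1 + 2 (1 + v / SS θ))`, e.g. `≤ log (3 + 2 v / SS θ) ≤ log 3 + log (1 + v / SS θ)`
  (`P4a177t.integrable_log`). Nonnegative.
* Integrability of `arcsin (SS θ / v) / SS θ`: `0 ≤ arcsin y ≤ 2 y` for `0 ≤ y` (for `y ≤ 1` by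
  Jordan's inequality `y = sin (arcsin y) ≥ (2/π) arcsin y`, `Real.mul_le_sin`; for `y > 1`,
  `arcsin y = π / 2 ≤ 2 ≤ 2 y`), so it is between `0` and `2 / v`; measurable, the box has finite
  measure.
* `MMo_succ`, `NNo_succ`: `box (m + 1)` is the product of `Set.Icc 0 (2π)` and `box m` under
  `MeasurableEquiv.piFinSuccAbove (fun _ => ℝ) 0` (`MeasureTheory.volume_preserving_piFinSuccAbove`),
  `SS θ = |sin (θ 0)| * SS (tail θ)` (`Fin.prod_univ_succ`), `MeasureTheory.setIntegral_prod` (with
  the factors exchanged, `integral_prod_symm` or `setIntegral_prod_swap`), integrability from the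
  first part. `v / (|sin t| S) = (v / S) / |sin t|`; `arcsin (|sin t| S / v) / (|sin t| S) =
  (arcsin ((S / v) |sin t|) / |sin t|) / S` (also for `S = 0`: both sides are zero).
* `integrable_hA`, `integrable_hB`: `Integrable.integral_prod_right` (or `left`) of the same functions
  for `m + 1`.
-/

set_option autoImplicit false

namespace P4a177o

open P4a177h P4a177t Function MeasureTheory
open scoped Real

namespace IneqAAux

/-- Lebesgue measure on one period. -/
noncomputable def mu : Measure ℝ := volume.restrict (Set.Icc (0 : ℝ) (2 * π))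

instance : SigmaFinite mu := by unfold mu; infer_instance

theorem vol_box (m : ℕ) :
    (volume.restrict (box m) : Measure (Fin m → ℝ)) = Measure.pi fun _ => mu := by
  have h1 : box m = Set.pi Set.univ fun _ : Fin m => Set.Icc (0 : ℝ) (2 * π) := by
    unfold box
    rw [← Set.pi_univ_Icc]
    rfl
  rw [h1, volume_pi, Measure.restrict_pi_pi]
  rfl

theorem fubini (m : ℕ) (F : (Fin (m + 1) → ℝ) → ℝ) (hF : IntegrableOn F (box (m + 1))) :
    IntegrableOn (fun θ : Fin m → ℝ => ∫ t in Set.Icc 0 (2 * π), F (Fin.cons t θ)) (box m) ∧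
      ∫ θ in box (m + 1), F θ =
        ∫ θ in box m, ∫ t in Set.Icc 0 (2 * π), F (Fin.cons t θ) := by
  have hmp := measurePreserving_piFinSuccAbove (α := fun _ : Fin (m + 1) => ℝ) (fun _ => mu) 0
  have hmp' := hmp.symm
  have hcomp : ∀ p : ℝ × (Fin m → ℝ),
      F ((MeasurableEquiv.piFinSuccAbove (fun _ : Fin (m + 1) => ℝ) 0).symm p) =
        F (Fin.cons p.1 p.2) := by
    intro p
    congr 1
    show Fin.insertNth (α := fun _ : Fin (m + 1) => ℝ) (0 : Fin (m + 1)) p.1 p.2 = _
    exact Fin.insertNth_zero' p.1 p.2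
  unfold IntegrableOn at hF ⊢
  rw [vol_box] at hF
  have h1 : Integrable (fun p : ℝ × (Fin m → ℝ) => F (Fin.cons p.1 p.2))
      (mu.prod (Measure.pi fun _ => mu)) := by
    have := hmp'.integrable_comp_emb (MeasurableEquiv.measurableEmbedding _) (g := F)
    refine (this.2 hF).congr (Filter.Eventually.of_forall fun p => ?_)
    exact hcomp p
  constructor
  · rw [vol_box]
    exact h1.integral_prod_right
  · rw [vol_box, vol_box]
    have h2 := hmp'.integral_comp (MeasurableEquiv.measurableEmbedding _) F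
    rw [← h2]
    have h3 : (fun p => F ((MeasurableEquiv.piFinSuccAbove (fun _ : Fin (m + 1) => ℝ) 0).symm p)) =
        fun p : ℝ × (Fin m → ℝ) => F (Fin.cons p.1 p.2) := funext hcomp
    rw [h3]
    exact integral_prod_symm _ h1

theorem SS_cons {m : ℕ} (t : ℝ) (θ : Fin m → ℝ) :
    SS (Fin.cons t θ : Fin (m + 1) → ℝ) = |Real.sin t| * SS θ := by
  unfold SS
  rw [Fin.prod_univ_succ]
  simp

theorem arcosh_le {y : ℝ} (hy : 1 ≤ y) : Real.arcosh y ≤ Real.log (2 * y) := by
  unfold Real.arcosh
  refine Real.log_le_log ?_ ?_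
  · positivity
  · have : √(y ^ 2 - 1) ≤ y := by
      rw [Real.sqrt_le_left (by linarith)]
      linarith
    linarith

theorem arcosh_max_le {y : ℝ} (hy : 0 ≤ y) :
    Real.arcosh (max 1 y) ≤ Real.log 2 + Real.log (1 + y) := by
  have h1 : (1 : ℝ) ≤ max 1 y := le_max_left _ _
  refine (arcosh_le h1).trans ?_
  rw [← Real.log_mul two_ne_zero (by positivity)]
  refine Real.log_le_log (by positivity) ?_
  have : max 1 y ≤ 1 + y := max_le (by linarith) (by linarith)
  linarith

theorem measurable_arcosh : Measurable Real.arcosh := by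
  unfold Real.arcosh
  fun_prop

theorem arcsin_nonneg {y : ℝ} (hy : 0 ≤ y) : 0 ≤ Real.arcsin y := Real.arcsin_nonneg.2 hy

theorem arcsin_le {y : ℝ} (hy : 0 ≤ y) : Real.arcsin y ≤ 2 * y := by
  rcases le_total y 1 with h | h
  · have h1 := Real.mul_le_sin (arcsin_nonneg hy) (Real.arcsin_le_pi_div_two y)
    rw [Real.sin_arcsin (by linarith) h] at h1
    have h2 : 2 / π * Real.arcsin y = 2 * Real.arcsin y / π := by ring
    rw [h2, div_le_iff₀ Real.pi_pos] at h1
    have h3 := Real.pi_le_four
    nlinarith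
  · have h1 := Real.arcsin_le_pi_div_two y
    have h3 := Real.pi_le_four
    linarith

end IneqAAux

open IneqAAux

theorem integrableOn_M (m : ℕ) {v : ℝ} (hv : 0 < v) :
    IntegrableOn (fun θ : Fin m → ℝ => Real.arcosh (max 1 (v / SS θ))) (box m) := by
  have hfin : volume (box m) ≠ ⊤ := by
    unfold box
    exact isCompact_Icc.measure_lt_top.ne
  have hg : IntegrableOn (fun θ : Fin m → ℝ => Real.log 2 + Real.log (1 + v / SS θ)) (box m) :=
    Integrable.add (integrableOn_const hfin) (integrable_log m hv.le)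
  refine Integrable.mono' hg ?_ ?_
  · refine Measurable.aestronglyMeasurable ?_
    have h1 := measurable_SS m
    exact measurable_arcosh.comp (by fun_prop)
  · refine Filter.Eventually.of_forall fun θ => ?_
    have h1 : (1 : ℝ) ≤ max 1 (v / SS θ) := le_max_left _ _
    rw [Real.norm_of_nonneg (Real.arcosh_nonneg h1)]
    exact arcosh_max_le (div_nonneg hv.le (SS_nonneg θ))

theorem integrableOn_N (m : ℕ) {v : ℝ} (hv : 0 < v) :
    IntegrableOn (fun θ : Fin m → ℝ => Real.arcsin (SS θ / v) / SS θ) (box m) := by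
  have hfin : volume (box m) ≠ ⊤ := by
    unfold box
    exact isCompact_Icc.measure_lt_top.ne
  have hg : IntegrableOn (fun _ : Fin m → ℝ => 2 / v) (box m) := integrableOn_const hfin
  refine Integrable.mono' hg ?_ ?_
  · refine Measurable.aestronglyMeasurable ?_
    have h1 := measurable_SS m
    exact (Real.measurable_arcsin.comp (h1.div_const v)).div h1
  · refine Filter.Eventually.of_forall fun θ => ?_
    have h0 := SS_nonneg θ
    have h1 : 0 ≤ SS θ / v := div_nonneg h0 hv.le
    rw [Real.norm_of_nonneg (div_nonneg (arcsin_nonneg h1) h0)]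
    rcases h0.eq_or_lt with h | h
    · rw [← h, div_zero]
      positivity
    · rw [div_le_iff₀ h]
      refine (arcsin_le h1).trans (le_of_eq ?_)
      ring

namespace IneqAAux

theorem M_cons (m : ℕ) (v : ℝ) (θ : Fin m → ℝ) :
    (∫ t in Set.Icc 0 (2 * π), Real.arcosh (max 1 (v / SS (Fin.cons t θ : Fin (m + 1) → ℝ)))) =
      hA (v / SS θ) := by
  unfold hA
  refine integral_congr_ae (Filter.Eventually.of_forall fun t => ?_)
  simp only
  rw [SS_cons, mul_comm, ← div_div]

theorem N_cons (m : ℕ) (v : ℝ) (θ : Fin m → ℝ) :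
    (∫ t in Set.Icc 0 (2 * π), Real.arcsin (SS (Fin.cons t θ : Fin (m + 1) → ℝ) / v) /
      SS (Fin.cons t θ : Fin (m + 1) → ℝ)) = hB (SS θ / v) / SS θ := by
  unfold hB
  rw [← integral_div]
  refine integral_congr_ae (Filter.Eventually.of_forall fun t => ?_)
  simp only
  rw [SS_cons, div_div]
  congr 2
  ring

end IneqAAux

theorem MMo_succ (m : ℕ) {v : ℝ} (hv : 0 < v) :
    MMo (m + 1) v = ∫ θ in box m, hA (v / SS θ) := by
  unfold MMo
  rw [(fubini m _ (integrableOn_M (m + 1) hv)).2]
  simp_rw [M_cons]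

theorem NNo_succ (m : ℕ) {v : ℝ} (hv : 0 < v) :
    NNo (m + 1) v = ∫ θ in box m, hB (SS θ / v) / SS θ := by
  unfold NNo
  rw [(fubini m _ (integrableOn_N (m + 1) hv)).2]
  simp_rw [N_cons]

theorem integrable_hA (m : ℕ) {v : ℝ} (hv : 0 < v) :
    IntegrableOn (fun θ : Fin m → ℝ => hA (v / SS θ)) (box m) := by
  have h := (fubini m _ (integrableOn_M (m + 1) hv)).1
  simp_rw [M_cons] at h
  exact h

theorem integrable_hB (m : ℕ) {v : ℝ} (hv : 0 < v) :
    IntegrableOn (fun θ : Fin m → ℝ => hB (SS θ / v) / SS θ) (box m) := by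
  have h := (fubini m _ (integrableOn_N (m + 1) hv)).1
  simp_rw [N_cons] at h
  exact h

end P4a177o
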