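import Pool.Agent.Lib.P4a177o.HDef

/-!
# MODULE P4a177o.IneqB: the two one-dimensional integrals are equal (est. 2 h)

PROOF. Let `I = Set.Ioo 0 (π/2)`. For `y > 0`:
(1) `∫ φ in I, (if y < sin φ then 1 / sin φ else 0) = arcosh (max 1 (1 / y))`. If `y ≥ 1` the integrand
is zero on `I`. If `y < 1`, `φ0 = arcsin y`, the integral is `∫ φ in φ0..π/2, 1 / sin φ =
- log (tan (φ0 / 2))` (the derivative of `log (tan (φ/2))` is `1 / sin φ`; `tan (π/4) = 1`), and
`tan (φ0/2) = sin φ0 / (1 + cos φ0) = y / (1 + √(1 - y^2))`, so it is `log ((1 + √(1 - y^2)) / y) =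
log (1/y + √((1/y)^2 - 1)) = arcosh (1/y)`. (Alternative: the derivative of
`- arcosh (1 / sin φ)`, or of `log ((1 - cos φ) / sin φ)`, is `1/sin φ`.)
(2) `∫ φ in I, (if sin φ < y then 1 else 0) = arcsin y` (`arcsin` is `π/2` for `y ≥ 1`): the set
`{φ ∈ I | sin φ < y}` is `Ioo 0 (arcsin y)` (`Real.sin_lt_iff_lt_arcsin`/`Real.lt_arcsin_iff...`).
(3) Symmetry: for every function `f` of `|sin t|`: `∫ t in Icc 0 (2π), f |sin t| =
4 ∫ t in I, f (sin t)` (period `π` of `|sin|` and symmetry with respect to `π/2`; no integrability is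
needed if one uses interval integrals and `intervalIntegral.integral_comp_sub_left` etc. together with
`intervalIntegral.integral_add_adjacent_intervals`, for which integrability on `(0, π/2)` is enough:
both integrands are bounded by the integrable function `log (1 + K / |sin|)`, or by `2x`,
respectively; or do the symmetry with set integrals of the measurable
nonnegative functions via `lintegral`).
(4) For `x > 0`, `G (a, b) = if sin a < x * sin b then 1 / sin b else 0` on `I × I`, measurable
and nonnegative. By (1) with `y = sin a / x`: `hA x = 4 ∫ a in I, ∫ b in I, G (a, b)`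
(`arcosh (max 1 (x / sin a))`). By (2) with `y = x sin b`: `hB x = 4 ∫ b in I, ∫ a in I, G (a, b)`
(`∫ a in I, G (a,b) = arcsin (x sin b) / sin b`). The two are equal by Fubini-Tonelli:
`MeasureTheory.integral_integral_swap`, `G` is integrable on `I × I` (`integrable_prod_iff'`: the inner
integral over `a` is `arcsin (x sin b) / sin b ≤ 2 x`, bounded on `I`; `arcsin y ≤ 2 y` for `y ≥ 0`).
-/

set_option autoImplicit false

namespace P4a177o

open P4a177h P4a177t Function MeasureTheory
open scoped Real

namespace IneqBAux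

theorem symm_int (F : ℝ → ℝ) (h0 : IntegrableOn (fun t => F |Real.sin t|) (Set.Ioo 0 (π / 2))) :
    ∫ t in Set.Icc 0 (2 * π), F |Real.sin t| = 4 * ∫ t in Set.Ioo 0 (π / 2), F |Real.sin t| := by
  have hpi := Real.pi_pos
  set f : ℝ → ℝ := fun t => F |Real.sin t| with hf
  have hrefl : ∀ t, f (π - t) = f t := by
    intro t
    simp only [hf, Real.sin_pi_sub]
  have hshift : ∀ t, f (t - π) = f t := by
    intro t
    simp only [hf, Real.sin_sub_pi, abs_neg]
  have i0 : IntervalIntegrable f volume 0 (π / 2) :=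
    (intervalIntegrable_iff_integrableOn_Ioo_of_le (by linarith)).2 h0
  have i1 : IntervalIntegrable f volume (π / 2) π := by
    have := (i0.comp_sub_left π).symm
    simp only [hrefl] at this
    have e1 : π - π / 2 = π / 2 := by ring
    rw [e1, sub_zero] at this
    exact this
  have i01 : IntervalIntegrable f volume 0 π := i0.trans i1
  have i2 : IntervalIntegrable f volume π (2 * π) := by
    have := i01.comp_sub_right π
    simp only [hshift] at this
    rw [zero_add, ← two_mul] at this
    exact this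
  have e1 : ∫ t in (π / 2)..π, f t = ∫ t in (0 : ℝ)..(π / 2), f t := by
    have := intervalIntegral.integral_comp_sub_left (a := π / 2) (b := π) f π
    simp only [hrefl] at this
    rw [this]
    congr 1 <;> ring
  have e01 : ∫ t in (0 : ℝ)..π, f t = 2 * ∫ t in (0 : ℝ)..(π / 2), f t := by
    rw [← intervalIntegral.integral_add_adjacent_intervals i0 i1, e1]
    ring
  have e2 : ∫ t in π..(2 * π), f t = ∫ t in (0 : ℝ)..π, f t := by
    have := intervalIntegral.integral_comp_sub_right (a := π) (b := 2 * π) f π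
    simp only [hshift] at this
    rw [this]
    congr 1 <;> ring
  have e02 : ∫ t in (0 : ℝ)..(2 * π), f t = 4 * ∫ t in (0 : ℝ)..(π / 2), f t := by
    rw [← intervalIntegral.integral_add_adjacent_intervals i01 i2, e2, e01]
    ring
  rw [integral_Icc_eq_integral_Ioc, ← intervalIntegral.integral_of_le (by linarith), e02,
    intervalIntegral.integral_of_le (by linarith), integral_Ioc_eq_integral_Ioo]

theorem sin_pos_I {t : ℝ} (ht : t ∈ Set.Ioo 0 (π / 2)) : 0 < Real.sin t :=
  Real.sin_pos_of_pos_of_lt_pi ht.1 (by linarith [ht.2, Real.pi_pos])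

theorem arcosh_inv {y : ℝ} (hy : 0 < y) :
    Real.arcosh (1 / y) = Real.log (1 + √(1 - y ^ 2)) - Real.log y := by
  have h0 : 0 ≤ √(1 - y ^ 2) := Real.sqrt_nonneg _
  unfold Real.arcosh
  rw [← Real.log_div (by positivity) hy.ne']
  congr 1
  have e : (1 / y) ^ 2 - 1 = (1 - y ^ 2) / y ^ 2 := by
    field_simp
  rw [e, Real.sqrt_div' _ (by positivity), Real.sqrt_sq hy.le]
  ring

/-- antiderivative of `1 / sin` -/
theorem int_inv_sin {φ : ℝ} (h0 : 0 < φ) (h1 : φ ≤ π / 2) :
    ∫ t in φ..(π / 2), 1 / Real.sin t = Real.log (1 + Real.cos φ) - Real.log (Real.sin φ) := by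
  have hpi := Real.pi_pos
  have hs : ∀ t ∈ Set.uIcc φ (π / 2), 0 < Real.sin t ∧ 0 ≤ Real.cos t := by
    intro t ht
    rw [Set.uIcc_of_le h1] at ht
    exact ⟨Real.sin_pos_of_pos_of_lt_pi (by linarith [ht.1]) (by linarith [ht.2]),
      Real.cos_nonneg_of_neg_pi_div_two_le_of_le (by linarith [ht.1]) ht.2⟩
  have hd : ∀ t ∈ Set.uIcc φ (π / 2), HasDerivAt (fun t => Real.log (Real.sin t) -
      Real.log (1 + Real.cos t)) (1 / Real.sin t) t := by
    intro t ht
    obtain ⟨h2, h3⟩ := hs t ht
    have h4 : (1 : ℝ) + Real.cos t ≠ 0 := by positivity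
    have d1 := (Real.hasDerivAt_sin t).log h2.ne'
    have d2 := ((Real.hasDerivAt_cos t).const_add 1).log h4
    have h5 := Real.sin_sq_add_cos_sq t
    have h6 : 1 / Real.sin t = Real.cos t / Real.sin t - -Real.sin t / (1 + Real.cos t) := by
      rw [div_sub_div _ _ h2.ne' h4, div_eq_div_iff h2.ne' (mul_ne_zero h2.ne' h4)]
      linear_combination (-Real.sin t) * h5
    rw [h6]
    exact d1.sub d2
  rw [intervalIntegral.integral_eq_sub_of_hasDerivAt hd]
  · rw [Real.sin_pi_div_two, Real.cos_pi_div_two]
    simp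
  · apply ContinuousOn.intervalIntegrable
    apply ContinuousOn.div continuousOn_const Real.continuous_sin.continuousOn
    intro t ht
    exact (hs t ht).1.ne'

theorem int_b {y : ℝ} (hy : 0 < y) :
    ∫ φ in Set.Ioo 0 (π / 2), (if y < Real.sin φ then 1 / Real.sin φ else 0) =
      Real.arcosh (max 1 (1 / y)) := by
  have hpi := Real.pi_pos
  rcases le_or_gt 1 y with h | h
  · have h1 : max 1 (1 / y) = 1 := max_eq_left (by rw [div_le_one hy]; exact h)
    rw [h1, Real.arcosh_zero]
    have : ∀ φ ∈ Set.Ioo (0 : ℝ) (π / 2), (if y < Real.sin φ then 1 / Real.sin φ else 0) = 0 := by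
      intro φ _
      rw [if_neg]
      have := Real.sin_le_one φ
      linarith
    rw [setIntegral_congr_fun measurableSet_Ioo this]
    simp
  · have h1 : max 1 (1 / y) = 1 / y := max_eq_right (by rw [le_div_iff₀ hy]; linarith)
    rw [h1, arcosh_inv hy]
    have ha0 : 0 < Real.arcsin y := Real.arcsin_pos.2 hy
    have ha1 : Real.arcsin y ≤ π / 2 := Real.arcsin_le_pi_div_two y
    have hset : Set.Ioo (0 : ℝ) (π / 2) ∩ {φ | y < Real.sin φ} = Set.Ioo (Real.arcsin y) (π / 2) := by
      ext φ
      simp only [Set.mem_inter_iff, Set.mem_Ioo, Set.mem_ofPred_eq]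
      constructor
      · rintro ⟨⟨h2, h3⟩, h4⟩
        exact ⟨(Real.arcsin_lt_iff_lt_sin' ⟨by linarith, h3.le⟩).2 h4, h3⟩
      · rintro ⟨h2, h3⟩
        exact ⟨⟨by linarith, h3⟩, (Real.arcsin_lt_iff_lt_sin' ⟨by linarith, h3.le⟩).1 h2⟩
    have e : (fun φ => if y < Real.sin φ then 1 / Real.sin φ else 0) =
        Set.indicator {φ | y < Real.sin φ} (fun φ => 1 / Real.sin φ) := by
      funext φ
      simp only [Set.indicator, Set.mem_ofPred_eq]
    rw [e, setIntegral_indicator (measurableSet_lt measurable_const Real.measurable_sin), hset,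
      ← integral_Ioc_eq_integral_Ioo, ← intervalIntegral.integral_of_le ha1, int_inv_sin ha0 ha1,
      Real.sin_arcsin (by linarith) h.le, Real.cos_arcsin]

theorem int_a {y : ℝ} (hy : 0 < y) :
    ∫ φ in Set.Ioo 0 (π / 2), (if Real.sin φ < y then (1 : ℝ) else 0) = Real.arcsin y := by
  have hpi := Real.pi_pos
  have ha0 : 0 < Real.arcsin y := Real.arcsin_pos.2 hy
  have ha1 : Real.arcsin y ≤ π / 2 := Real.arcsin_le_pi_div_two y
  have hset : Set.Ioo (0 : ℝ) (π / 2) ∩ {φ | Real.sin φ < y} = Set.Ioo 0 (Real.arcsin y) := by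
    ext φ
    simp only [Set.mem_inter_iff, Set.mem_Ioo, Set.mem_ofPred_eq]
    constructor
    · rintro ⟨⟨h2, h3⟩, h4⟩
      exact ⟨h2, (Real.lt_arcsin_iff_sin_lt' ⟨by linarith, h3⟩).2 h4⟩
    · rintro ⟨h2, h3⟩
      exact ⟨⟨h2, by linarith⟩, (Real.lt_arcsin_iff_sin_lt' ⟨by linarith, by linarith⟩).1 h3⟩
  have e : (fun φ => if Real.sin φ < y then (1 : ℝ) else 0) =
      Set.indicator {φ | Real.sin φ < y} (fun _ => (1 : ℝ)) := by
    funext φ
    simp only [Set.indicator, Set.mem_ofPred_eq]
  rw [e, setIntegral_indicator (measurableSet_lt Real.measurable_sin measurable_const), hset]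
  simp [ha0.le]

theorem arcsin_le_two_mul {y : ℝ} (hy : 0 ≤ y) : Real.arcsin y ≤ 2 * y := by
  have hpi := Real.pi_pos
  have hpi4 := Real.pi_le_four
  rcases le_or_gt 1 y with h | h
  · rw [Real.arcsin_of_one_le h]
    linarith
  · have h1 := Real.mul_le_sin (Real.arcsin_nonneg.2 hy) (Real.arcsin_le_pi_div_two y)
    rw [Real.sin_arcsin (by linarith) h.le] at h1
    have h2 : Real.arcsin y ≤ π / 2 * y := by
      calc Real.arcsin y = π / 2 * (2 / π * Real.arcsin y) := by field_simp
        _ ≤ π / 2 * y := by gcongr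
    nlinarith

/-- the function of two variables -/
noncomputable def G (x a b : ℝ) : ℝ := if Real.sin a < x * Real.sin b then 1 / Real.sin b else 0

theorem int_G_a {x : ℝ} (hx : 0 < x) {b : ℝ} (hb : b ∈ Set.Ioo 0 (π / 2)) :
    ∫ a in Set.Ioo 0 (π / 2), G x a b = Real.arcsin (x * |Real.sin b|) / |Real.sin b| := by
  have hs := sin_pos_I hb
  have e : ∀ a, G x a b = (if Real.sin a < x * Real.sin b then (1 : ℝ) else 0) * (1 / Real.sin b) := by
    intro a
    unfold G
    split_ifs <;> simp
  simp only [e]
  rw [integral_mul_const, int_a (by positivity), abs_of_pos hs]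
  ring

theorem int_G_b {x : ℝ} (hx : 0 < x) {a : ℝ} (ha : a ∈ Set.Ioo 0 (π / 2)) :
    ∫ b in Set.Ioo 0 (π / 2), G x a b = Real.arcosh (max 1 (x / |Real.sin a|)) := by
  have hs := sin_pos_I ha
  have e : ∀ b, G x a b = (if Real.sin a / x < Real.sin b then 1 / Real.sin b else 0) := by
    intro b
    unfold G
    have : (Real.sin a < x * Real.sin b) ↔ (Real.sin a / x < Real.sin b) := by
      rw [div_lt_iff₀' hx]
    simp only [this]
  simp only [e]
  rw [int_b (by positivity), abs_of_pos hs, one_div_div]

theorem integrable_G {x : ℝ} (hx : 0 < x) :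
    Integrable (uncurry (G x)) ((volume.restrict (Set.Ioo 0 (π / 2))).prod
      (volume.restrict (Set.Ioo 0 (π / 2)))) := by
  have hm : Measurable (uncurry (G x)) := by
    unfold uncurry G
    apply Measurable.ite
    · exact measurableSet_lt (Real.measurable_sin.comp measurable_fst)
        (measurable_const.mul (Real.measurable_sin.comp measurable_snd))
    · exact measurable_const.div (Real.measurable_sin.comp measurable_snd)
    · exact measurable_const
  rw [integrable_prod_iff' hm.aestronglyMeasurable]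
  constructor
  · refine (ae_restrict_iff' measurableSet_Ioo).2 (Filter.Eventually.of_forall fun b hb => ?_)
    have hs := sin_pos_I hb
    refine Integrable.of_bound (hm.comp (measurable_id.prodMk measurable_const)).aestronglyMeasurable
      (1 / Real.sin b) (Filter.Eventually.of_forall fun a => ?_)
    show ‖G x a b‖ ≤ 1 / Real.sin b
    unfold G
    split_ifs
    · rw [Real.norm_of_nonneg (by positivity)]
    · rw [norm_zero]
      positivity
  · have e : ∀ b ∈ Set.Ioo (0 : ℝ) (π / 2), ∫ a in Set.Ioo 0 (π / 2), ‖uncurry (G x) (a, b)‖ =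
        Real.arcsin (x * |Real.sin b|) / |Real.sin b| := by
      intro b hb
      have hs := sin_pos_I hb
      rw [← int_G_a hx hb]
      congr 1
      funext a
      show ‖G x a b‖ = G x a b
      apply Real.norm_of_nonneg
      unfold G
      split_ifs
      · positivity
      · exact le_rfl
    have hi : IntegrableOn (fun b => Real.arcsin (x * |Real.sin b|) / |Real.sin b|)
        (Set.Ioo 0 (π / 2)) := by
      refine Integrable.of_bound (Measurable.aestronglyMeasurable ?_) (2 * x)
        (Filter.Eventually.of_forall fun b => ?_)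
      · apply Measurable.div
        · exact Real.measurable_arcsin.comp (measurable_const.mul (Real.measurable_sin.abs))
        · exact Real.measurable_sin.abs
      · have h0 : 0 ≤ |Real.sin b| := abs_nonneg _
        have h1 : 0 ≤ Real.arcsin (x * |Real.sin b|) := Real.arcsin_nonneg.2 (by positivity)
        rw [Real.norm_of_nonneg (by positivity)]
        rcases h0.eq_or_lt with h2 | h2
        · rw [← h2, div_zero]
          positivity
        · rw [div_le_iff₀ h2]
          have := arcsin_le_two_mul (y := x * |Real.sin b|) (by positivity)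
          linarith
    refine (integrable_congr ?_).2 hi
    exact (ae_restrict_iff' measurableSet_Ioo).2 (Filter.Eventually.of_forall e)

end IneqBAux

open IneqBAux

theorem hA_eq_hB {x : ℝ} (hx : 0 < x) : hA x = hB x := by
  have hG := integrable_G hx
  have hA1 : ∀ a ∈ Set.Ioo (0 : ℝ) (π / 2), ∫ b in Set.Ioo 0 (π / 2), G x a b =
      Real.arcosh (max 1 (x / |Real.sin a|)) := fun a ha => int_G_b hx ha
  have hB1 : ∀ b ∈ Set.Ioo (0 : ℝ) (π / 2), ∫ a in Set.Ioo 0 (π / 2), G x a b =
      Real.arcsin (x * |Real.sin b|) / |Real.sin b| := fun b hb => int_G_a hx hb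
  have iA : IntegrableOn (fun t => Real.arcosh (max 1 (x / |Real.sin t|))) (Set.Ioo 0 (π / 2)) := by
    refine (integrable_congr ?_).1 hG.integral_prod_left
    exact (ae_restrict_iff' measurableSet_Ioo).2 (Filter.Eventually.of_forall hA1)
  have iB : IntegrableOn (fun t => Real.arcsin (x * |Real.sin t|) / |Real.sin t|)
      (Set.Ioo 0 (π / 2)) := by
    refine (integrable_congr ?_).1 hG.integral_prod_right
    exact (ae_restrict_iff' measurableSet_Ioo).2 (Filter.Eventually.of_forall hB1)
  unfold hA hB
  rw [symm_int (fun s => Real.arcosh (max 1 (x / s))) iA,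
    symm_int (fun s => Real.arcsin (x * s) / s) iB]
  congr 1
  rw [← setIntegral_congr_fun measurableSet_Ioo hA1, ← setIntegral_congr_fun measurableSet_Ioo hB1]
  exact integral_integral_swap hG

end P4a177o
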