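import Pool.Agent.Lib.P4a177o.IneqA
import Pool.Agent.Lib.P4a177o.IneqB
import Pool.Agent.Lib.P4a177o.HDef

/-!
# Monotonicity of the one-dimensional integrals

PROOF. Write `h = hA = hB` on `(0, ∞)` (`hA_eq_hB`), `κ x = h x / x`.
(1) `hA` is strictly increasing on `(0, ∞)`: the integrand `arcosh (max 1 (x / |sin t|))` is
nondecreasing in `x`, and strictly increasing where `x / |sin t| > 1`, a set of positive measure.
(2) `κ` is strictly increasing on `(0, 1]`: `hB x / x = ∫ arcsin (x |sin t|) / (x |sin t|)`, and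
`arcsin y / y` is strictly increasing on `(0, 1]`, by strict concavity of `sin` on `[0, π]`.
(3) `h_key`: with `x = v`, `y = v / S`, `x < y`: `h x * κ (1/y) < h y * κ (1/x)`. Cases.
`y ≤ 1`: `h x = x κ x`, `κ (1/y) = y h (1/y)`; `x κ x * y h (1/y) < y κ y * x h (1/x)` as `κ x < κ y` and
`h (1/y) < h (1/x)`. `x ≥ 1`: `h x < h y` and `κ (1/y) < κ (1/x)`, where `1/y < 1/x ≤ 1`.
`x < 1 < y`: `κ x < κ 1 = h 1 < h (1/x)`, i.e. `h x < x h (1/x) = κ (1/x)`; and
`κ (1/y) < κ 1 = h 1 < h y`; multiply the two: `h x κ (1/y) < κ (1/x) h y`.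
-/

set_option autoImplicit false

namespace P4a177o

open P4a177h P4a177t Function MeasureTheory
open scoped Real

namespace IneqCAux

theorem pos_of {f : ℝ → ℝ} (hf : IntegrableOn f (Set.Icc 0 (2 * π))) (h0 : ∀ t, 0 ≤ f t)
    {a : ℝ} (ha : 0 < a) (ha1 : a ≤ 1) (hpos : ∀ t ∈ Set.Ioo 0 a, 0 < f t) :
    0 < ∫ t in Set.Icc 0 (2 * π), f t := by
  rw [integral_pos_iff_support_of_nonneg_ae (Filter.Eventually.of_forall h0) hf]
  have h1 : Set.Ioo 0 a ⊆ support f ∩ Set.Icc 0 (2 * π) := by
    intro t ht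
    refine ⟨(hpos t ht).ne', ht.1.le, ?_⟩
    have := Real.pi_gt_three
    linarith [ht.2]
  have h2 : (0 : ENNReal) < volume (Set.Ioo 0 a) := by
    rw [Real.volume_Ioo]
    simpa using ha
  refine h2.trans_le ?_
  rw [Measure.restrict_apply' measurableSet_Icc]
  exact measure_mono h1

theorem lt_of {f g : ℝ → ℝ} (hf : IntegrableOn f (Set.Icc 0 (2 * π)))
    (hg : IntegrableOn g (Set.Icc 0 (2 * π))) (h0 : ∀ t, f t ≤ g t)
    {a : ℝ} (ha : 0 < a) (ha1 : a ≤ 1) (hpos : ∀ t ∈ Set.Ioo 0 a, f t < g t) :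
    ∫ t in Set.Icc 0 (2 * π), f t < ∫ t in Set.Icc 0 (2 * π), g t := by
  have h := pos_of (hg.sub hf) (fun t => sub_nonneg.2 (h0 t)) ha ha1
    (fun t ht => sub_pos.2 (hpos t ht))
  simp only [Pi.sub_apply] at h
  rw [integral_sub hg hf] at h
  linarith

theorem measurable_arcosh : Measurable Real.arcosh := by
  have h : Real.arcosh = fun x => Real.log (x + √(x ^ 2 - 1)) := by
    funext x
    rfl
  rw [h]
  exact Real.measurable_log.comp
    (measurable_id.add (((measurable_id.pow_const 2).sub_const 1).sqrt))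

theorem arcosh_le {y : ℝ} (hy : 1 ≤ y) : Real.arcosh y ≤ Real.log (2 * y) := by
  unfold Real.arcosh
  refine Real.log_le_log (by positivity) ?_
  have : √(y ^ 2 - 1) ≤ y := by
    rw [Real.sqrt_le_left (by linarith)]
    linarith
  linarith

theorem int_log : IntegrableOn (fun t : ℝ => Real.log |Real.sin t|) (Set.Icc 0 (2 * π)) := by
  have h3 := intervalIntegrable_log_sin (a := 0) (b := 2 * π)
  rw [intervalIntegrable_iff_integrableOn_Icc_of_le (by positivity)] at h3
  refine h3.congr (Filter.Eventually.of_forall fun x => ?_)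
  simp only [Function.comp, Real.log_abs]

theorem int_A {x : ℝ} (hx : 0 < x) :
    IntegrableOn (fun t => Real.arcosh (max 1 (x / |Real.sin t|))) (Set.Icc 0 (2 * π)) := by
  have hfin : volume (Set.Icc 0 (2 * π)) ≠ ⊤ := isCompact_Icc.measure_lt_top.ne
  have hg : IntegrableOn (fun t : ℝ => Real.log (2 * (1 + x)) - Real.log |Real.sin t|)
      (Set.Icc 0 (2 * π)) := (integrableOn_const hfin).sub int_log
  refine Integrable.mono' hg ?_ ?_
  · exact (measurable_arcosh.comp (measurable_const.max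
      (measurable_const.div (Real.measurable_sin.norm)))).aestronglyMeasurable
  · refine Filter.Eventually.of_forall fun t => ?_
    rw [Real.norm_of_nonneg (Real.arcosh_nonneg (le_max_left _ _))]
    refine (arcosh_le (le_max_left _ _)).trans ?_
    rcases (abs_nonneg (Real.sin t)).eq_or_lt with h | h
    · rw [← h, div_zero, max_eq_left zero_le_one, Real.log_zero, sub_zero, mul_one]
      exact Real.log_le_log (by norm_num) (by linarith)
    · rw [← Real.log_div (by positivity) h.ne']
      refine Real.log_le_log (by positivity) ?_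
      have h1 := Real.abs_sin_le_one t
      rw [mul_div_assoc]
      refine mul_le_mul_of_nonneg_left ?_ (by norm_num)
      refine max_le ?_ ?_
      · rw [le_div_iff₀ h]
        linarith
      · exact div_le_div_of_nonneg_right (by linarith) h.le

theorem arcsin_le {y : ℝ} (hy : 0 ≤ y) : Real.arcsin y ≤ 2 * y := by
  have hpi4 := Real.pi_le_four
  rcases le_or_gt 1 y with h | h
  · have := Real.arcsin_le_pi_div_two y
    linarith
  · have h1 : 0 ≤ Real.arcsin y := Real.arcsin_nonneg.2 hy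
    have h2 := Real.mul_le_sin h1 (Real.arcsin_le_pi_div_two y)
    rw [Real.sin_arcsin (by linarith) h.le] at h2
    have h3 := Real.pi_pos
    have h4 : Real.arcsin y ≤ π / 2 * y := by
      calc Real.arcsin y = π / 2 * (2 / π * Real.arcsin y) := by field_simp
        _ ≤ π / 2 * y := mul_le_mul_of_nonneg_left h2 (by positivity)
    nlinarith

theorem int_B {x : ℝ} (hx : 0 < x) :
    IntegrableOn (fun t => Real.arcsin (x * |Real.sin t|) / |Real.sin t|)
      (Set.Icc 0 (2 * π)) := by
  have hfin : volume (Set.Icc 0 (2 * π)) ≠ ⊤ := isCompact_Icc.measure_lt_top.ne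
  refine Integrable.mono' (integrableOn_const hfin (C := 2 * x)) ?_ ?_
  · exact ((Real.measurable_arcsin.comp (measurable_const.mul Real.measurable_sin.norm)).div
      Real.measurable_sin.norm).aestronglyMeasurable
  · refine Filter.Eventually.of_forall fun t => ?_
    have h0 : 0 ≤ x * |Real.sin t| := mul_nonneg hx.le (abs_nonneg _)
    rw [Real.norm_of_nonneg (div_nonneg (Real.arcsin_nonneg.2 h0) (abs_nonneg _))]
    rcases (abs_nonneg (Real.sin t)).eq_or_lt with h | h
    · rw [← h, div_zero]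
      positivity
    · rw [div_le_iff₀ h]
      have := arcsin_le h0
      linarith

/-- `arcsin y / y` is strictly increasing -/
theorem arcsin_lt {p q : ℝ} (hp : 0 < p) (hpq : p < q) (hq : q ≤ 1) :
    Real.arcsin p < p / q * Real.arcsin q := by
  have hq0 : 0 < q := hp.trans hpq
  set φ := Real.arcsin q with hφ
  have h0 : 0 < φ := Real.arcsin_pos.2 hq0
  have h1 : φ ≤ π / 2 := Real.arcsin_le_pi_div_two q
  have hpi := Real.pi_pos
  set r := p / q with hr
  have hr0 : 0 < r := div_pos hp hq0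
  have hr1 : r < 1 := (div_lt_one hq0).2 hpq
  have hc := strictConcaveOn_sin_Icc.2 (x := φ) (y := 0) ⟨h0.le, by linarith⟩ ⟨le_rfl, hpi.le⟩
    h0.ne' hr0 (sub_pos.2 hr1) (by ring)
  simp only [smul_eq_mul, mul_zero, add_zero, Real.sin_zero] at hc
  rw [hφ, Real.sin_arcsin (by linarith) hq, ← hφ, hr, div_mul_cancel₀ _ hq0.ne', ← hr] at hc
  rw [Real.arcsin_lt_iff_lt_sin ⟨by linarith, by linarith⟩ ⟨by nlinarith, by nlinarith⟩]
  exact hc

theorem hA_lt {x y : ℝ} (hx : 0 < x) (hxy : x < y) : hA x < hA y := by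
  have hy : 0 < y := hx.trans hxy
  refine lt_of (int_A hx) (int_A hy) (fun t => ?_) (a := min y 1) (lt_min hy one_pos)
    (min_le_right _ _) (fun t ht => ?_)
  · rw [Real.arcosh_le_arcosh (lt_max_of_lt_left one_pos) (lt_max_of_lt_left one_pos)]
    exact max_le_max le_rfl (div_le_div_of_nonneg_right hxy.le (abs_nonneg _))
  · have ht1 : t < 1 := ht.2.trans_le (min_le_right _ _)
    have hs : 0 < Real.sin t :=
      Real.sin_pos_of_pos_of_lt_pi ht.1 (by linarith [Real.pi_gt_three])
    have hs2 : Real.sin t < y := (Real.sin_lt ht.1).trans (ht.2.trans_le (min_le_left _ _))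
    rw [abs_of_pos hs, Real.arcosh_lt_arcosh (lt_max_of_lt_left one_pos) (lt_max_of_lt_left one_pos)]
    have h1 : 1 < y / Real.sin t := (one_lt_div hs).2 hs2
    rw [max_eq_right h1.le]
    exact max_lt h1 (div_lt_div_of_pos_right hxy hs)

theorem hB_div_lt {x y : ℝ} (hx : 0 < x) (hxy : x < y) (hy : y ≤ 1) : hB x / x < hB y / y := by
  have hy0 : 0 < y := hx.trans hxy
  unfold hB
  rw [← integral_div, ← integral_div]
  have key : ∀ s : ℝ, 0 < s → s ≤ 1 → Real.arcsin (x * s) / s / x < Real.arcsin (y * s) / s / y := by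
    intro s hs hs1
    have h1 := arcsin_lt (mul_pos hx hs) (mul_lt_mul_of_pos_right hxy hs)
      (by nlinarith : y * s ≤ 1)
    rw [mul_div_mul_right _ _ hs.ne'] at h1
    rw [div_div, div_div, div_lt_div_iff₀ (by positivity) (by positivity)]
    calc Real.arcsin (x * s) * (s * y) < x / y * Real.arcsin (y * s) * (s * y) :=
          mul_lt_mul_of_pos_right h1 (by positivity)
      _ = Real.arcsin (y * s) * (s * x) := by field_simp
  refine lt_of ((int_B hx).div_const x) ((int_B hy0).div_const y) (fun t => ?_) (a := 1) one_pos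
    le_rfl (fun t ht => ?_)
  · rcases (abs_nonneg (Real.sin t)).eq_or_lt with h | h
    · simp only [← h, div_zero, zero_div, le_refl]
    · exact (key _ h (Real.abs_sin_le_one t)).le
  · have hs : 0 < Real.sin t :=
      Real.sin_pos_of_pos_of_lt_pi ht.1 (by linarith [Real.pi_gt_three, ht.2])
    exact key _ (abs_pos.2 hs.ne') (Real.abs_sin_le_one t)

end IneqCAux

open IneqCAux

theorem hA_pos {x : ℝ} (hx : 0 < x) : 0 < hA x := by
  refine pos_of (int_A hx) (fun t => Real.arcosh_nonneg (le_max_left _ _)) (a := min x 1)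
    (lt_min hx one_pos) (min_le_right _ _) (fun t ht => ?_)
  have ht1 : t < 1 := ht.2.trans_le (min_le_right _ _)
  have hs : 0 < Real.sin t :=
    Real.sin_pos_of_pos_of_lt_pi ht.1 (by linarith [Real.pi_gt_three])
  have hs2 : Real.sin t < x := (Real.sin_lt ht.1).trans (ht.2.trans_le (min_le_left _ _))
  rw [abs_of_pos hs]
  have h1 : 1 < x / Real.sin t := (one_lt_div hs).2 hs2
  rw [max_eq_right h1.le]
  exact Real.arcosh_pos h1

theorem h_key {v S : ℝ} (hv : 0 < v) (hS0 : 0 < S) (hS1 : S < 1) :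
    hA v * (hB (S / v) / S) < hA v⁻¹ * hA (v / S) := by
  -- `x = v`, `y = v / S`
  obtain ⟨y, hy⟩ : ∃ y, y = v / S := ⟨_, rfl⟩
  have hy0 : 0 < y := hy ▸ div_pos hv hS0
  have hvy : v < y := by
    rw [hy, lt_div_iff₀ hS0]
    nlinarith
  have hyi : 0 < y⁻¹ := inv_pos.2 hy0
  have hvi : 0 < v⁻¹ := inv_pos.2 hv
  have hyv : y⁻¹ < v⁻¹ := (inv_lt_inv₀ hy0 hv).2 hvy
  have hS : S / v = y⁻¹ := by rw [hy, inv_div]
  have hSS : S = v / y := by rw [hy]; field_simp
  rw [← hy, hS, hSS, ← hA_eq_hB hyi]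
  -- the function `κ`
  have kap : ∀ a b : ℝ, 0 < a → a < b → b ≤ 1 → hA a * b < hA b * a := by
    intro a b ha hab hb
    have h := hB_div_lt ha hab hb
    rw [← hA_eq_hB ha, ← hA_eq_hB (ha.trans hab), div_lt_div_iff₀ ha (ha.trans hab)] at h
    exact h
  have p1 := hA_pos hv
  have p2 := hA_pos hy0
  have p3 := hA_pos hvi
  have p4 := hA_pos hyi
  have goal' : hA v * (hA y⁻¹ * y) < hA v⁻¹ * hA y * v := by
    rcases le_or_gt y 1 with h1 | h1
    · have k1 := kap v y hv hvy h1
      have k2 := hA_lt hyi hyv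
      calc hA v * (hA y⁻¹ * y) = hA v * y * hA y⁻¹ := by ring
        _ < hA y * v * hA v⁻¹ := mul_lt_mul'' k1 k2 (by positivity) (by positivity)
        _ = hA v⁻¹ * hA y * v := by ring
    · rcases le_or_gt 1 v with h2 | h2
      · have k1 := kap y⁻¹ v⁻¹ hyi hyv (inv_le_one_of_one_le₀ h2)
        have k2 := hA_lt hv hvy
        have k3 : hA y⁻¹ * y < hA v⁻¹ * v := by
          have := mul_lt_mul_of_pos_right k1 (mul_pos hv hy0)
          have e1 : hA y⁻¹ * v⁻¹ * (v * y) = hA y⁻¹ * y := by field_simp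
          have e2 : hA v⁻¹ * y⁻¹ * (v * y) = hA v⁻¹ * v := by field_simp
          rwa [e1, e2] at this
        calc hA v * (hA y⁻¹ * y) < hA y * (hA v⁻¹ * v) :=
              mul_lt_mul'' k2 k3 (by positivity) (by positivity)
          _ = hA v⁻¹ * hA y * v := by ring
      · have k1 := kap v 1 hv h2 le_rfl
        have k2 := hA_lt one_pos (one_lt_inv₀ hv |>.2 h2)
        have k3 := kap y⁻¹ 1 hyi (inv_lt_one_of_one_lt₀ h1) le_rfl
        have k4 := hA_lt one_pos h1
        rw [mul_one] at k1 k3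
        have k5 : hA v < hA v⁻¹ * v := k1.trans (mul_lt_mul_of_pos_right k2 hv)
        have k6 : hA y⁻¹ * y < hA y := by
          have := mul_lt_mul_of_pos_right k3 hy0
          rw [mul_assoc, inv_mul_cancel₀ hy0.ne', mul_one] at this
          exact this.trans k4
        calc hA v * (hA y⁻¹ * y) < hA v⁻¹ * v * hA y :=
              mul_lt_mul'' k5 k6 (by positivity) (by positivity)
          _ = hA v⁻¹ * hA y * v := by ring
  rw [div_div_eq_mul_div, mul_div_assoc', div_lt_iff₀ hv]
  exact goal'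

end P4a177o
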