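import Pool.Agent.Lib.P4a177t.Defs

/-!
# Invariance under the group of the symmetries which preserve the holomorphic form
-/

set_option autoImplicit false

namespace P4a177o

open P4a177h P4a177t

/-- The element `ξ` of the Milnor K-group of the coordinate ring of the hypersurface
`∏ (x_i - 1 / x_i) = u` is fixed by all the symmetries `x_i ↦ s_i x_i ^ e_i` of the hypersurface,
where the `s_i` and the `e_i` are `1` or `-1`, `∏ s_i = 1` and `∏ e_i = 1`. -/
def Invariant {m : ℕ} {u : ℤ} (ξ : MilnorK (m + 1) (CoordRing m u)) : Prop :=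
  ∀ (σ : CoordRing m u →+* CoordRing m u) (s e : Fin (m + 1) → ℤˣ), ∏ i, s i = 1 → ∏ i, e i = 1 →
    (∀ i, σ (x m u i : CoordRing m u) = ((s i : ℤ) : CoordRing m u) *
      (((x m u i) ^ ((e i : ℤˣ) : ℤ) : (CoordRing m u)ˣ) : CoordRing m u)) →
    map σ ξ = ξ

end P4a177o
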