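import Pool.Agent.Lib.P4a177o.CrvA
import Pool.Agent.Lib.P4a177o.RootAO
import Pool.Agent.Lib.P4a177o.CcO
import Pool.Agent.Lib.P4a177o.Ibp
import Pool.Agent.Lib.P4a177t.TorReg

/-!
# MODULE P4a177o.RegXO: the regulator of `{x_i}` along the torus (est. 2 h; compare
# `Lib/P4a177t/TorReg.lean`)

PROOF. `hrow`: the row of `x_(j+1)` is `tf ε (θ j)` at `l = j` and zero otherwise (the embedding is
`crv ε (θ j)`, `crv_hasDerivAt`; `dlogRow = -i ∂_l f / f`); this is used in both regulator modules,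
so it is stated here.
`regFun_diag` with `a = x m u`, `f j = tf ε`; `(tf ε t).re = 1`, `log ‖x_(k+1)‖ = aa ε (θ k)`
(`log_norm_crv`). So
`regFun = ∫ log ‖x_0‖ re ∏ tf - ∑_k ∫ aa (θ k) (dlogRow (x 0) θ k).re C_k θ`, `C_k θ = re ∏_{j > k} tf (θ j)`.
In the coordinate ring let `b = x_0^2 / (x_0^2 - 1)` (a unit, `TorRegAux.sq`); by `x_on`,
`x_0 = b * u / ∏_j ((x_(j+1)^2 - 1) / x_(j+1))`, see `TorRegAux.dlogRow_x0`:
`dlogRow (x 0) = ∑_j dlogRow x_(j+1) - ∑_j dlogRow (-(x_(j+1)^2 - 1)) - dlogRow ((x_0^2-1)/x_0^2)`.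
`x_(j+1)^2 - 1 = x_(j+1) * g_j`, where `g_j = x_(j+1) - 1/x_(j+1)` has the value `gg ε (θ j)`, and
`-i ∂ gg / gg = lg` (derivative of `gg`: `i tf (z + 1/z)`), so
`(dlogRow (x 0) θ k).re = (dlogRow b θ k).re - (lg ε (θ k)).re`.
The value of `b` is `(1 + srt (cco u ε θ)) / 2` (`rto_div`), in the slit plane
(`one_add_srt_slit`), its logarithm is `BBo (cco u ε θ)`. `ibp` with `g = aa ε`, `g' = da ε`,
`C = C_k`: `∫ aa (dlogRow b).re C_k = - ∫ da im BBo C_k`. The sum gives the formula.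
-/

set_option autoImplicit false

namespace P4a177o

open P4a177h P4a177t Function MeasureTheory
open scoped Real

private theorem dlog_one {m : ℕ} {R : Type} [CommRing R] (γ : Torus m R) (v : Rˣ) (j : Fin m)
    (F F' : ℝ → ℂ) (hF : ∀ t, HasDerivAt F (F' t) t) (hv : ∀ θ, γ.emb θ (v : R) = F (θ j))
    (θ : Fin m → ℝ) (l : Fin m) :
    dlogRow γ v θ l = if l = j then -Complex.I * (F' (θ j) / F (θ j)) else 0 := by
  have h1 : HasFDerivAt (fun θ : Fin m → ℝ => θ j)
      (ContinuousLinearMap.proj (R := ℝ) (φ := fun _ : Fin m => ℝ) j) θ :=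
    (ContinuousLinearMap.proj (R := ℝ) (φ := fun _ : Fin m => ℝ) j).hasFDerivAt
  have h2 := (hF (θ j)).hasFDerivAt.comp θ h1
  have e : (fun θ => γ.emb θ (v : R)) = F ∘ fun θ : Fin m → ℝ => θ j := funext hv
  unfold dlogRow
  rw [e, h2.fderiv, hv]
  by_cases hl : l = j
  · subst hl
    simp
  · simp [hl]

theorem hrow_xo {m : ℕ} {u : ℤ} {ε : ℝ} (γ : Torus m (CoordRing m u))
    (hγ : ∀ (j : Fin m) (θ : Fin m → ℝ), γ.emb θ (x m u j.succ : CoordRing m u) = crv ε (θ j))
    (j : Fin m) (θ : Fin m → ℝ) (l : Fin m) :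
    dlogRow γ (x m u j.succ) θ l = if l = j then tf ε (θ j) else 0 := by
  rw [dlog_one γ (x m u j.succ) j (crv ε) _ (crv_hasDerivAt ε) (hγ j) θ l]
  refine if_congr Iff.rfl ?_ rfl
  have h := crv_ne_zero ε (θ j)
  field_simp
  rw [Complex.I_sq]
  ring

private theorem re_tf (ε t : ℝ) : (tf ε t).re = 1 := by
  simp [tf]

/-- the logarithmic derivative of `x_(j+1)` minus that of `x_(j+1) ^ 2 - 1` -/
private theorem row_lg {m : ℕ} {u : ℤ} (hu : u ≠ 0) {ε : ℝ} (h0 : 0 < ε)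
    (γ : Torus m (CoordRing m u))
    (hγ : ∀ (j : Fin m) (θ : Fin m → ℝ), γ.emb θ (x m u j.succ : CoordRing m u) = crv ε (θ j))
    (j : Fin m) (θ : Fin m → ℝ) (l : Fin m) :
    dlogRow γ (x m u j.succ) θ l - dlogRow γ (-TorRegAux.sq m hu j.succ) θ l =
      if l = j then -lg ε (θ j) else 0 := by
  have hd : ∀ t, HasDerivAt (fun t => crv ε t ^ 2 - 1)
      (2 * crv ε t * (Complex.I * tf ε t * crv ε t)) t := by
    intro t
    have := ((crv_hasDerivAt ε t).pow 2).sub_const 1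
    simpa using this
  have hv : ∀ θ, γ.emb θ ((TorRegAux.sq m hu j.succ : (CoordRing m u)ˣ) : CoordRing m u) =
      crv ε (θ j) ^ 2 - 1 := by
    intro θ
    rw [TorRegAux.sq_val, map_sub, map_pow, map_one, hγ]
  rw [hrow_xo γ hγ, TorRegAux.dlogRow_neg, dlog_one γ _ j (fun t => crv ε t ^ 2 - 1) _ hd hv θ l]
  by_cases hl : l = j
  · rw [if_pos hl, if_pos hl, if_pos hl]
    have h1 := crv_ne_zero ε (θ j)
    have h2 := gg_ne_zero h0 (θ j)
    unfold lg
    have h3 : crv ε (θ j) ^ 2 - 1 = crv ε (θ j) * gg ε (θ j) := by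
      unfold gg
      field_simp
    have h4 : gg ε (θ j) = crv ε (θ j) - (crv ε (θ j))⁻¹ := rfl
    simp only [h3]
    rw [sub_eq_iff_eq_add]
    field_simp
    rw [h4]
    field_simp
    ring_nf
    rw [Complex.I_sq]
    ring
  · rw [if_neg hl, if_neg hl, if_neg hl, sub_zero]

theorem reg_xo {m : ℕ} {u : ℤ} (hu : u ≠ 0) {ε : ℝ} (h0 : 0 < ε)
    (hg : ∀ θ : Fin m → ℝ, Goodo (cco u ε θ)) (γ : Torus m (CoordRing m u))
    (hγ : ∀ (j : Fin m) (θ : Fin m → ℝ), γ.emb θ (x m u j.succ : CoordRing m u) = crv ε (θ j))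
    (hγ0 : ∀ θ : Fin m → ℝ, γ.emb θ (x m u 0 : CoordRing m u) = rto (cco u ε θ)) :
    regFun γ (x m u) =
      (∫ θ in box m, Real.log ‖rto (cco u ε θ)‖ * (∏ j, tf ε (θ j)).re) +
      ∑ k : Fin m, ∫ θ in box m,
        (aa ε (θ k) * (lg ε (θ k)).re + da ε (θ k) * (BBo (cco u ε θ)).im) *
          (∏ j with k < j, tf ε (θ j)).re := by
  -- the unit `b`
  set b : (CoordRing m u)ˣ := (TorRegAux.sq m hu 0 * ((x m u 0) ^ 2)⁻¹)⁻¹ with hb
  have hbval : ∀ θ, γ.emb θ (b : CoordRing m u) = (1 + srt (cco u ε θ)) / 2 := by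
    intro θ
    have h1 := rto_div (hg θ)
    have h2 := rto_ne_zero (hg θ)
    have h3 : rto (cco u ε θ) ^ 2 - 1 ≠ 0 := by
      have h4 := emb_ne_zero γ (TorRegAux.sq m hu 0) θ
      rwa [TorRegAux.sq_val, map_sub, map_pow, map_one, hγ0] at h4
    rw [← h1, eq_div_iff h3]
    have h5 : b * TorRegAux.sq m hu 0 = (x m u 0) ^ 2 := by
      rw [hb, mul_inv, inv_inv, mul_comm, ← mul_assoc, mul_inv_cancel, one_mul]
    have h6 := congrArg (γ.emb θ) (congrArg (Units.val : (CoordRing m u)ˣ → CoordRing m u) h5)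
    rw [Units.val_mul, map_mul, Units.val_pow_eq_pow_val, map_pow, hγ0, TorRegAux.sq_val,
      map_sub, map_pow, map_one, hγ0] at h6
    exact h6
  have hslit : ∀ θ, γ.emb θ (b : CoordRing m u) ∈ Complex.slitPlane := by
    intro θ
    rw [hbval]
    exact one_add_srt_slit (hg θ)
  have hlog : ∀ θ, Complex.log (γ.emb θ (b : CoordRing m u)) = BBo (cco u ε θ) := by
    intro θ
    rw [hbval]
    rfl
  have hx0 : ∀ (θ : Fin m → ℝ) (l : Fin m), (dlogRow γ (x m u 0) θ l).re =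
      (dlogRow γ b θ l).re - (lg ε (θ l)).re := by
    intro θ l
    have h1 := congrFun (TorRegAux.dlogRow_x0 hu γ θ) l
    simp only [Pi.sub_apply, Finset.sum_apply] at h1
    rw [← Finset.sum_sub_distrib] at h1
    simp only [row_lg hu h0 γ hγ] at h1
    rw [Finset.sum_ite_eq, if_pos (Finset.mem_univ _)] at h1
    have h2 : dlogRow γ b θ l = -dlogRow γ (TorRegAux.sq m hu 0 * ((x m u 0) ^ 2)⁻¹) θ l := by
      rw [hb, TorRegAux.dlogRow_inv]
      rfl
    rw [h1, h2, Complex.sub_re, Complex.neg_re, Complex.neg_re]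
    ring
  have hCc : ∀ k : Fin m, Continuous fun θ : Fin m → ℝ => (∏ j with k < j, tf ε (θ j)).re := by
    intro k
    exact Complex.continuous_re.comp (continuous_finsetProd _ fun j _ =>
      (tf_continuous ε).comp (continuous_apply j))
  have hCu : ∀ (k : Fin m) (θ : Fin m → ℝ) (s : ℝ),
      (∏ j with k < j, tf ε (update θ k s j)).re = (∏ j with k < j, tf ε (θ j)).re := by
    intro k θ s
    congr 1
    refine Finset.prod_congr rfl fun j hj => ?_
    rw [Finset.mem_filter] at hj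
    rw [update_of_ne hj.2.ne']
  rw [regFun_diag γ (x m u) (fun _ => tf ε) (fun _ => tf_continuous ε) (hrow_xo γ hγ)]
  simp only [hγ0]
  rw [sub_eq_add_neg, ← Finset.sum_neg_distrib]
  congr 1
  refine Finset.sum_congr rfl fun k _ => ?_
  have hibp := ibp γ b hslit k (aa ε) (da ε) (aa_hasDerivAt ε) (da_continuous ε) (aa_periodic ε)
    (fun θ => (∏ j with k < j, tf ε (θ j)).re) (hCc k) (hCu k)
  have ca : Continuous fun θ : Fin m → ℝ => aa ε (θ k) :=
    (aa_continuous ε).comp (continuous_apply k)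
  have cd : Continuous fun θ : Fin m → ℝ => da ε (θ k) :=
    (da_continuous ε).comp (continuous_apply k)
  have cl : Continuous fun θ : Fin m → ℝ => (lg ε (θ k)).re :=
    Complex.continuous_re.comp ((lg_continuous h0).comp (continuous_apply k))
  have cb : Continuous fun θ : Fin m → ℝ => (dlogRow γ b θ k).re :=
    Complex.continuous_re.comp (dlogRow_continuous γ b k)
  have cB : Continuous fun θ : Fin m → ℝ => (Complex.log (γ.emb θ (b : CoordRing m u))).im :=
    Complex.continuous_im.comp (slit_contDiff γ b hslit).continuous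
  have c1 : Continuous fun θ : Fin m → ℝ => aa ε (θ k) * (dlogRow γ b θ k).re *
      (∏ j with k < j, tf ε (θ j)).re := (ca.mul cb).mul (hCc k)
  have c2 : Continuous fun θ : Fin m → ℝ => aa ε (θ k) * (lg ε (θ k)).re *
      (∏ j with k < j, tf ε (θ j)).re := (ca.mul cl).mul (hCc k)
  have e1 : (∫ θ in box m, Real.log ‖γ.emb θ (x m u k.succ : CoordRing m u)‖ *
      (dlogRow γ (x m u 0) θ k).re *
        ((∏ j with j < k, (tf ε (θ j)).re) * (∏ j with k < j, tf ε (θ j)).re)) =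
      (∫ θ in box m, aa ε (θ k) * (dlogRow γ b θ k).re * (∏ j with k < j, tf ε (θ j)).re) -
      ∫ θ in box m, aa ε (θ k) * (lg ε (θ k)).re * (∏ j with k < j, tf ε (θ j)).re := by
    rw [← integral_sub (RegLog_box_int c1) (RegLog_box_int c2)]
    congr 1
    funext θ
    rw [hγ, log_norm_crv, hx0]
    simp only [re_tf, Finset.prod_const_one, one_mul]
    ring
  rw [e1, hibp, sub_eq_add_neg, neg_add, neg_neg, neg_neg]
  simp only [hlog]
  simp only [hlog] at cB
  have c3 : Continuous fun θ : Fin m → ℝ => da ε (θ k) * (BBo (cco u ε θ)).im *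
      (∏ j with k < j, tf ε (θ j)).re := (cd.mul cB).mul (hCc k)
  rw [← integral_add (RegLog_box_int c3) (RegLog_box_int c2)]
  congr 1
  funext θ
  ring

end P4a177o
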